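import Pool.Agent.H94_hk.Bridge2

/-!
# The bridge: vanishing of the first cohomology
-/

namespace Pool.Agent.H94_hk

open MvPolynomial

noncomputable section

namespace TConf

variable {k r : ℕ} {T : TConf k r} {n : ℕ}

theorem HasExp.eq_sum {z : Fin k → KK} {N : ℕ}
    (hz : ∀ i, z i ^ n = algebraMap R3 KK (T.L i)) (hz0 : ∀ i, z i ≠ 0) {x : KK}
    {P : (Fin k → Fin n) → R3} (h : T.HasExp z n N x P) : x =
    ∑ a, algebraMap R3 KK (P a) * (∏ i, z i ^ (a i : ℕ)) / algebraMap R3 KK ((∏ i, T.L i) ^ N) := by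
  have hQ : algebraMap R3 KK ((∏ i, T.L i) ^ N) ≠ 0 := by
    rw [alg_Q hz]; exact zm_ne_zero hz0 _
  rw [← Finset.sum_div, eq_div_iff hQ, mul_comm]
  exact h

theorem Full.bridge (hT : T.Full) (hn : 0 < n) (hs : T.Solvable n) (𝒞 : Config k)
    (h𝒞 : 𝒞.form = T.f) : InfinitesimallyRigidHK 𝒞 n := by
  intro z hz' θ hpres hcoc
  have hz : ∀ i, z i ^ n = algebraMap R3 KK (T.L i) := by
    intro i; rw [hz' i, h𝒞]; rfl
  have hz0 := z_ne_zero hn T.L z hz T.L_prime
  have hk3 := hT.k3
  let i0 : Fin k := ⟨0, by omega⟩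
  let j0 : Fin k := ⟨1, by omega⟩
  have hij0 : i0 ≠ j0 := by
    intro h
    have h1 : (0 : ℕ) = 1 := congrArg Fin.val h
    omega
  have hi0 : T.meet (Sum.inl i0) (T.nd i0 j0) := T.mem_nodes.mp (T.nd_mem hij0)
  have hch : ∀ D D', T.meet D D' → T.chart D D' ∈ {R | 𝒞.IsChart R} := fun D D' h =>
    (hT.isChart_iff h𝒞).mpr ⟨D, D', h, rfl⟩
  let s0 : {R | 𝒞.IsChart R} := ⟨T.chart (Sum.inl i0) (T.nd i0 j0), hch _ _ hi0⟩
  let s : Crv k r → Crv k r → {R | 𝒞.IsChart R} := fun D D' =>
    if h : T.meet D D' then ⟨T.chart D D', hch _ _ h⟩ else s0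
  have hsval : ∀ D D', (h : T.meet D D') → s D D' = ⟨T.chart D D', hch _ _ h⟩ := by
    intro D D' h
    simp only [s, dif_pos h]
  have hdiff : ∀ R R', θ R R' = θ R s0 - θ R' s0 := by
    intro R R'
    rw [← hcoc R R' s0, add_sub_cancel_right]
  have hself : ∀ R, θ R R = 0 := by
    intro R
    rw [hdiff, sub_self]
  have hld3 : ∀ (δ : Derivation ℂ (ratioAlg z Set.univ) (ratioAlg z Set.univ)) (i j : Fin k),
      (ld δ i i0 : KK) - ld δ j i0 = ld δ i j := by
    intro δ i j
    have h1 := congrArg Subtype.val (ld_add δ hz0 i j i0)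
    have h2 : (ld δ i j : KK) + ld δ j i0 = ld δ i i0 := h1
    rw [← h2]; ring
  obtain ⟨N, hN, G, P, hG, hGmem, hGP, hsol⟩ := exists_sol hn hs hz hz0
    (fun D D' i => (ld (θ (s D D') s0) i i0 : KK)) (fun D D' i => Subtype.property _)
    (by
      intro D D' hm
      have h1 : s D D' = s D' D := by
        rw [hsval D D' hm, hsval D' D (T.meet_symm hm)]
        apply Subtype.ext
        exact T.chart_symm
      rw [h1])
    (by
      intro D D' c hc
      exact ld_rel hn hz hz0 _ i0 c hc)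
    (by
      intro D D' D'' i j hm hm'
      rw [hld3, hld3]
      have h1 : (ld (θ (s D D') s0) i j : KK) - ld (θ (s D D'') s0) i j =
          (ld (θ (s D D') (s D D'')) i j : KK) := by
        rw [hdiff (s D D') (s D D''), ld_sub]
        push_cast
        rfl
      rw [h1]
      by_cases hne : D' = D''
      · subst hne
        rw [hself]
        have h2 : ld (0 : Derivation ℂ (ratioAlg z Set.univ) (ratioAlg z Set.univ)) i j = 0 := by
          rw [ld, Derivation.coe_zero, Pi.zero_apply, zero_mul]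
        rw [h2]
        exact zero_mem _
      · refine ld_ord hz0 _ hm hm' hne ?_ i j
        have h2 := hpres (s D D') (s D D'')
        rw [hsval D D' hm, hsval D D'' hm'] at h2 ⊢
        exact h2)
  have hP : ∀ (a : Fin k → Fin n) (d : ℕ), ∑ i, (a i : ℕ) = d * n →
      T.GSol n N d (fun i => (a i : ℕ)) (fun D D' i => G D D' i a) (fun i => P i a) := hsol
  have hQ : algebraMap R3 KK ((∏ i, T.L i) ^ N) ≠ 0 := by
    rw [alg_Q hz]; exact zm_ne_zero hz0 _
  have hdN : ∀ (a : Fin k → Fin n) (d : ℕ), ∑ i, (a i : ℕ) = d * n → d ≤ k * N := by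
    intro a d hd
    have h1 := d_le (fun i => (a i).2) hd hn
    nlinarith
  let π : Fin k → KK := fun i => (∑ a, algebraMap R3 KK (P i a) * ∏ i, z i ^ (a i : ℕ)) /
    algebraMap R3 KK ((∏ i, T.L i) ^ N)
  have hπE : ∀ i, T.HasExp z n N (π i) (P i) := by
    intro i
    rw [HasExp]
    simp only [π]
    rw [mul_div_cancel₀ _ hQ]
  have hπ : ∀ i, π i ∈ ratioAlg z Set.univ := by
    intro i
    rw [(hπE i).eq_sum hz hz0]
    refine Subalgebra.sum_mem _ fun a _ => ?_
    by_cases hd : n ∣ ∑ i, (a i : ℕ)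
    · obtain ⟨d, hd1⟩ := hd
      have hd2 : ∑ i, (a i : ℕ) = d * n := by rw [hd1, mul_comm]
      exact hT.suf_univ hz hz0 i0 hd2 (hdN a d hd2) ((hP a d hd2).hom i)
    · rw [(hGP a hd).2 i, map_zero, zero_mul, zero_div]
      exact Subalgebra.zero_mem _
  have hcC : ∀ x : ℂ, algebraMap R3 KK (C x) = algebraMap ℂ KK x := by
    intro x
    have h4 : (C x : R3) = algebraMap ℂ R3 x := rfl
    rw [h4, ← IsScalarTower.algebraMap_apply ℂ R3 KK]
  obtain ⟨δ, hδ⟩ := hT.exists_theta hn hz hz0 π hπ (by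
    intro c hc
    have h1 := HasExp.sum Finset.univ (fun i (_ : i ∈ Finset.univ) =>
      ((hπE i).mul (T.L i)).mul (C (c i)))
    have h2 := h1.eq_sum hz hz0
    simp only [hcC] at h2
    rw [h2]
    refine Finset.sum_eq_zero fun a _ => ?_
    have h3 : ∑ i, C (c i) * (T.L i * P i a) = 0 := by
      by_cases hd : n ∣ ∑ i, (a i : ℕ)
      · obtain ⟨d, hd1⟩ := hd
        have hd2 : ∑ i, (a i : ℕ) = d * n := by rw [hd1, mul_comm]
        exact (hP a d hd2).rel c hc
      · exact Finset.sum_eq_zero fun i _ => by rw [(hGP a hd).2 i]; ring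
    rw [h3, map_zero, zero_mul, zero_div])
  refine ⟨fun R => θ R s0 - δ, ?_, ?_⟩
  · rintro ⟨R, hR⟩
    obtain ⟨D, D', hm, rfl⟩ := (hT.isChart_iff h𝒞).mp hR
    refine preserves_of _ fun i j hij => ?_
    have hsR : s D D' = ⟨T.chart D D', hR⟩ := hsval D D' hm
    have h1 : (((θ ⟨T.chart D D', hR⟩ s0 - δ) (rt z i j) : ratioAlg z Set.univ) : KK) =
        z i / z j * (((ld (θ (s D D') s0) i i0 : KK) - (ld (θ (s D D') s0) j i0 : KK)) -
          (π i - π j)) := by
      rw [Derivation.sub_apply, hld3, hsR]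
      have h2 : (δ (rt z i j) : KK) = z i / z j * (π i - π j) := hδ i j
      have h3 : ((θ ⟨T.chart D D', hR⟩ s0) (rt z i j) : KK) =
          z i / z j * (ld (θ ⟨T.chart D D', hR⟩ s0) i j : KK) := by
        rw [ld_mul _ hz0]; rfl
      have h4 : (((θ ⟨T.chart D D', hR⟩ s0) (rt z i j) - δ (rt z i j) : ratioAlg z Set.univ) :
        KK) = ((θ ⟨T.chart D D', hR⟩ s0) (rt z i j) : KK) - (δ (rt z i j) : KK) := rfl
      rw [h4, h2, h3]; ring
    rw [h1]
    have h5 := ((hG D D' i).sub (hG D D' j)).sub ((hπE i).sub (hπE j))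
    rw [h5.eq_sum hz hz0, Finset.mul_sum]
    refine Subalgebra.sum_mem _ fun a _ => ?_
    by_cases hd : n ∣ ∑ i, (a i : ℕ)
    · obtain ⟨d, hd1⟩ := hd
      have hd2 : ∑ i, (a i : ℕ) = d * n := by rw [hd1, mul_comm]
      have hS := hP a d hd2
      have hv := T.chart_val hm hij
      have hij' : (i, j) ∈ T.chart D' D := by
        rw [T.chart_symm]; exact hij
      have hv' := T.chart_val (T.meet_symm hm) hij'
      have hr1 := hS.reg D D' i j hm
      have hr2 := hS.reg D' D i j (T.meet_symm hm)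
      have hGs : G D' D = G D D' := by
        funext i
        have h6 := hG D' D i
        have h7 : s D' D = s D D' := by
          rw [hsval D D' hm, hsval D' D (T.meet_symm hm)]
          apply Subtype.ext
          exact T.chart_symm
        rw [h7] at h6
        exact h6.unique hn hz (hG D D' i)
      rw [hGs] at hr2
      have hsuf := fun (Px : R3) (hh : Px.IsHomogeneous (k * N - d))
        (h1 : Px ∈ T.J D (T.gb n N (fun i => (a i : ℕ)) i j D))
        (h2 : Px ∈ T.J D' (T.gb n N (fun i => (a i : ℕ)) i j D')) =>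
        hT.suf hz hz0 hm hv hv' hd2 (hdN a d hd2) hh h1 h2
      have hGh : ∀ i, (G D D' i a).IsHomogeneous (k * N - d) := by
        intro i
        obtain hGhom : G D D' i a ∈ Mhom k n N a := by
          exact hGmem D D' i a
        rw [Mhom, if_pos ⟨d, hd1⟩, mem_homogeneousSubmodule] at hGhom
        have hdiv : (∑ i, (a i : ℕ)) / n = d := by rw [hd1, Nat.mul_div_cancel_left _ hn]
        rw [hdiv] at hGhom
        exact hGhom
      have hmem := hsuf ((G D D' i a - G D D' j a) - (P i a - P j a))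
        (((hGh i).sub (hGh j)).sub ((hS.hom i).sub (hS.hom j)))
        (by
          have := neg_mem hr1
          rwa [neg_sub] at this)
        (by
          have := neg_mem hr2
          rwa [neg_sub] at this)
      have h8 : z i / z j * (algebraMap R3 KK ((G D D' i a - G D D' j a) - (P i a - P j a)) *
          (∏ i, z i ^ (a i : ℕ)) / algebraMap R3 KK ((∏ i, T.L i) ^ N)) =
          algebraMap R3 KK ((G D D' i a - G D D' j a) - (P i a - P j a)) *
          (∏ i, z i ^ (a i : ℕ)) * (z i / z j) / algebraMap R3 KK ((∏ i, T.L i) ^ N) := by ring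
      rw [h8]
      exact hmem
    · rw [(hGP a hd).1 D D' i, (hGP a hd).1 D D' j, (hGP a hd).2 i, (hGP a hd).2 j]
      simp
  · intro R R'
    rw [hdiff R R']
    exact (sub_sub_sub_cancel_right _ _ _).symm

end TConf

end

end Pool.Agent.H94_hk
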