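import Pool.Agent.H94_hk.Defs
import Pool.Agent.H94_hk.Stmt

/-!
# The two forms of the statement agree
-/

namespace Pool.Agent.H94_hk

noncomputable section

/-- The configuration in the form used in the proofs. -/
def toOld {k : ℕ} (𝒞 : Rig.Config k) : Config k where
  form := 𝒞.form
  distinct := 𝒞.distinct
  nonconcurrent := 𝒞.nonconcurrent

theorem infRigid_of {k : ℕ} {𝒞 : Rig.Config k} {n : ℕ} (h : InfinitesimallyRigidHK (toOld 𝒞) n) :
    Rig.InfRigid 𝒞 n := fun z hz θ h1 h2 => h z hz θ h1 h2

end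

end Pool.Agent.H94_hk
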