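import Pool.Agent.H94_hk.Mono

/-!
# Adapted monomials
-/

namespace Pool.Agent.H94_hk

open MvPolynomial

noncomputable section

namespace TConf

variable {k r : ℕ} (T : TConf k r)

/-- Monomials in the forms of the lines. -/
def Lm (m : Fin k → ℕ) : R3 := ∏ i, T.L i ^ m i

/-- The order of a monomial in the forms. -/
def ordN (D : Crv k r) (m : Fin k → ℕ) : ℕ := ∑ i, T.val D i * m i

theorem Lm_add (m m' : Fin k → ℕ) : T.Lm (m + m') = T.Lm m * T.Lm m' := by
  rw [Lm, Lm, Lm, ← Finset.prod_mul_distrib]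
  exact Finset.prod_congr rfl fun i _ => pow_add _ _ _

theorem ordN_add (D : Crv k r) (m m' : Fin k → ℕ) :
    T.ordN D (m + m') = T.ordN D m + T.ordN D m' := by
  simp [ordN, mul_add, Finset.sum_add_distrib]

theorem Lm_single (i : Fin k) : T.Lm (Pi.single i 1) = T.L i := by
  rw [Lm, Finset.prod_eq_single i]
  · simp
  · intro j _ hj
    rw [Pi.single_eq_of_ne hj, pow_zero]
  · intro h; exact absurd (Finset.mem_univ i) h

theorem ordN_single (D : Crv k r) (i : Fin k) : T.ordN D (Pi.single i 1) = T.val D i := by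
  simp [ordN, Pi.single_apply]

/-- The span of the monomials of degree `t` with orders at least `c`. -/
def W (c : Crv k r → ℕ) (t : ℕ) : Submodule ℂ R3 :=
  Submodule.span ℂ (T.Lm '' {m | ∑ i, m i = t ∧ ∀ D, c D ≤ T.ordN D m})

theorem W_mono {c c' : Crv k r → ℕ} (h : c ≤ c') (t : ℕ) : T.W c' t ≤ T.W c t := by
  apply Submodule.span_mono
  apply Set.image_mono
  rintro m ⟨h1, h2⟩
  exact ⟨h1, fun D => (h D).trans (h2 D)⟩

theorem W_mul {c c' : Crv k r → ℕ} {t t' : ℕ} {P P' : R3} (h : P ∈ T.W c t)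
    (h' : P' ∈ T.W c' t') : P * P' ∈ T.W (c + c') (t + t') := by
  have h1 : P * P' ∈ T.W c t * T.W c' t' := Submodule.mul_mem_mul h h'
  rw [W, W, Submodule.span_mul_span] at h1
  refine Submodule.span_mono ?_ h1
  rintro _ ⟨_, ⟨m, ⟨hm1, hm2⟩, rfl⟩, _, ⟨m', ⟨hm1', hm2'⟩, rfl⟩, rfl⟩
  refine ⟨m + m', ⟨?_, fun D => ?_⟩, T.Lm_add m m'⟩
  · simp [Finset.sum_add_distrib, hm1, hm1']
  · rw [ordN_add]
    exact add_le_add (hm2 D) (hm2' D)

theorem one_mem_W : (1 : R3) ∈ T.W 0 0 := by
  refine Submodule.subset_span ⟨0, ⟨by simp, fun D => ?_⟩, by simp [Lm]⟩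
  exact Nat.zero_le _

theorem C_mul_mem_W {c : Crv k r → ℕ} {t : ℕ} {P : R3} (a : ℂ) (h : P ∈ T.W c t) :
    C a * P ∈ T.W c t := by
  rw [C_mul']
  exact Submodule.smul_mem _ _ h

theorem L_mem_W (i : Fin k) : T.L i ∈ T.W (fun D => T.val D i) 1 := by
  refine Submodule.subset_span ⟨Pi.single i 1, ⟨by simp, fun D => ?_⟩, T.Lm_single i⟩
  rw [ordN_single]

theorem L_pow_mem_W (i : Fin k) (b : ℕ) : T.L i ^ b ∈ T.W (fun D => b * T.val D i) b := by
  induction b with
  | zero =>
    rw [pow_zero]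
    refine T.W_mono ?_ 0 T.one_mem_W
    intro D; simp
  | succ b ih =>
    rw [pow_succ]
    refine T.W_mono ?_ _ (T.W_mul ih (T.L_mem_W i))
    intro D
    simp [Nat.succ_mul]

variable {T}

/-- Forms vanishing at a multiple point. -/
theorem form_mem {i c : Fin k} {q : Fin r} (hi : i ∈ T.tri q) (hc : c ∈ T.tri q) (hci : c ≠ i)
    (v : Fin 3 → ℂ) (hv : v ⬝ᵥ T.pt q = 0) : ∃ a b : ℂ, v = a • T.f i + b • T.f c := by
  have h1 := T.fjb i c hci.symm
  have h0 := T.du_pt i q hi
  set b := (v ⬝ᵥ T.pb i) / (T.f c ⬝ᵥ T.pb i) with hb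
  set w := v - b • T.f c with hw
  have hwb : w ⬝ᵥ T.pb i = 0 := by
    rw [hw, sub_dotProduct, smul_dotProduct, smul_eq_mul, hb, div_mul_cancel₀ _ h1, sub_self]
  have hwq : w ⬝ᵥ T.pt q = 0 := by
    rw [hw, sub_dotProduct, smul_dotProduct, hv, (T.mem_tri c q).mp hc]
    simp
  have hwa : w ⬝ᵥ T.pa i = 0 := by
    rw [T.pt_eq hi, dotProduct_add, dotProduct_smul, dotProduct_smul, hwb, smul_zero, add_zero,
      smul_eq_mul] at hwq
    exact (mul_eq_zero.mp hwq).resolve_left h0
  refine ⟨w ⬝ᵥ T.pc i, b, ?_⟩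
  have h2 : w = (w ⬝ᵥ T.pc i) • T.f i := by
    have h3 : w = ∑ j, w j • (Pi.single j 1 : Fin 3 → ℂ) := by
      funext m
      simp [Finset.sum_apply, Pi.single_apply]
    calc w = ∑ j, w j • (Pi.single j 1 : Fin 3 → ℂ) := h3
      _ = ∑ j, w j • ((T.pc i j) • T.f i + (T.pa i j) • T.du i + (T.pb i j) • T.dv i) := by
          refine Finset.sum_congr rfl fun j _ => ?_
          rw [T.decomp i j]
      _ = (w ⬝ᵥ T.pc i) • T.f i + (w ⬝ᵥ T.pa i) • T.du i + (w ⬝ᵥ T.pb i) • T.dv i := by
          simp only [smul_add, Finset.sum_add_distrib, dotProduct, Finset.sum_smul, smul_smul]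
      _ = (w ⬝ᵥ T.pc i) • T.f i := by rw [hwa, hwb]; simp
  have h4 : v = w + b • T.f c := by rw [hw, sub_add_cancel]
  conv_lhs => rw [h4, h2]

/-- The completeness conditions follow from the existence of a multiple point. -/
theorem full_of_pts (ok : T.Ok) (three : ∀ q, 3 ≤ (T.tri q).card) (out : ∀ q, ∃ w, w ∉ T.tri q)
    (pts : Nonempty (Fin r)) : T.Full := by
  obtain ⟨q⟩ := pts
  obtain ⟨w, hw⟩ := out q
  obtain ⟨i, hi⟩ := ok.ne q
  obtain ⟨c, hc, hci⟩ := Finset.exists_mem_ne (by have := three q; omega : 1 < (T.tri q).card) i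
  have hw' : T.f w ⬝ᵥ T.pt q ≠ 0 := fun h => hw ((T.mem_tri w q).mpr h)
  have hk : 3 ≤ k := by
    have h1 := Finset.card_le_univ (T.tri q)
    rw [Fintype.card_fin] at h1
    have := three q
    omega
  refine ⟨ok, three, out, hk, fun v => ?_⟩
  set β := (v ⬝ᵥ T.pt q) / (T.f w ⬝ᵥ T.pt q) with hβ
  have h1 : (v - β • T.f w) ⬝ᵥ T.pt q = 0 := by
    rw [sub_dotProduct, smul_dotProduct, smul_eq_mul, hβ, div_mul_cancel₀ _ hw', sub_self]
  obtain ⟨x, y, hxy⟩ := form_mem hi hc hci _ h1
  refine ⟨x • Pi.single i 1 + y • Pi.single c 1 + β • Pi.single w 1, ?_⟩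
  have h2 : v = x • T.f i + y • T.f c + β • T.f w := by
    rw [← hxy]; simp
  conv_lhs => rw [h2]
  simp only [Pi.add_apply, Pi.smul_apply, smul_eq_mul, add_smul, Finset.sum_add_distrib]
  have h3 : ∀ (s : ℂ) (m : Fin k), ∑ l, (s * (Pi.single m 1 : Fin k → ℂ) l) • T.f l =
      s • T.f m := by
    intro s m
    rw [Finset.sum_eq_single m]
    · simp
    · intro l _ hl
      rw [Pi.single_eq_of_ne hl, mul_zero, zero_smul]
    · intro h; exact absurd (Finset.mem_univ m) h
  rw [h3, h3, h3]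

theorem Full.form_mem_W (hT : T.Full) {q : Fin r} (v : Fin 3 → ℂ) (hv : v ⬝ᵥ T.pt q = 0) :
    lin v ∈ T.W (Pi.single (Sum.inr q) 1) 1 := by
  obtain ⟨i, hi⟩ := hT.ok.ne q
  obtain ⟨c, hc, hci⟩ := hT.exists_other (q := q) i
  obtain ⟨a, b, hab⟩ := form_mem hi hc hci v hv
  have key : ∀ i ∈ T.tri q, T.L i ∈ T.W (Pi.single (Sum.inr q) 1) 1 := by
    intro i hi
    refine T.W_mono ?_ 1 (T.L_mem_W i)
    intro D
    by_cases hD : D = Sum.inr q
    · subst hD
      simp [val, hi]
    · rw [Pi.single_eq_of_ne hD]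
      exact Nat.zero_le _
  rw [hab, lin_add, lin_smul, lin_smul]
  exact add_mem (T.C_mul_mem_W _ (key i hi)) (T.C_mul_mem_W _ (key c hc))

theorem lin_sum_smul (b : Fin k → ℂ) : lin (∑ l, b l • T.f l) = ∑ l, C (b l) * T.L l := by
  have h6 : ∀ s : Finset (Fin k), lin (∑ i ∈ s, b i • T.f i) = ∑ i ∈ s, C (b i) * T.L i := by
    intro s
    induction s using Finset.induction_on with
    | empty => simp [lin]
    | insert x s hx ih =>
      rw [Finset.sum_insert hx, Finset.sum_insert hx, lin_add, lin_smul, ih, L]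
  exact h6 _

theorem Full.lin_mem_W (hT : T.Full) (v : Fin 3 → ℂ) : lin v ∈ T.W 0 1 := by
  obtain ⟨b, hb⟩ := hT.span v
  rw [hb, lin_sum_smul]
  refine sum_mem fun l _ => T.C_mul_mem_W _ (T.W_mono ?_ 1 (T.L_mem_W l))
  intro D; exact Nat.zero_le _

theorem lin_X (j : Fin 3) : (X j : R3) = lin (Pi.single j 1) := by
  simp [lin, Pi.single_apply]

/-- Polynomials in an auxiliary variable whose coefficients have the expected order. -/
def Adm (T : TConf k r) (q : Fin r) (t : ℕ) (f : Polynomial R3) : Prop :=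
  ∀ m, f.coeff m ∈ T.W (Pi.single (Sum.inr q) m) t

theorem Adm.mul {q : Fin r} {t t' : ℕ} {f g : Polynomial R3} (hf : Adm T q t f)
    (hg : Adm T q t' g) : Adm T q (t + t') (f * g) := by
  intro m
  rw [Polynomial.coeff_mul]
  refine sum_mem fun x hx => ?_
  have h := T.W_mul (hf x.1) (hg x.2)
  have hx' : x.1 + x.2 = m := Finset.HasAntidiagonal.mem_antidiagonal.mp hx
  rw [← Pi.single_add, hx'] at h
  exact h

theorem Adm.one {q : Fin r} : Adm T q 0 1 := by
  intro m
  rw [Polynomial.coeff_one]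
  split_ifs with hm
  · subst hm
    rw [Pi.single_zero]
    exact T.one_mem_W
  · exact zero_mem _

theorem Adm.pow {q : Fin r} {f : Polynomial R3} (hf : Adm T q 1 f) (d : ℕ) :
    Adm T q d (f ^ d) := by
  induction d with
  | zero => rw [pow_zero]; exact Adm.one
  | succ d ih =>
    rw [pow_succ]
    exact ih.mul hf

theorem Full.Adm_X (hT : T.Full) (q : Fin r) (j : Fin 3) : Adm T q 1 (T.phi q (X j)) := by
  intro m
  have h1 : T.phi q (X j) = Polynomial.C (C (T.pt q j) * T.kp q) +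
      Polynomial.X * Polynomial.C (T.y q j) := by simp [phi, y]
  rw [h1]
  match m with
  | 0 =>
    simp only [Polynomial.coeff_add, Polynomial.coeff_C_zero, Polynomial.mul_coeff_zero,
      Polynomial.coeff_X_zero, zero_mul, add_zero]
    rw [Pi.single_zero]
    exact T.C_mul_mem_W _ (hT.lin_mem_W _)
  | 1 =>
    simp only [Polynomial.coeff_add, Polynomial.coeff_C_succ, zero_add, Polynomial.coeff_X_mul,
      Polynomial.coeff_C_zero]
    obtain ⟨v, hv, hy⟩ := T.y_eq_lin q j
    rw [hy]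
    exact hT.form_mem_W v hv
  | m + 2 =>
    simp only [Polynomial.coeff_add, Polynomial.coeff_C_succ, zero_add, Polynomial.coeff_X_mul]
    exact zero_mem _

theorem phi_C (q : Fin r) (a : ℂ) : T.phi q (C a) = Polynomial.C (C a) := (T.phi q).commutes a

theorem Full.Adm_phi (hT : T.Full) (q : Fin r) {P : R3} {t : ℕ} (hP : P.IsHomogeneous t) :
    Adm T q t (T.phi q P) := by
  have h1 : T.phi q P = ∑ d ∈ P.support, Polynomial.C (C (P.coeff d)) *
      ∏ j, T.phi q (X j) ^ d j := by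
    conv_lhs => rw [P.as_sum, map_sum]
    refine Finset.sum_congr rfl fun d _ => ?_
    rw [monomial_eq, map_mul, Finsupp.prod_fintype _ _ (fun i => pow_zero _), map_prod]
    rw [phi_C]
    exact congrArg _ (Finset.prod_congr rfl fun j _ => map_pow _ _ _)
  intro m
  rw [h1, Polynomial.finsetSum_coeff]
  refine sum_mem fun d hd => ?_
  rw [Polynomial.coeff_C_mul]
  refine T.C_mul_mem_W _ ?_
  have h2 : ∑ j, d j = t := by
    have h3 := hP.degree_eq_sum_deg_support hd
    rw [h3]
    symm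
    apply Finset.sum_subset (Finset.subset_univ _)
    intro i _ hi
    rwa [Finsupp.notMem_support_iff] at hi
  rw [← h2]
  have h4 : ∀ s : Finset (Fin 3), Adm T q (∑ j ∈ s, d j) (∏ j ∈ s, T.phi q (X j) ^ d j) := by
    intro s
    induction s using Finset.induction_on with
    | empty => simpa using Adm.one
    | insert j s hj ih =>
      rw [Finset.prod_insert hj, Finset.sum_insert hj]
      exact ((hT.Adm_X q j).pow (d j)).mul ih
  exact h4 Finset.univ m

theorem Full.hom_mem_W (hT : T.Full) {P : R3} {t : ℕ} (hP : P.IsHomogeneous t) :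
    P ∈ T.W 0 t := by
  have h0 : ∀ {P P' : R3} {t t' : ℕ}, P ∈ T.W 0 t → P' ∈ T.W 0 t' → P * P' ∈ T.W 0 (t + t') := by
    intro P P' t t' h h'
    have := T.W_mul h h'
    rwa [add_zero] at this
  have hX : ∀ (j : Fin 3) (d : ℕ), (X j : R3) ^ d ∈ T.W 0 d := by
    intro j d
    induction d with
    | zero => rw [pow_zero]; exact T.one_mem_W
    | succ d ih =>
      rw [pow_succ]
      refine h0 ih ?_
      rw [lin_X]
      exact hT.lin_mem_W _
  rw [P.as_sum]
  refine sum_mem fun d hd => ?_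
  rw [monomial_eq, Finsupp.prod_fintype _ _ (fun i => pow_zero _)]
  refine T.C_mul_mem_W _ ?_
  have h2 : ∑ j, d j = t := by
    have h3 := hP.degree_eq_sum_deg_support hd
    rw [h3]
    symm
    apply Finset.sum_subset (Finset.subset_univ _)
    intro i _ hi
    rwa [Finsupp.notMem_support_iff] at hi
  rw [← h2]
  have h4 : ∀ s : Finset (Fin 3), ∏ j ∈ s, (X j : R3) ^ d j ∈ T.W 0 (∑ j ∈ s, d j) := by
    intro s
    induction s using Finset.induction_on with
    | empty => simpa using T.one_mem_W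
    | insert j s hj ih =>
      rw [Finset.prod_insert hj, Finset.sum_insert hj]
      exact h0 (hX j (d j)) ih
  exact h4 Finset.univ

theorem Full.J_mem_W (hT : T.Full) {P : R3} {t : ℕ} (hP : P.IsHomogeneous t) {q : Fin r} {μ : ℕ}
    (hJ : P ∈ T.J (Sum.inr q) μ) : P ∈ T.W (Pi.single (Sum.inr q) μ) t := by
  have h1 := hT.Adm_phi q hP
  rw [mem_J_inr] at hJ
  rw [← T.eval_one_phi q P, Polynomial.eval_eq_sum_range]
  refine sum_mem fun m _ => ?_
  rw [one_pow, mul_one]
  by_cases hm : m < μ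
  · rw [Polynomial.X_pow_dvd_iff.mp hJ m hm]; exact zero_mem _
  · refine T.W_mono ?_ t (h1 m)
    exact Pi.single_mono (Sum.inr q) (not_lt.mp hm)

theorem cancel_pow {D : Crv k r} {j : Fin k} {b m : ℕ} {P : R3} (hv : T.val D j = 1)
    (h : T.L j ^ b * P ∈ T.J D (m + b)) : P ∈ T.J D m := by
  induction b with
  | zero => simpa using h
  | succ b ih =>
    apply ih
    apply T.cancel (j := j)
    rw [hv]
    rw [pow_succ', mul_assoc] at h
    exact h

/-- Homogeneous polynomials with prescribed orders along two meeting curves are spanned by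
monomials in the forms with these orders. -/
theorem Full.adapted (hT : T.Full) {D D' : Crv k r} (h : T.meet D D') {P : R3} {t b b' : ℕ}
    (hP : P.IsHomogeneous t) (h1 : P ∈ T.J D b) (h2 : P ∈ T.J D' b') :
    P ∈ T.W (Pi.single D b + Pi.single D' b') t := by
  by_cases hP0 : P = 0
  · rw [hP0]; exact zero_mem _
  have main : ∀ (q : Fin r) (i : Fin k) (b b' : ℕ), i ∈ T.tri q → P ∈ T.J (Sum.inl i) b →
      P ∈ T.J (Sum.inr q) b' → P ∈ T.W (Pi.single (Sum.inl i) b + Pi.single (Sum.inr q) b') t := by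
    intro q i b b' hi h1 h2
    rw [mem_J_inl] at h1
    obtain ⟨P', rfl⟩ := h1
    have hP'0 : P' ≠ 0 := right_ne_zero_of_mul hP0
    obtain ⟨hle, hP'⟩ := hom_of_mul ((T.L_hom i).pow b) (pow_ne_zero _ (T.L_ne_zero i)) hP'0 hP
    rw [one_mul] at hle hP'
    have h3 : P' ∈ T.J (Sum.inr q) (b' - b) := by
      by_cases hbb : b ≤ b'
      · apply cancel_pow (j := i) (b := b)
        · simp [val, hi]
        · rw [Nat.sub_add_cancel hbb]; exact h2
      · rw [show b' - b = 0 by omega, J_zero]; trivial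
    have h4 := T.W_mul (T.L_pow_mem_W i b) (hT.J_mem_W hP' h3)
    have ht : b + (t - b) = t := by omega
    rw [ht] at h4
    refine T.W_mono ?_ t h4
    intro E
    rcases E with j | q'
    · have e1 : (Pi.single (Sum.inl i) b : Crv k r → ℕ) (Sum.inl j) = if j = i then b else 0 := by
        simp [Pi.single_apply]
      have e2 : ∀ c, (Pi.single (Sum.inr q) c : Crv k r → ℕ) (Sum.inl j) = 0 := by
        simp [Pi.single_apply]
      rw [Pi.add_apply, Pi.add_apply, e1, e2, e2]
      by_cases hji : j = i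
      · subst hji; simp [val]
      · simp [hji]
    · have e1 : (Pi.single (Sum.inl i) b : Crv k r → ℕ) (Sum.inr q') = 0 := by
        simp [Pi.single_apply]
      have e2 : ∀ c, (Pi.single (Sum.inr q) c : Crv k r → ℕ) (Sum.inr q') =
          if q' = q then c else 0 := by
        simp [Pi.single_apply]
      rw [Pi.add_apply, Pi.add_apply, e1, e2, e2]
      by_cases hq : q' = q
      · subst hq
        simp only [val, if_pos hi, if_true]
        omega
      · rw [if_neg hq, if_neg hq]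
        exact Nat.zero_le _
  rcases D with i | q <;> rcases D' with j | q'
  · have hij : i ≠ j := h.1
    rw [mem_J_inl] at h1 h2
    obtain ⟨P1, rfl⟩ := h1
    have h3 : T.L j ^ b' ∣ P1 := (T.L_prime j).pow_dvd_of_dvd_mul_left _ (fun hd =>
      T.not_L_dvd_L hij.symm ((T.L_prime j).dvd_of_dvd_pow hd)) h2
    obtain ⟨P', rfl⟩ := h3
    have h5 : (T.L i ^ b * (T.L j ^ b' * P')) = (T.L i ^ b * T.L j ^ b') * P' := by ring
    rw [h5] at hP hP0 ⊢
    have hP'0 : P' ≠ 0 := right_ne_zero_of_mul hP0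
    obtain ⟨hle, hP'⟩ := hom_of_mul (((T.L_hom i).pow b).mul ((T.L_hom j).pow b'))
      (mul_ne_zero (pow_ne_zero _ (T.L_ne_zero i)) (pow_ne_zero _ (T.L_ne_zero j))) hP'0 hP
    rw [one_mul, one_mul] at hle hP'
    have h4 := T.W_mul (T.W_mul (T.L_pow_mem_W i b) (T.L_pow_mem_W j b')) (hT.hom_mem_W hP')
    have ht : b + b' + (t - (b + b')) = t := by omega
    rw [ht] at h4
    refine T.W_mono ?_ t h4
    intro E
    simp only [Pi.add_apply, Pi.zero_apply, add_zero]
    rcases E with l | q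
    · have e1 : ∀ i c, (Pi.single (Sum.inl i) c : Crv k r → ℕ) (Sum.inl l) =
          if l = i then c else 0 := by
        simp [Pi.single_apply]
      rw [e1, e1]
      have e2 : ∀ i c, (if l = i then c else 0) = c * T.val (Sum.inl i : Crv k r) l := by
        intro i c
        by_cases hl : l = i
        · subst hl; simp [val]
        · simp [val, hl, Ne.symm hl]
      have e3 : ∀ i j, T.val (Sum.inl i : Crv k r) j = T.val (Sum.inl j : Crv k r) i := by
        intro i j
        simp [val, eq_comm]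
      rw [e2, e2, e3 i, e3 j]
    · have e1 : ∀ i c, (Pi.single (Sum.inl i) c : Crv k r → ℕ) (Sum.inr q) = 0 := by
        simp [Pi.single_apply]
      rw [e1, e1]
      exact Nat.zero_le _
  · exact main q' i b b' h h1 h2
  · rw [add_comm]
    exact main q j b' b h h2 h1
  · exact absurd h id

end TConf

end

end Pool.Agent.H94_hk
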