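import Pool.Agent.H94_hk.Charts

/-!
# From Cech cocycles of derivations to polynomial equations
-/

namespace Pool.Agent.H94_hk

open MvPolynomial

noncomputable section

namespace TConf

variable {k r : ℕ} {T : TConf k r}

/-- The data of a cocycle for one character. -/
structure GData (T : TConf k r) (n N d : ℕ) (a : Fin k → ℕ)
    (G : Crv k r → Crv k r → Fin k → R3) : Prop where
  sym : ∀ D D', T.meet D D' → G D D' = G D' D
  hom : ∀ D D' i, (G D D' i).IsHomogeneous (k * N - d)
  rel : ∀ D D' (c : Fin k → ℂ), ∑ i, c i • T.f i = 0 →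
    ∑ i, C (c i) * (T.L i * G D D' i) = 0
  ord : ∀ D D' D'' i j, T.meet D D' → T.meet D D'' →
    (G D D' i - G D D' j) - (G D D'' i - G D D'' j) ∈ T.J D (T.gb n N a i j D)

/-- A solution of the cocycle equations for one character. -/
structure GSol (T : TConf k r) (n N d : ℕ) (a : Fin k → ℕ)
    (G : Crv k r → Crv k r → Fin k → R3) (P : Fin k → R3) : Prop where
  hom : ∀ i, (P i).IsHomogeneous (k * N - d)
  rel : ∀ c : Fin k → ℂ, ∑ i, c i • T.f i = 0 → ∑ i, C (c i) * (T.L i * P i) = 0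
  reg : ∀ D D' i j, T.meet D D' →
    (P i - P j) - (G D D' i - G D D' j) ∈ T.J D (T.gb n N a i j D)

/-- The cocycle equations can be solved for all characters. -/
def Solvable (T : TConf k r) (n : ℕ) : Prop :=
  ∀ a : Fin k → ℕ, (∀ i, a i < n) → ∀ d, ∑ i, a i = d * n → ∃ N0, ∀ N ≥ N0,
    ∀ G : Crv k r → Crv k r → Fin k → R3, T.GData n N d a G → ∃ P, T.GSol n N d a G P

theorem Full.exists_coef (hT : T.Full) : ∃ c : Fin 3 → Fin k → ℂ,
    ∀ j, (Pi.single j 1 : Fin 3 → ℂ) = ∑ l, c j l • T.f l := by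
  choose b hb using hT.span
  exact ⟨fun j => b (Pi.single j 1), fun j => hb _⟩

end TConf

section ratios

variable {k : ℕ} {z : Fin k → KK}

/-- The ratio as an element of the coordinate ring. -/
def rt (z : Fin k → KK) (i j : Fin k) : ratioAlg z Set.univ :=
  ⟨z i / z j, ratio_mem (Set.mem_univ _)⟩

theorem rt_mul (hz0 : ∀ i, z i ≠ 0) (i j l : Fin k) : rt z i j * rt z j l = rt z i l := by
  apply Subtype.ext
  change z i / z j * (z j / z l) = z i / z l
  rw [div_mul_div_cancel₀ (hz0 j)]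

theorem rt_self (hz0 : ∀ i, z i ≠ 0) (i : Fin k) : rt z i i = 1 := by
  apply Subtype.ext
  exact div_self (hz0 i)

/-- The logarithmic derivative of a ratio. -/
def ld (δ : Derivation ℂ (ratioAlg z Set.univ) (ratioAlg z Set.univ)) (i j : Fin k) :
    ratioAlg z Set.univ := δ (rt z i j) * rt z j i

variable (δ δ' : Derivation ℂ (ratioAlg z Set.univ) (ratioAlg z Set.univ))

theorem ld_add (hz0 : ∀ i, z i ≠ 0) (i j l : Fin k) : ld δ i j + ld δ j l = ld δ i l := by
  rw [ld, ld, ld, ← rt_mul hz0 i j l, Derivation.leibniz, ← rt_mul hz0 l j i, smul_eq_mul,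
    smul_eq_mul]
  have h1 := rt_mul hz0 i j i
  have h2 := rt_mul hz0 j l j
  rw [rt_self hz0] at h1 h2
  linear_combination (-(δ (rt z j l)) * rt z l j) * h1 - (δ (rt z i j)) * rt z j i * h2

theorem ld_self (hz0 : ∀ i, z i ≠ 0) (i : Fin k) : ld δ i i = 0 := by
  rw [ld, rt_self hz0]; simp

theorem ld_symm (hz0 : ∀ i, z i ≠ 0) (i j : Fin k) : ld δ j i = - ld δ i j := by
  have h := ld_add δ hz0 i j i
  rw [ld_self δ hz0] at h
  linear_combination h

theorem ld_sub (i j : Fin k) : ld (δ - δ') i j = ld δ i j - ld δ' i j := by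
  rw [ld, ld, ld, Derivation.sub_apply]; ring

theorem ld_mul (hz0 : ∀ i, z i ≠ 0) (i j : Fin k) : δ (rt z i j) = rt z i j * ld δ i j := by
  have h1 := rt_mul hz0 i j i
  rw [rt_self hz0] at h1
  rw [ld]
  linear_combination (-(δ (rt z i j))) * h1

end ratios

namespace TConf

variable {k r : ℕ} {T : TConf k r} {z : Fin k → KK} {n : ℕ}

theorem ld_rel (hn : 0 < n) (hz : ∀ i, z i ^ n = algebraMap R3 KK (T.L i))
    (hz0 : ∀ i, z i ≠ 0) (δ : Derivation ℂ (ratioAlg z Set.univ) (ratioAlg z Set.univ))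
    (i0 : Fin k) (c : Fin k → ℂ) (hc : ∑ i, c i • T.f i = 0) :
    ∑ i, algebraMap R3 KK (C (c i)) * (algebraMap R3 KK (T.L i) * (ld δ i i0 : KK)) = 0 := by
  have hcC : ∀ x : ℂ, algebraMap R3 KK (C x) = algebraMap ℂ KK x := by
    intro x
    have h4 : (C x : R3) = algebraMap ℂ R3 x := rfl
    rw [h4, ← IsScalarTower.algebraMap_apply ℂ R3 KK]
  have h1 : ∑ i, algebraMap ℂ KK (c i) * z i ^ n = 0 := by
    have h2 : ∑ i, C (c i) * T.L i = 0 := by
      have h3 := congrArg lin hc
      have h5 : lin (∑ i, c i • T.f i) = ∑ i, C (c i) * T.L i := by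
        have h6 : ∀ s : Finset (Fin k), lin (∑ i ∈ s, c i • T.f i) = ∑ i ∈ s, C (c i) * T.L i := by
          intro s
          induction s using Finset.induction_on with
          | empty => simp [lin]
          | insert x s hx ih =>
            rw [Finset.sum_insert hx, Finset.sum_insert hx, lin_add, lin_smul, ih, L]
        exact h6 _
      rw [h5] at h3
      rw [h3]; simp [lin]
    have h3 := congrArg (algebraMap R3 KK) h2
    rw [map_sum, map_zero] at h3
    rw [← h3]
    refine Finset.sum_congr rfl fun i _ => ?_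
    rw [map_mul, hcC, hz]
  have h2 : ∑ i, c i • rt z i i0 ^ n = 0 := by
    apply Subtype.ext
    have h3 : ((∑ i, c i • rt z i i0 ^ n : ratioAlg z Set.univ) : KK) =
        ∑ i, algebraMap ℂ KK (c i) * (z i / z i0) ^ n := by
      rw [AddSubmonoidClass.coe_finsetSum]
      refine Finset.sum_congr rfl fun i _ => ?_
      rw [← Algebra.smul_def]
      rfl
    rw [h3]
    have h4 : ∑ i, algebraMap ℂ KK (c i) * (z i / z i0) ^ n =
        (∑ i, algebraMap ℂ KK (c i) * z i ^ n) / z i0 ^ n := by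
      rw [Finset.sum_div]
      exact Finset.sum_congr rfl fun i _ => by rw [div_pow]; ring
    rw [h4, h1, zero_div]
    rfl
  have h3 := congrArg δ h2
  rw [map_sum, map_zero] at h3
  have h4 : ∑ i, c i • ((n : ℂ) • (rt z i i0 ^ n * ld δ i i0)) = 0 := by
    rw [← h3]
    refine Finset.sum_congr rfl fun i _ => ?_
    rw [Derivation.map_smul, Derivation.leibniz_pow, ld_mul δ hz0]
    congr 1
    obtain ⟨n', rfl⟩ : ∃ n', n = n' + 1 := ⟨n - 1, by omega⟩
    rw [Nat.add_sub_cancel, smul_eq_mul, pow_succ, ← mul_assoc]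
    rw [← Nat.cast_smul_eq_nsmul ℂ]
  have h5 := congrArg (Subtype.val) h4
  have h6 : ((∑ i, c i • ((n : ℂ) • (rt z i i0 ^ n * ld δ i i0)) : ratioAlg z Set.univ) : KK) =
      ∑ i, algebraMap ℂ KK (c i) * (algebraMap ℂ KK n * ((z i / z i0) ^ n * (ld δ i i0 : KK))) := by
    rw [AddSubmonoidClass.coe_finsetSum]
    refine Finset.sum_congr rfl fun i _ => ?_
    rw [← Algebra.smul_def, ← Algebra.smul_def]
    rfl
  rw [h6] at h5
  have h7 : ∑ i, algebraMap ℂ KK (c i) * (algebraMap ℂ KK n * ((z i / z i0) ^ n *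
      (ld δ i i0 : KK))) = (algebraMap ℂ KK n / z i0 ^ n) *
      ∑ i, algebraMap R3 KK (C (c i)) * (algebraMap R3 KK (T.L i) * (ld δ i i0 : KK)) := by
    rw [Finset.mul_sum]
    refine Finset.sum_congr rfl fun i _ => ?_
    rw [hcC, ← hz, div_pow]; ring
  rw [h7] at h5
  have h8 : algebraMap ℂ KK n / z i0 ^ n ≠ 0 := by
    apply div_ne_zero
    · rw [Ne, map_eq_zero_iff _ (algebraMap ℂ KK).injective]
      exact_mod_cast hn.ne'
    · exact pow_ne_zero _ (hz0 i0)
  exact (mul_eq_zero.mp h5).resolve_left h8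

theorem ld_ord (hz0 : ∀ i, z i ≠ 0)
    (δ : Derivation ℂ (ratioAlg z Set.univ) (ratioAlg z Set.univ)) {D D' D'' : Crv k r}
    (h : T.meet D D') (h' : T.meet D D'') (hne : D' ≠ D'')
    (hδ : Preserves δ (ratioAlg z (T.chart D D') ⊔ ratioAlg z (T.chart D D''))) (i j : Fin k) :
    (ld δ i j : KK) ∈ Submodule.span ℂ (zm z '' {e | ∑ i, e i = 0 ∧
      -((if T.val D i = T.val D j then 0 else 1 : ℕ) : ℤ) ≤ T.ord D e}) := by
  have main : ∀ i j, T.val D j ≤ T.val D i → (ld δ i j : KK) ∈ Submodule.span ℂ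
      (zm z '' {e | ∑ i, e i = 0 ∧
      -((if T.val D i = T.val D j then 0 else 1 : ℕ) : ℤ) ≤ T.ord D e}) := by
    intro i j hv
    by_cases hij : i = j
    · subst hij
      rw [ld_self δ hz0]; exact zero_mem _
    have h1 := chart_union T h h' hne hij hv
    rw [ratioAlg_sup] at hδ
    have h2 := hδ (rt z i j) (ratio_mem h1)
    have h3 := ratioAlg_le_span hz0 (T.Mon D) (fun ab hab => by
      refine ⟨sum_rv _ _, ?_⟩
      rw [ord_rv]
      rcases hab with hab | hab
      · have := T.chart_val h hab; omega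
      · have := T.chart_val h' hab; omega) h2
    have h4 : (ld δ i j : KK) = (δ (rt z i j) : KK) * zm z (rv j i) := by
      rw [zm_rv hz0]; rfl
    rw [h4]
    generalize (δ (rt z i j) : KK) = x at h3
    induction h3 using Submodule.span_induction with
    | mem x hx =>
      obtain ⟨e, he, rfl⟩ := hx
      obtain ⟨he1, he2⟩ : ∑ i, e i = 0 ∧ 0 ≤ T.ord D e := he
      rw [← zm_add hz0]
      refine Submodule.subset_span ⟨_, ⟨?_, ?_⟩, rfl⟩
      · simp only [Pi.add_apply, Finset.sum_add_distrib, he1, sum_rv, add_zero]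
      · rw [ord_add, ord_rv]
        have h5 := T.val_le_one D i
        split_ifs with h6
        · rw [h6]; simpa using he2
        · push_cast; omega
    | zero => rw [zero_mul]; exact zero_mem _
    | add x y _ _ hx hy => rw [add_mul]; exact add_mem hx hy
    | smul a x _ hx => rw [smul_mul_assoc]; exact Submodule.smul_mem _ _ hx
  rcases le_total (T.val D j) (T.val D i) with hv | hv
  · exact main i j hv
  · have h1 := main j i hv
    rw [ld_symm δ hz0 i j] at h1
    have h2 := Submodule.neg_mem _ h1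
    have h3 : -((-ld δ i j : ratioAlg z Set.univ) : KK) = (ld δ i j : KK) := by
      push_cast; ring
    rw [h3] at h2
    have h4 : (T.val D i = T.val D j) ↔ (T.val D j = T.val D i) := eq_comm
    simp only [h4]
    exact h2

end TConf

end

end Pool.Agent.H94_hk
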