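import Pool.Agent.H94_hk.Bridge

/-!
# Solvability of the polynomial equations implies vanishing of the first cohomology
-/

namespace Pool.Agent.H94_hk

open MvPolynomial

noncomputable section

namespace TConf

variable {k r : ℕ} {T : TConf k r} {z : Fin k → KK} {n : ℕ}

theorem d_le {a : Fin k → ℕ} (ha : ∀ i, a i < n) {d : ℕ} (hd : ∑ i, a i = d * n) (hn : 0 < n) :
    d ≤ k := by
  have h1 : ∑ i, a i ≤ ∑ _i : Fin k, n := Finset.sum_le_sum fun i _ => (ha i).le
  rw [Finset.sum_const, Finset.card_univ, Fintype.card_fin, smul_eq_mul, hd] at h1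
  exact Nat.le_of_mul_le_mul_right h1 hn

/-- Simultaneous expansion of the cocycle and solution of the equations. -/
theorem exists_sol (hn : 0 < n) (hs : T.Solvable n)
    (hz : ∀ i, z i ^ n = algebraMap R3 KK (T.L i)) (hz0 : ∀ i, z i ≠ 0)
    (g : Crv k r → Crv k r → Fin k → KK) (hg : ∀ D D' i, g D D' i ∈ ratioAlg z Set.univ)
    (hsym : ∀ D D', T.meet D D' → g D D' = g D' D)
    (hrel : ∀ D D' (c : Fin k → ℂ), ∑ i, c i • T.f i = 0 →
      ∑ i, algebraMap R3 KK (C (c i)) * (algebraMap R3 KK (T.L i) * g D D' i) = 0)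
    (hord : ∀ D D' D'' i j, T.meet D D' → T.meet D D'' →
      (g D D' i - g D D' j) - (g D D'' i - g D D'' j) ∈ Submodule.span ℂ
        (zm z '' {e | ∑ i, e i = 0 ∧
          -((if T.val D i = T.val D j then 0 else 1 : ℕ) : ℤ) ≤ T.ord D e})) :
    ∃ N, 1 ≤ N ∧ ∃ (G : Crv k r → Crv k r → Fin k → (Fin k → Fin n) → R3)
      (P : Fin k → (Fin k → Fin n) → R3),
      (∀ D D' i, T.HasExp z n N (g D D' i) (G D D' i)) ∧
      (∀ D D' i a, G D D' i a ∈ Mhom k n N a) ∧
      (∀ a : Fin k → Fin n, ¬ n ∣ ∑ i, (a i : ℕ) → (∀ D D' i, G D D' i a = 0) ∧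
        ∀ i, P i a = 0) ∧
      ∀ (a : Fin k → Fin n) (d : ℕ), ∑ i, (a i : ℕ) = d * n →
        T.GSol n N d (fun i => (a i : ℕ)) (fun D D' i => G D D' i a) (fun i => P i a) := by
  have h1 : ∀ x : Crv k r × Crv k r × Fin k, ∃ N0, ∀ N ≥ N0, ∃ P,
      T.HasExp z n N (g x.1 x.2.1 x.2.2) P ∧ ∀ a, P a ∈ Mhom k n N a :=
    fun x => exp_hom hn hz hz0 (hg _ _ _)
  have h2 : ∀ x : (Crv k r × Crv k r × Crv k r) × (Fin k × Fin k), ∃ N0, ∀ N ≥ N0,
      T.meet x.1.1 x.1.2.1 → T.meet x.1.1 x.1.2.2 → ∃ P,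
      T.HasExp z n N ((g x.1.1 x.1.2.1 x.2.1 - g x.1.1 x.1.2.1 x.2.2) -
        (g x.1.1 x.1.2.2 x.2.1 - g x.1.1 x.1.2.2 x.2.2)) P ∧
      ∀ a : Fin k → Fin n, P a ∈ T.J x.1.1 (T.gb n N (fun i => (a i : ℕ)) x.2.1 x.2.2 x.1.1) := by
    intro x
    by_cases hm : T.meet x.1.1 x.1.2.1 ∧ T.meet x.1.1 x.1.2.2
    · obtain ⟨N0, hN0⟩ := exp_ord hn hz hz0 _ _ (hord x.1.1 x.1.2.1 x.1.2.2 x.2.1 x.2.2 hm.1 hm.2)
      exact ⟨N0, fun N hN _ _ => hN0 N hN⟩
    · exact ⟨0, fun N _ h h' => absurd ⟨h, h'⟩ hm⟩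
  have h3 : ∀ a : Fin k → Fin n, ∃ N0, ∀ N ≥ N0, ∀ d, ∑ i, (a i : ℕ) = d * n →
      ∀ G : Crv k r → Crv k r → Fin k → R3, T.GData n N d (fun i => (a i : ℕ)) G →
        ∃ P, T.GSol n N d (fun i => (a i : ℕ)) G P := by
    intro a
    by_cases hd : n ∣ ∑ i, (a i : ℕ)
    · obtain ⟨d, hd⟩ := hd
      obtain ⟨N0, hN0⟩ := hs (fun i => (a i : ℕ)) (fun i => (a i).2) d (by rw [hd, mul_comm])
      refine ⟨N0, fun N hN d' hd' => ?_⟩
      have h4 : d' = d := by
        rw [hd, mul_comm] at hd'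
        exact (Nat.eq_of_mul_eq_mul_right hn hd').symm
      subst h4
      exact hN0 N hN
    · exact ⟨0, fun N _ d hd' => absurd (Dvd.intro_left d hd'.symm) hd⟩
  choose N1 hN1 using h1
  choose N2 hN2 using h2
  choose N3 hN3 using h3
  set N := 1 + ∑ x, N1 x + ∑ x, N2 x + ∑ a, N3 a with hN
  have le1 : ∀ x, N1 x ≤ N := by
    intro x
    have := Finset.single_le_sum (f := N1) (fun _ _ => Nat.zero_le _) (Finset.mem_univ x)
    omega
  have le2 : ∀ x, N2 x ≤ N := by
    intro x
    have := Finset.single_le_sum (f := N2) (fun _ _ => Nat.zero_le _) (Finset.mem_univ x)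
    omega
  have le3 : ∀ a, N3 a ≤ N := by
    intro a
    have := Finset.single_le_sum (f := N3) (fun _ _ => Nat.zero_le _) (Finset.mem_univ a)
    omega
  have h4 := fun x => hN1 x N (le1 x)
  choose G0 hG0 hG0' using h4
  let G : Crv k r → Crv k r → Fin k → (Fin k → Fin n) → R3 := fun D D' i => G0 (D, D', i)
  have hG : ∀ D D' i, T.HasExp z n N (g D D' i) (G D D' i) := fun D D' i => hG0 (D, D', i)
  have hG' : ∀ D D' i a, G D D' i a ∈ Mhom k n N a := fun D D' i => hG0' (D, D', i)
  have hsol : ∀ a : Fin k → Fin n, ∃ P : Fin k → R3, (¬ n ∣ ∑ i, (a i : ℕ) → ∀ i, P i = 0) ∧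
      ∀ d, ∑ i, (a i : ℕ) = d * n →
        T.GSol n N d (fun i => (a i : ℕ)) (fun D D' i => G D D' i a) P := by
    intro a
    by_cases hd : n ∣ ∑ i, (a i : ℕ)
    · obtain ⟨d, hd1⟩ := hd
      have hd2 : ∑ i, (a i : ℕ) = d * n := by rw [hd1, mul_comm]
      have hdiv : (∑ i, (a i : ℕ)) / n = d := by rw [hd1, Nat.mul_div_cancel_left _ hn]
      obtain ⟨P, hP⟩ := hN3 a N (le3 a) d hd2 (fun D D' i => G D D' i a) {
        sym := by
          intro D D' hm
          funext i
          have h5 := hG D D' i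
          rw [hsym D D' hm] at h5
          exact congrFun (h5.unique hn hz (hG D' D i)) a
        hom := by
          intro D D' i
          have h5 := hG' D D' i a
          rw [Mhom, if_pos ⟨d, hd1⟩, mem_homogeneousSubmodule, hdiv] at h5
          exact h5
        rel := by
          intro D D' c hc
          have h5 := HasExp.sum Finset.univ (fun i (_ : i ∈ Finset.univ) =>
            ((hG D D' i).mul (T.L i)).mul (C (c i)))
          rw [hrel D D' c hc] at h5
          exact congrFun (h5.unique hn hz HasExp.zero) a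
        ord := by
          intro D D' D'' i j hm hm'
          obtain ⟨P, hP, hP'⟩ := hN2 ((D, D', D''), (i, j)) N (le2 _) hm hm'
          have h5 := ((hG D D' i).sub (hG D D' j)).sub ((hG D D'' i).sub (hG D D'' j))
          have h6 := congrFun (h5.unique hn hz hP) a
          change (G D D' i a - G D D' j a) - (G D D'' i a - G D D'' j a) ∈ _
          rw [h6]
          exact hP' a }
      refine ⟨P, fun h => absurd ⟨d, hd1⟩ h, fun d' hd' => ?_⟩
      have h4 : d' = d := by
        rw [hd2] at hd'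
        exact (Nat.eq_of_mul_eq_mul_right hn hd').symm
      rw [h4]
      exact hP
    · exact ⟨fun _ => 0, fun _ _ => rfl, fun d hd' => absurd (Dvd.intro_left d hd'.symm) hd⟩
  choose P hP0 hP using hsol
  refine ⟨N, by omega, G, fun i a => P a i, hG, hG', fun a ha => ⟨fun D D' i => ?_, hP0 a ha⟩,
    fun a d hd => hP a d hd⟩
  have h5 := hG' D D' i a
  rw [Mhom, if_neg ha] at h5
  exact h5

/-- The derivation attached to a solution. -/
theorem Full.exists_theta (hT : T.Full) (hn : 0 < n)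
    (hz : ∀ i, z i ^ n = algebraMap R3 KK (T.L i)) (hz0 : ∀ i, z i ≠ 0)
    (π : Fin k → KK) (hπ : ∀ i, π i ∈ ratioAlg z Set.univ)
    (hrel : ∀ c : Fin k → ℂ, ∑ i, c i • T.f i = 0 →
      ∑ i, algebraMap ℂ KK (c i) * (algebraMap R3 KK (T.L i) * π i) = 0) :
    ∃ δ : Derivation ℂ (ratioAlg z Set.univ) (ratioAlg z Set.univ),
      ∀ i j, (δ (rt z i j) : KK) = z i / z j * (π i - π j) := by
  have hcC : ∀ x : ℂ, algebraMap R3 KK (C x) = algebraMap ℂ KK x := by
    intro x
    have h4 : (C x : R3) = algebraMap ℂ R3 x := rfl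
    rw [h4, ← IsScalarTower.algebraMap_apply ℂ R3 KK]
  obtain ⟨c, hc⟩ := hT.exists_coef
  obtain ⟨D, hD⟩ := exists_derivation (fun j => (n : KK) *
    ∑ l, algebraMap ℂ KK (c j l) * (algebraMap R3 KK (T.L l) * π l))
  have hDL : ∀ i, D (algebraMap R3 KK (T.L i)) = n * (algebraMap R3 KK (T.L i) * π i) := by
    intro i
    have h1 : algebraMap R3 KK (T.L i) = ∑ j, T.f i j • algebraMap R3 KK (X j) := by
      rw [L, lin, map_sum]
      refine Finset.sum_congr rfl fun j _ => ?_
      rw [map_mul, hcC, Algebra.smul_def]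
    have h2 := hrel (fun l => (Pi.single i 1 : Fin k → ℂ) l - ∑ j, T.f i j * c j l) (by
      simp only [sub_smul, Finset.sum_sub_distrib]
      have h3 : ∑ l, (Pi.single i 1 : Fin k → ℂ) l • T.f l = T.f i := by
        rw [Finset.sum_eq_single i]
        · simp
        · intro l _ hl
          rw [Pi.single_eq_of_ne hl, zero_smul]
        · intro h; exact absurd (Finset.mem_univ i) h
      have h4 : ∑ l, (∑ j, T.f i j * c j l) • T.f l = T.f i := by
        have h5 : T.f i = ∑ j, T.f i j • (Pi.single j 1 : Fin 3 → ℂ) := by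
          funext m
          simp [Finset.sum_apply, Pi.single_apply]
        conv_rhs => rw [h5]
        simp only [Finset.sum_smul]
        rw [Finset.sum_comm]
        refine Finset.sum_congr rfl fun j _ => ?_
        rw [hc j, Finset.smul_sum]
        exact Finset.sum_congr rfl fun l _ => by rw [mul_smul]
      rw [h3, h4, sub_self])
    have h3 : ∑ l, algebraMap ℂ KK ((Pi.single i 1 : Fin k → ℂ) l - ∑ j, T.f i j * c j l) *
        (algebraMap R3 KK (T.L l) * π l) = algebraMap R3 KK (T.L i) * π i -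
        ∑ j, T.f i j • ∑ l, algebraMap ℂ KK (c j l) * (algebraMap R3 KK (T.L l) * π l) := by
      simp only [map_sub, sub_mul, Finset.sum_sub_distrib]
      congr 1
      · rw [Finset.sum_eq_single i]
        · simp
        · intro l _ hl
          rw [Pi.single_eq_of_ne hl, map_zero, zero_mul]
        · intro h; exact absurd (Finset.mem_univ i) h
      · simp only [map_sum, Finset.sum_mul, Finset.smul_sum]
        rw [Finset.sum_comm]
        refine Finset.sum_congr rfl fun j _ => Finset.sum_congr rfl fun l _ => ?_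
        rw [Algebra.smul_def, map_mul]; ring
    rw [h3, sub_eq_zero] at h2
    rw [h2, h1, map_sum, Finset.mul_sum]
    refine Finset.sum_congr rfl fun j _ => ?_
    rw [Derivation.map_smul, hD, Algebra.smul_def, Algebra.smul_def]
    ring
  have hDz : ∀ i, D (z i) = z i * π i := by
    intro i
    have h1 := hDL i
    rw [← hz, Derivation.leibniz_pow, nsmul_eq_mul, smul_eq_mul] at h1
    have h2 : (n : KK) ≠ 0 := by exact_mod_cast hn.ne'
    have h3 := mul_left_cancel₀ h2 h1
    apply mul_left_cancel₀ (pow_ne_zero (n - 1) (hz0 i))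
    rw [h3, ← mul_assoc, ← pow_succ]
    congr 2
    omega
  have hDr : ∀ i j, D (z i / z j) = z i / z j * (π i - π j) := by
    intro i j
    have h1 : z i / z j * z j = z i := div_mul_cancel₀ _ (hz0 j)
    have h2 := congrArg D h1
    rw [Derivation.leibniz, hDz, hDz, smul_eq_mul, smul_eq_mul] at h2
    apply mul_right_cancel₀ (hz0 j)
    generalize z i / z j = w at h1 h2 ⊢
    linear_combination h2 - π i * h1
  have hDA : ∀ x ∈ Subalgebra.toSubmodule (ratioAlg z Set.univ),
      (D : KK →ₗ[ℂ] KK) x ∈ Subalgebra.toSubmodule (ratioAlg z Set.univ) := by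
    intro x hx
    change x ∈ ratioAlg z Set.univ at hx
    change D x ∈ ratioAlg z Set.univ
    rw [ratioAlg] at hx
    induction hx using Algebra.adjoin_induction with
    | mem x hx =>
      obtain ⟨ab, _, rfl⟩ := hx
      rw [hDr]
      exact Subalgebra.mul_mem _ (ratio_mem (Set.mem_univ _)) (Subalgebra.sub_mem _ (hπ _) (hπ _))
    | algebraMap c => rw [Derivation.map_algebraMap]; exact Subalgebra.zero_mem _
    | add x y _ _ hx hy => rw [map_add]; exact Subalgebra.add_mem _ hx hy
    | mul x y hx' hy' hx hy =>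
      rw [Derivation.leibniz, smul_eq_mul, smul_eq_mul]
      exact Subalgebra.add_mem _ (Subalgebra.mul_mem _ hx' hy) (Subalgebra.mul_mem _ hy' hx)
  refine ⟨Derivation.mk' ((D : KK →ₗ[ℂ] KK).restrict hDA) ?_, fun i j => ?_⟩
  · intro x y
    apply Subtype.ext
    change D ((x : KK) * (y : KK)) = (x : KK) * D (y : KK) + (y : KK) * D (x : KK)
    rw [Derivation.leibniz, smul_eq_mul, smul_eq_mul]
  · exact hDr i j

/-- A derivation preserves a ratio algebra if it maps the generators into it. -/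
theorem preserves_of (δ : Derivation ℂ (ratioAlg z Set.univ) (ratioAlg z Set.univ))
    {R : Set (Fin k × Fin k)} (h : ∀ i j, (i, j) ∈ R → (δ (rt z i j) : KK) ∈ ratioAlg z R) :
    Preserves δ (ratioAlg z R) := by
  intro f hf
  have key : ∀ x ∈ ratioAlg z R, ∀ hx : x ∈ ratioAlg z Set.univ,
      (δ ⟨x, hx⟩ : KK) ∈ ratioAlg z R := by
    intro x hx
    rw [ratioAlg] at hx
    induction hx using Algebra.adjoin_induction with
    | mem x hx =>
      obtain ⟨ab, hab, rfl⟩ := hx
      intro hx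
      exact h ab.1 ab.2 hab
    | algebraMap c =>
      intro hx
      have h1 : (⟨algebraMap ℂ KK c, hx⟩ : ratioAlg z Set.univ) =
        algebraMap ℂ (ratioAlg z Set.univ) c := rfl
      rw [h1, Derivation.map_algebraMap]; exact Subalgebra.zero_mem _
    | add x y hx' hy' hx hy =>
      intro hxy
      have mx : x ∈ ratioAlg z Set.univ := ratioAlg_mono (Set.subset_univ R) hx'
      have my : y ∈ ratioAlg z Set.univ := ratioAlg_mono (Set.subset_univ R) hy'
      have h1 : (⟨x + y, hxy⟩ : ratioAlg z Set.univ) = ⟨x, mx⟩ + ⟨y, my⟩ := rfl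
      rw [h1, map_add]
      exact Subalgebra.add_mem _ (hx mx) (hy my)
    | mul x y hx' hy' hx hy =>
      intro hxy
      have mx : x ∈ ratioAlg z Set.univ := ratioAlg_mono (Set.subset_univ R) hx'
      have my : y ∈ ratioAlg z Set.univ := ratioAlg_mono (Set.subset_univ R) hy'
      have h1 : (⟨x * y, hxy⟩ : ratioAlg z Set.univ) = ⟨x, mx⟩ * ⟨y, my⟩ := rfl
      rw [h1, Derivation.leibniz, smul_eq_mul, smul_eq_mul]
      exact Subalgebra.add_mem _ (Subalgebra.mul_mem _ hx' (hy my))
        (Subalgebra.mul_mem _ hy' (hx mx))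
  exact key f hf f.2

end TConf

end

end Pool.Agent.H94_hk
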