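import Pool.Agent.H94_hk.Exp

/-!
# Classification of the charts, and regular functions on the charts
-/

namespace Pool.Agent.H94_hk

open MvPolynomial

noncomputable section

namespace TConf

variable {k r : ℕ} {T : TConf k r}

theorem vec_eq {i : Fin k} {p : Fin 3 → ℂ} (h : T.f i ⬝ᵥ p = 0) : p =
    (T.du i ⬝ᵥ p) • T.pa i + (T.dv i ⬝ᵥ p) • T.pb i := by
  funext j
  have h1 := congrArg (fun v => v ⬝ᵥ p) (T.decomp i j)
  simp only [add_dotProduct, smul_dotProduct, single_dotProduct, one_mul, smul_eq_mul] at h1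
  rw [h] at h1
  rw [h1]
  simp only [Pi.add_apply, Pi.smul_apply, smul_eq_mul]
  ring

theorem pt_param {i j : Fin k} (hij : i ≠ j) {p : Fin 3 → ℂ} (hp : p ≠ 0)
    (hi : T.f i ⬝ᵥ p = 0) (hj : T.f j ⬝ᵥ p = 0) : T.du i ⬝ᵥ p ≠ 0 ∧
      ∀ v : Fin 3 → ℂ, v ⬝ᵥ p = 0 ↔ v ⬝ᵥ T.pa i + T.tj i j * (v ⬝ᵥ T.pb i) = 0 := by
  have h1 := vec_eq hi
  have h2 := T.fjb i j hij
  have h3 : T.dv i ⬝ᵥ p = T.tj i j * (T.du i ⬝ᵥ p) := by
    rw [h1, dotProduct_add, dotProduct_smul, dotProduct_smul, smul_eq_mul, smul_eq_mul] at hj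
    rw [tj]
    field_simp
    linear_combination hj
  have h4 : T.du i ⬝ᵥ p ≠ 0 := by
    intro h0
    rw [h0, mul_zero] at h3
    apply hp
    rw [h1, h0, h3]
    simp
  refine ⟨h4, fun v => ?_⟩
  have h5 : v ⬝ᵥ p = (T.du i ⬝ᵥ p) * (v ⬝ᵥ T.pa i + T.tj i j * (v ⬝ᵥ T.pb i)) := by
    conv_lhs => rw [h1]
    rw [dotProduct_add, dotProduct_smul, dotProduct_smul, smul_eq_mul, smul_eq_mul, h3]
    ring
  rw [h5, mul_eq_zero]
  exact ⟨fun h => h.resolve_left h4, Or.inr⟩

theorem through_tri {i j : Fin k} {q : Fin r} (hij : i ≠ j) (hiq : i ∈ T.tri q)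
    (hjq : j ∈ T.tri q) {p : Fin 3 → ℂ} (hp : p ≠ 0)
    (hi : T.f i ⬝ᵥ p = 0) (hj : T.f j ⬝ᵥ p = 0) (l : Fin k) : T.f l ⬝ᵥ p = 0 ↔ l ∈ T.tri q := by
  have hq0 : T.pt q ≠ 0 := by
    intro h0
    apply T.du_pt i q hiq
    rw [h0, dotProduct_zero]
  rw [(pt_param hij hp hi hj).2, ← (pt_param hij hq0 ((T.mem_tri i q).mp hiq)
    ((T.mem_tri j q).mp hjq)).2, T.mem_tri]

theorem through_dbl (hok : T.Ok) {i j : Fin k} (hd : T.dbl i j) {p : Fin 3 → ℂ} (hp : p ≠ 0)
    (hi : T.f i ⬝ᵥ p = 0) (hj : T.f j ⬝ᵥ p = 0) (l : Fin k) :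
    T.f l ⬝ᵥ p = 0 ↔ (l = i ∨ l = j) := by
  constructor
  · intro hl
    by_cases hli : l = i
    · exact Or.inl hli
    right
    have h1 := ((pt_param hd.1 hp hi hj).2 (T.f l)).mp hl
    have h2 := T.fjb i l (Ne.symm hli)
    have h3 : T.tj i l = T.tj i j := by
      conv_lhs => rw [tj]
      rw [div_eq_iff h2]
      linear_combination -h1
    rw [T.tj_eq_tn (Ne.symm hli)] at h3
    have h4 := hok.good i (T.nd i l) (Sum.inl j) (T.mem_nodes.mp (T.nd_mem (Ne.symm hli))) hd h3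
    rcases T.dbl_or (Ne.symm hli) with h5 | ⟨q, h5, h6⟩
    · rw [T.nd_inl h5] at h4
      exact Sum.inl_injective h4
    · rw [T.nd_inr (Ne.symm hli) h5 h6] at h4
      exact absurd h4 Sum.inr_ne_inl
  · rintro (rfl | rfl)
    · exact hi
    · exact hj

theorem Full.isChart_iff (hT : T.Full) {𝒞 : Config k} (h𝒞 : 𝒞.form = T.f)
    {R : Set (Fin k × Fin k)} : 𝒞.IsChart R ↔ ∃ D D', T.meet D D' ∧ R = T.chart D D' := by
  have hth : ∀ p, 𝒞.through p = {i | T.f i ⬝ᵥ p = 0} := by
    intro p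
    rw [Config.through, h𝒞]
  constructor
  · rintro (⟨p, hp, hcard, rfl⟩ | ⟨p, i, hp, hcard, hi, rfl⟩)
    · obtain ⟨i, j, hij, hset⟩ := Set.ncard_eq_two.mp hcard
      have hi : T.f i ⬝ᵥ p = 0 := by
        have : i ∈ 𝒞.through p := by rw [hset]; simp
        rw [hth] at this
        exact this
      have hj : T.f j ⬝ᵥ p = 0 := by
        have : j ∈ 𝒞.through p := by rw [hset]; simp
        rw [hth] at this
        exact this
      rcases T.dbl_or hij with hd | ⟨q, hiq, hjq⟩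
      · refine ⟨Sum.inl i, Sum.inl j, hd, ?_⟩
        rw [hset]
        ext ab
        simp [chart]
      · exfalso
        have h1 : 𝒞.through p = (T.tri q : Set (Fin k)) := by
          rw [hth]
          ext l
          exact through_tri hij hiq hjq hp hi hj l
        rw [h1, Set.ncard_coe_finset] at hcard
        have := hT.three q
        omega
    · have hi' : T.f i ⬝ᵥ p = 0 := by
        rw [hth] at hi
        exact hi
      have h2 : ∃ j ∈ 𝒞.through p, j ≠ i := by
        have hfin : (𝒞.through p).Finite := Set.toFinite _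
        exact Set.exists_ne_of_one_lt_ncard (by omega) i
      obtain ⟨j, hj, hji⟩ := h2
      have hj' : T.f j ⬝ᵥ p = 0 := by
        rw [hth] at hj
        exact hj
      rcases T.dbl_or (Ne.symm hji) with hd | ⟨q, hiq, hjq⟩
      · exfalso
        have h1 : 𝒞.through p = {i, j} := by
          rw [hth]
          ext l
          exact through_dbl hT.ok hd hp hi' hj' l
        rw [h1, Set.ncard_pair (Ne.symm hji)] at hcard
        omega
      · have h1 : 𝒞.through p = (T.tri q : Set (Fin k)) := by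
          rw [hth]
          ext l
          exact through_tri (Ne.symm hji) hiq hjq hp hi' hj' l
        refine ⟨Sum.inl i, Sum.inr q, hiq, ?_⟩
        rw [h1]
        rfl
  · have main : ∀ (i : Fin k) (q : Fin r), i ∈ T.tri q →
        𝒞.IsChart (T.chart (Sum.inl i) (Sum.inr q)) := by
      intro i q hi
      right
      have h1 : 𝒞.through (T.pt q) = (T.tri q : Set (Fin k)) := by
        rw [hth]
        ext l
        exact (T.mem_tri l q).symm
      refine ⟨T.pt q, i, ?_, ?_, ?_, ?_⟩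
      · intro h0
        apply T.du_pt i q hi
        rw [h0, dotProduct_zero]
      · rw [h1, Set.ncard_coe_finset]
        exact hT.three q
      · rw [h1]; exact hi
      · rw [h1]; rfl
    rintro ⟨D, D', hm, rfl⟩
    rcases D with i | q <;> rcases D' with j | q'
    · left
      have hd : T.dbl i j := hm
      have h2 := T.fjb i j hd.1
      set p := T.pa i + T.tj i j • T.pb i with hpdef
      have hp1 : T.du i ⬝ᵥ p = 1 := by
        rw [hpdef, dotProduct_add, dotProduct_smul, T.ua, T.ub]; simp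
      have hp : p ≠ 0 := by
        intro h0
        rw [h0, dotProduct_zero] at hp1
        exact zero_ne_one hp1
      have hi : T.f i ⬝ᵥ p = 0 := by
        rw [hpdef, dotProduct_add, dotProduct_smul, T.fa, T.fb]; simp
      have hj : T.f j ⬝ᵥ p = 0 := by
        rw [hpdef, dotProduct_add, dotProduct_smul, smul_eq_mul, tj, div_mul_cancel₀ _ h2]
        ring
      have h1 : 𝒞.through p = {i, j} := by
        rw [hth]
        ext l
        exact through_dbl hT.ok hd hp hi hj l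
      refine ⟨p, hp, ?_, ?_⟩
      · rw [h1]
        exact Set.ncard_pair hd.1
      · rw [h1]
        ext ab
        simp [chart]
    · exact main i q' hm
    · rw [T.chart_symm]
      exact main j q hm
    · exact absurd hm id

variable {z : Fin k → KK} {n : ℕ}

theorem alg_Lm (hz : ∀ i, z i ^ n = algebraMap R3 KK (T.L i)) (m : Fin k → ℕ) :
    algebraMap R3 KK (T.Lm m) = zm z (fun i => (n : ℤ) * m i) := by
  rw [Lm, zm, map_prod]
  refine Finset.prod_congr rfl fun i _ => ?_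
  rw [map_pow, ← hz, ← pow_mul, ← zpow_natCast]
  push_cast
  rfl

theorem alg_Q (hz : ∀ i, z i ^ n = algebraMap R3 KK (T.L i)) (N : ℕ) :
    algebraMap R3 KK ((∏ i, T.L i) ^ N) = zm z (fun _ => (n : ℤ) * N) := by
  have h := alg_Lm (T := T) hz (fun _ => N)
  rw [← h, Lm, Finset.prod_pow]

theorem prod_zm (a : Fin k → ℕ) : ∏ i, z i ^ a i = zm z (fun i => (a i : ℤ)) := by
  rw [zm]
  exact Finset.prod_congr rfl fun i _ => (zpow_natCast _ _).symm

theorem W_zm (hz : ∀ i, z i ^ n = algebraMap R3 KK (T.L i)) (hz0 : ∀ i, z i ≠ 0)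
    {c : Crv k r → ℕ} {t : ℕ} {P : R3} (hP : P ∈ T.W c t) (e : Fin k → ℤ)
    (B : Subalgebra ℂ KK) (h : ∀ m : Fin k → ℕ, ∑ i, m i = t → (∀ D, c D ≤ T.ordN D m) →
      zm z ((fun i => (n : ℤ) * m i) + e) ∈ B) : algebraMap R3 KK P * zm z e ∈ B := by
  rw [W] at hP
  induction hP using Submodule.span_induction with
  | mem x hx =>
    obtain ⟨m, ⟨hm1, hm2⟩, rfl⟩ := hx
    rw [alg_Lm hz, ← zm_add hz0]
    exact h m hm1 hm2
  | zero => rw [map_zero, zero_mul]; exact B.zero_mem
  | add x y _ _ hx hy => rw [map_add, add_mul]; exact B.add_mem hx hy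
  | smul a x _ hx =>
    have h4 : algebraMap R3 KK (a • x) = a • algebraMap R3 KK x := by
      rw [Algebra.smul_def, map_mul, ← IsScalarTower.algebraMap_apply ℂ R3 KK, ← Algebra.smul_def]
    rw [h4, smul_mul_assoc]
    exact B.smul_mem hx a

theorem ord_natCast (D : Crv k r) (m : Fin k → ℕ) : T.ord D (fun i => (m i : ℤ)) =
    (T.ordN D m : ℤ) := by
  rw [ord, ordN]; push_cast; rfl

theorem ord_smul (D : Crv k r) (c : ℤ) (e : Fin k → ℤ) : T.ord D (fun i => c * e i) =
    c * T.ord D e := by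
  rw [ord, ord, Finset.mul_sum]
  exact Finset.sum_congr rfl fun i _ => by ring

theorem ord_const (D : Crv k r) (c : ℤ) : T.ord D (fun _ => c) = c * T.sz D := by
  rw [ord, sz]; push_cast
  rw [Finset.mul_sum]
  exact Finset.sum_congr rfl fun i _ => by ring

/-- The order bound for the pair `i, j` along the curve `D`. -/
def gb (T : TConf k r) (n N : ℕ) (a : Fin k → ℕ) (i j : Fin k) (D : Crv k r) : ℕ :=
  T.sz D * N - (T.ordN D a + (if T.val D i = T.val D j then 0 else 1)) / n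

theorem val_le_one (D : Crv k r) (i : Fin k) : T.val D i ≤ 1 := by
  rcases D with j | q <;> simp only [val] <;> split_ifs <;> omega

theorem Full.suf (hT : T.Full) (hz : ∀ i, z i ^ n = algebraMap R3 KK (T.L i))
    (hz0 : ∀ i, z i ≠ 0) {D D' : Crv k r} (h : T.meet D D') {i j : Fin k}
    (hv : T.val D j ≤ T.val D i) (hv' : T.val D' j ≤ T.val D' i) {a : Fin k → ℕ} {d N : ℕ}
    (hd : ∑ i, a i = d * n) (hdN : d ≤ k * N) {P : R3} (hP : P.IsHomogeneous (k * N - d))
    (h1 : P ∈ T.J D (T.gb n N a i j D)) (h2 : P ∈ T.J D' (T.gb n N a i j D')) :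
    algebraMap R3 KK P * (∏ i, z i ^ a i) * (z i / z j) /
      algebraMap R3 KK ((∏ i, T.L i) ^ N) ∈ ratioAlg z (T.chart D D') := by
  have hW := hT.adapted h hP h1 h2
  set e : Fin k → ℤ := (fun i => (a i : ℤ)) + rv i j + (fun _ => -((n : ℤ) * N)) with he
  have h3 : algebraMap R3 KK P * (∏ i, z i ^ a i) * (z i / z j) /
      algebraMap R3 KK ((∏ i, T.L i) ^ N) = algebraMap R3 KK P * zm z e := by
    rw [he, zm_add hz0, zm_add hz0, zm_rv hz0, alg_Q hz, prod_zm]
    have h4 : zm z (fun _ => -((n : ℤ) * N)) = (zm z (fun _ => (n : ℤ) * N))⁻¹ := by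
      rw [zm, zm, ← Finset.prod_inv_distrib]
      exact Finset.prod_congr rfl fun i _ => zpow_neg _ _
    rw [h4]
    ring
  rw [h3]
  refine W_zm hz hz0 hW e _ fun m hm1 hm2 => ?_
  have key : ∀ E : Crv k r, T.val E j ≤ T.val E i → T.gb n N a i j E ≤ T.ordN E m →
      0 ≤ T.ord E ((fun i => (n : ℤ) * m i) + e) := by
    intro E hE hg
    rw [he, ord_add, ord_add, ord_add, ord_smul, ord_natCast, ord_natCast, ord_rv, ord_const]
    rw [gb] at hg
    set ε := (if T.val E i = T.val E j then 0 else 1) with hε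
    have h5 : (T.val E i : ℤ) - T.val E j = ε := by
      have h6 := T.val_le_one E i
      rw [hε]
      split_ifs with h7
      · rw [h7]; simp
      · push_cast; omega
    rw [h5]
    have h8 : (T.ordN E a + ε) / n * n ≤ T.ordN E a + ε := Nat.div_mul_le_self _ _
    have h9 : T.sz E * N ≤ T.ordN E m + (T.ordN E a + ε) / n := by omega
    have h10 : T.sz E * N * n ≤ T.ordN E m * n + (T.ordN E a + ε) := by
      calc T.sz E * N * n ≤ (T.ordN E m + (T.ordN E a + ε) / n) * n :=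
            Nat.mul_le_mul_right _ h9
        _ = T.ordN E m * n + (T.ordN E a + ε) / n * n := by ring
        _ ≤ _ := by omega
    have h11 : ((T.sz E : ℤ) * N * n) ≤ T.ordN E m * n + (T.ordN E a + ε) := by
      exact_mod_cast h10
    linarith
  have hDD := T.meet_ne h
  refine hT.zm_mem hz0 h ?_ (key D hv ?_) (key D' hv' ?_)
  · have h5 : ∑ l, ((fun i => (n : ℤ) * m i) + e) l =
        n * (∑ l, (m l : ℤ)) + ∑ l, (a l : ℤ) + ∑ l, rv i j l - k * (n * N) := by
      simp only [he, Pi.add_apply, Finset.sum_add_distrib, Finset.mul_sum, Finset.sum_const,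
        Finset.card_univ, Fintype.card_fin, nsmul_eq_mul]
      ring
    rw [h5, sum_rv]
    have h6 : ∑ l, (m l : ℤ) = k * N - d := by
      have h7 : ((∑ l, m l : ℕ) : ℤ) = ((k * N - d : ℕ) : ℤ) := by rw [hm1]
      rw [Nat.cast_sub hdN] at h7
      push_cast at h7
      exact h7
    have h7 : ∑ l, (a l : ℤ) = d * n := by exact_mod_cast hd
    rw [h6, h7]
    ring
  · refine le_trans ?_ (hm2 D)
    rw [Pi.add_apply, Pi.single_eq_same]
    exact Nat.le_add_right _ _
  · refine le_trans ?_ (hm2 D')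
    rw [Pi.add_apply, Pi.single_eq_same]
    exact Nat.le_add_left _ _

theorem zm_mem_univ (hz0 : ∀ i, z i ≠ 0) (i0 : Fin k) {e : Fin k → ℤ} (hs : ∑ i, e i = 0) :
    zm z e ∈ ratioAlg z Set.univ := by
  have hg : ∀ l l', rv l l' ∈ expMon hz0 (ratioAlg z Set.univ) := fun l l' =>
    rv_mem hz0 (Set.mem_univ _)
  have heq : e = ∑ l, e l • rv l i0 := by
    simp only [rv, smul_sub, Finset.sum_sub_distrib]
    rw [← Finset.sum_smul, hs, zero_smul, sub_zero]
    funext m
    simp [Finset.sum_apply, Pi.single_apply]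
  change e ∈ expMon hz0 (ratioAlg z Set.univ)
  rw [heq]
  refine AddSubmonoid.sum_mem _ fun l _ => zsmul_mem_of (hg l i0) (Or.inr ?_)
  rw [neg_rv]
  exact hg i0 l

theorem Full.suf_univ (hT : T.Full) (hz : ∀ i, z i ^ n = algebraMap R3 KK (T.L i))
    (hz0 : ∀ i, z i ≠ 0) (i0 : Fin k) {a : Fin k → ℕ} {d N : ℕ}
    (hd : ∑ i, a i = d * n) (hdN : d ≤ k * N) {P : R3} (hP : P.IsHomogeneous (k * N - d)) :
    algebraMap R3 KK P * (∏ i, z i ^ a i) /
      algebraMap R3 KK ((∏ i, T.L i) ^ N) ∈ ratioAlg z Set.univ := by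
  have hW := hT.hom_mem_W hP
  set e : Fin k → ℤ := (fun i => (a i : ℤ)) + (fun _ => -((n : ℤ) * N)) with he
  have h3 : algebraMap R3 KK P * (∏ i, z i ^ a i) /
      algebraMap R3 KK ((∏ i, T.L i) ^ N) = algebraMap R3 KK P * zm z e := by
    rw [he, zm_add hz0, alg_Q hz, prod_zm]
    have h4 : zm z (fun _ => -((n : ℤ) * N)) = (zm z (fun _ => (n : ℤ) * N))⁻¹ := by
      rw [zm, zm, ← Finset.prod_inv_distrib]
      exact Finset.prod_congr rfl fun i _ => zpow_neg _ _
    rw [h4]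
    ring
  rw [h3]
  refine W_zm hz hz0 hW e _ fun m hm1 _ => ?_
  refine zm_mem_univ hz0 i0 ?_
  have h5 : ∑ l, ((fun i => (n : ℤ) * m i) + e) l =
      n * (∑ l, (m l : ℤ)) + ∑ l, (a l : ℤ) - k * (n * N) := by
    simp only [he, Pi.add_apply, Finset.sum_add_distrib, Finset.mul_sum, Finset.sum_const,
      Finset.card_univ, Fintype.card_fin, nsmul_eq_mul]
    ring
  rw [h5]
  have h6 : ∑ l, (m l : ℤ) = k * N - d := by
    have h7 : ((∑ l, m l : ℕ) : ℤ) = ((k * N - d : ℕ) : ℤ) := by rw [hm1]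
    rw [Nat.cast_sub hdN] at h7
    push_cast at h7
    exact h7
  have h7 : ∑ l, (a l : ℤ) = d * n := by exact_mod_cast hd
  rw [h6, h7]
  ring

end TConf

end

end Pool.Agent.H94_hk
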