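import Mathlib

/-!
# Infinitesimal rigidity of Hirzebruch-Kummer coverings: the statement

Let `ℓ₁, …, ℓ_k` be linear forms defining the lines of a configuration `𝒞`, and let `zᵢ` be an
`n`-th root of `ℓᵢ` in an algebraic closure of `ℂ(x₀, x₁, x₂)`.  The function field of the
Hirzebruch-Kummer covering `S = HK_𝒞(n)` is generated by the ratios `zᵢ / zⱼ`.

The surface `S` carries the reduced normal crossing divisor `D` formed by the preimages of the
lines (strict transforms) and by the exceptional curves over the points of multiplicity at
least `3`.  For every point where two kinds of components of `D` cross (a double point of `𝒞`,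
or a pair of a point of multiplicity `≥ 3` and a line through it), the complement in `S` of all
other components of `D` is affine, and its coordinate ring is generated by explicit ratios
`zₐ / z_b`.  These affine open sets cover `S`, and the intersection of two of them is the
spectrum of the ring generated by the two coordinate rings.  So `H¹(S, Θ_S)` is the first Cech
cohomology of the sheaf of derivations for this covering; sections of `Θ_S` over such an open
set are the derivations of the coordinate ring of `S ∖ D` that preserve the coordinate ring of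
the open set.
-/

namespace Pool.Agent.H94_hk

noncomputable section

/-- The polynomial ring `ℂ[x₀, x₁, x₂]`. -/
abbrev R3 := MvPolynomial (Fin 3) ℂ

/-- The rational function field `ℂ(x₀, x₁, x₂)`. -/
abbrev F3 := FractionRing R3

/-- An algebraic closure of `ℂ(x₀, x₁, x₂)`. -/
abbrev KK := AlgebraicClosure F3

/-- The linear form `v₀ x₀ + v₁ x₁ + v₂ x₂`. -/
def lin (v : Fin 3 → ℂ) : R3 := ∑ j, MvPolynomial.C (v j) * MvPolynomial.X j

/-- A configuration of `k` distinct lines in the projective plane, not all through one point:
the `i`-th line is the zero set of the linear form with coefficient vector `form i`. -/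
structure Config (k : ℕ) where
  /-- the coefficient vectors of the linear forms -/
  form : Fin k → Fin 3 → ℂ
  distinct : ∀ i j, i ≠ j → LinearIndependent ℂ ![form i, form j]
  nonconcurrent : ∀ p : Fin 3 → ℂ, p ≠ 0 → ∃ i, form i ⬝ᵥ p ≠ 0

/-- The set of (indices of) lines of the configuration through the point with homogeneous
coordinates `p`. -/
def Config.through {k : ℕ} (𝒞 : Config k) (p : Fin 3 → ℂ) : Set (Fin k) :=
  {i | 𝒞.form i ⬝ᵥ p = 0}

/-- The charts of the covering surface.  A chart is encoded by the set of pairs `(a, b)` for
which the ratio `z_a / z_b` is a regular function on it.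
* For a double point `p`, this is the complement of all components of `D` except for the
  preimages of the two lines through `p`: the functions `z_a / z_b` with `b` not through `p`.
* For a point `p` of multiplicity at least `3` and a line `i` through `p`, this is the complement
  of all components of `D` except for the exceptional curves over `p` and the preimage of line
  `i`: the functions `z_a / z_b` with `b` not through `p`, or with `a`, `b` both through `p`
  and `b ≠ i`. -/
def Config.IsChart {k : ℕ} (𝒞 : Config k) (R : Set (Fin k × Fin k)) : Prop :=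
  (∃ p : Fin 3 → ℂ, p ≠ 0 ∧ (𝒞.through p).ncard = 2 ∧ R = {ab | ab.2 ∉ 𝒞.through p}) ∨
  (∃ (p : Fin 3 → ℂ) (i : Fin k), p ≠ 0 ∧ 3 ≤ (𝒞.through p).ncard ∧ i ∈ 𝒞.through p ∧
    R = {ab | ab.2 ∉ 𝒞.through p ∨
      (ab.1 ∈ 𝒞.through p ∧ ab.2 ∈ 𝒞.through p ∧ ab.2 ≠ i)})

/-- The `ℂ`-algebra generated by the ratios `z_a / z_b`, `(a, b) ∈ R`. -/
def ratioAlg {k : ℕ} (z : Fin k → KK) (R : Set (Fin k × Fin k)) : Subalgebra ℂ KK :=
  Algebra.adjoin ℂ {f | ∃ ab ∈ R, f = z ab.1 / z ab.2}

/-- The derivation `θ` of the coordinate ring of `S ∖ D` maps elements of `B` to `B`. -/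
def Preserves {k : ℕ} {z : Fin k → KK}
    (θ : Derivation ℂ (ratioAlg z Set.univ) (ratioAlg z Set.univ))
    (B : Subalgebra ℂ KK) : Prop :=
  ∀ f : ratioAlg z Set.univ, (f : KK) ∈ B → (θ f : KK) ∈ B

/-- Vanishing of the first Cech cohomology of the sheaf of derivations for the covering by the
affine open sets with coordinate rings `ratioAlg z R`, `R ∈ U`: every `1`-cocycle is a
coboundary. -/
def H1Vanishes {k : ℕ} (z : Fin k → KK) (U : Set (Set (Fin k × Fin k))) : Prop :=
  ∀ θ : U → U → Derivation ℂ (ratioAlg z Set.univ) (ratioAlg z Set.univ),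
    (∀ s t : U, Preserves (θ s t) (ratioAlg z s ⊔ ratioAlg z t)) →
    (∀ s t u : U, θ s t + θ t u = θ s u) →
    ∃ η : U → Derivation ℂ (ratioAlg z Set.univ) (ratioAlg z Set.univ),
      (∀ s : U, Preserves (η s) (ratioAlg z s)) ∧ ∀ s t : U, θ s t = η s - η t

/-- Infinitesimal rigidity of the Hirzebruch-Kummer covering `S = HK_𝒞(n)`: `H¹(S, Θ_S) = 0`,
for every choice of the `n`-th roots `zᵢ` of the linear forms. -/
def InfinitesimallyRigidHK {k : ℕ} (𝒞 : Config k) (n : ℕ) : Prop :=
  ∀ z : Fin k → KK, (∀ i, z i ^ n = algebraMap R3 KK (lin (𝒞.form i))) →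
    H1Vanishes z {R | 𝒞.IsChart R}

end

end Pool.Agent.H94_hk
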