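import Pool.Agent.H94_hk.Adapt

/-!
# Expansion of functions by characters
-/

namespace Pool.Agent.H94_hk

open MvPolynomial

noncomputable section

namespace TConf

variable {k r : ℕ} (T : TConf k r)

/-- Expansion of a function by characters, with the denominator `(∏ L i) ^ N`. -/
def HasExp (z : Fin k → KK) (n N : ℕ) (g : KK) (P : (Fin k → Fin n) → R3) : Prop :=
  algebraMap R3 KK ((∏ i, T.L i) ^ N) * g =
    ∑ a, algebraMap R3 KK (P a) * ∏ i, z i ^ (a i : ℕ)

/-- The number of lines (with multiplicity) through a curve. -/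
def sz (D : Crv k r) : ℕ := ∑ i, T.val D i

variable {T} {z : Fin k → KK} {n N : ℕ}

theorem HasExp.add {g g' : KK} {P P' : (Fin k → Fin n) → R3} (h : T.HasExp z n N g P)
    (h' : T.HasExp z n N g' P') : T.HasExp z n N (g + g') (fun a => P a + P' a) := by
  rw [HasExp] at *
  rw [mul_add, h, h', ← Finset.sum_add_distrib]
  exact Finset.sum_congr rfl fun a _ => by rw [map_add]; ring

theorem HasExp.sub {g g' : KK} {P P' : (Fin k → Fin n) → R3} (h : T.HasExp z n N g P)
    (h' : T.HasExp z n N g' P') : T.HasExp z n N (g - g') (fun a => P a - P' a) := by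
  rw [HasExp] at *
  rw [mul_sub, h, h', ← Finset.sum_sub_distrib]
  exact Finset.sum_congr rfl fun a _ => by rw [map_sub]; ring

theorem HasExp.mul {g : KK} {P : (Fin k → Fin n) → R3} (f : R3) (h : T.HasExp z n N g P) :
    T.HasExp z n N (algebraMap R3 KK f * g) (fun a => f * P a) := by
  rw [HasExp] at *
  rw [mul_left_comm, h, Finset.mul_sum]
  exact Finset.sum_congr rfl fun a _ => by rw [map_mul]; ring

theorem HasExp.zero : T.HasExp z n N 0 (fun _ => 0) := by
  rw [HasExp]; simp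

theorem HasExp.sum {ι : Type*} (s : Finset ι) {g : ι → KK} {P : ι → (Fin k → Fin n) → R3}
    (h : ∀ x ∈ s, T.HasExp z n N (g x) (P x)) :
    T.HasExp z n N (∑ x ∈ s, g x) (fun a => ∑ x ∈ s, P x a) := by
  classical
  induction s using Finset.induction_on with
  | empty => simpa using HasExp.zero
  | insert x s hx ih =>
    simp only [Finset.sum_insert hx]
    exact (h x (Finset.mem_insert_self x s)).add
      (ih fun y hy => h y (Finset.mem_insert_of_mem hy))

theorem HasExp.unique (hn : 0 < n) (hz : ∀ i, z i ^ n = algebraMap R3 KK (T.L i)) {g : KK}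
    {P P' : (Fin k → Fin n) → R3} (h : T.HasExp z n N g P)
    (h' : T.HasExp z n N g P') : P = P' := by
  have h1 := kummer_indep hn T.L z hz T.L_prime (fun i j hij ha => T.not_L_dvd_L hij ha.dvd)
    (fun a => algebraMap R3 F3 (P a - P' a)) (by
      have h2 := h.sub h'
      rw [HasExp, sub_self, mul_zero] at h2
      rw [h2]
      exact Finset.sum_congr rfl fun a _ => by
        rw [← IsScalarTower.algebraMap_apply R3 F3 KK])
  funext a
  have h2 := h1 a
  have h3 := (map_eq_zero_iff _ (IsFractionRing.injective R3 F3)).mp h2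
  exact sub_eq_zero.mp h3

/-- The remainder of an exponent vector. -/
def ra (hn : 0 < n) (e : Fin k → ℤ) : Fin k → Fin n := fun i =>
  ⟨(e i % n).toNat, by
    have h1 := Int.emod_nonneg (e i) (b := n) (by omega)
    have h2 := Int.emod_lt_of_pos (e i) (b := n) (by omega)
    omega⟩

/-- The shifted quotient of an exponent vector. -/
def qm (n N : ℕ) (e : Fin k → ℤ) : Fin k → ℕ := fun i => (e i / n + N).toNat

theorem ra_qm (hn : 0 < n) (e : Fin k → ℤ) (hN : ∑ i, (e i).natAbs ≤ N) (i : Fin k) :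
    (n : ℤ) * N + e i = n * (qm n N e i : ℤ) + ((ra hn e i : ℕ) : ℤ) := by
  have h1 := Int.emod_nonneg (e i) (b := n) (by omega)
  have h2 := Int.emod_add_mul_ediv (e i) n
  have h3 : (e i).natAbs ≤ N := by
    have : (e i).natAbs ≤ ∑ i, (e i).natAbs :=
      Finset.single_le_sum (f := fun i => (e i).natAbs) (fun _ _ => Nat.zero_le _)
        (Finset.mem_univ i)
    omega
  have h4 : 0 ≤ e i / n + N := by
    have h5 : -(N : ℤ) ≤ e i / n := by
      rw [Int.le_ediv_iff_mul_le (by omega)]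
      have h6 : -(N : ℤ) ≤ e i := by omega
      nlinarith [(Nat.cast_nonneg N : (0 : ℤ) ≤ N), (by exact_mod_cast hn : (0 : ℤ) < n)]
    omega
  have h5 : (qm n N e i : ℤ) = e i / n + N := Int.toNat_of_nonneg h4
  have h6 : ((ra hn e i : ℕ) : ℤ) = e i % n := Int.toNat_of_nonneg h1
  rw [h5, h6]
  linarith

theorem exp_zm (hn : 0 < n) (hz : ∀ i, z i ^ n = algebraMap R3 KK (T.L i))
    (hz0 : ∀ i, z i ≠ 0) (e : Fin k → ℤ) (hN : ∑ i, (e i).natAbs ≤ N) :
    T.HasExp z n N (zm z e) (Pi.single (ra hn e) (T.Lm (qm n N e))) := by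
  rw [HasExp, Finset.sum_eq_single (ra hn e)]
  · rw [Pi.single_eq_same, Lm, zm, map_pow, map_prod, map_prod, ← Finset.prod_pow,
      ← Finset.prod_mul_distrib, ← Finset.prod_mul_distrib]
    refine Finset.prod_congr rfl fun i _ => ?_
    rw [map_pow, ← hz, ← pow_mul, ← pow_mul, ← zpow_natCast, ← zpow_natCast, ← zpow_natCast,
      ← zpow_add₀ (hz0 i), ← zpow_add₀ (hz0 i)]
    congr 1
    push_cast
    exact ra_qm hn e hN i
  · intro a _ ha
    rw [Pi.single_eq_of_ne ha, map_zero, zero_mul]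
  · intro h; exact absurd (Finset.mem_univ _) h

theorem exp_span {S : Set (Fin k → ℤ)} {M : ℕ → (Fin k → Fin n) → Submodule ℂ R3}
    (h : ∀ e ∈ S, ∃ N0, ∀ N ≥ N0, ∃ P, T.HasExp z n N (zm z e) P ∧ ∀ a, P a ∈ M N a)
    {g : KK} (hg : g ∈ Submodule.span ℂ (zm z '' S)) :
    ∃ N0, ∀ N ≥ N0, ∃ P, T.HasExp z n N g P ∧ ∀ a, P a ∈ M N a := by
  induction hg using Submodule.span_induction with
  | mem x hx =>
    obtain ⟨e, he, rfl⟩ := hx
    exact h e he
  | zero => exact ⟨0, fun N _ => ⟨fun _ => 0, HasExp.zero, fun a => zero_mem _⟩⟩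
  | add x y _ _ hx hy =>
    obtain ⟨N1, h1⟩ := hx
    obtain ⟨N2, h2⟩ := hy
    refine ⟨N1 + N2, fun N hN => ?_⟩
    obtain ⟨P1, hP1, hP1'⟩ := h1 N (by omega)
    obtain ⟨P2, hP2, hP2'⟩ := h2 N (by omega)
    exact ⟨_, hP1.add hP2, fun a => add_mem (hP1' a) (hP2' a)⟩
  | smul c x _ hx =>
    obtain ⟨N1, h1⟩ := hx
    refine ⟨N1, fun N hN => ?_⟩
    obtain ⟨P1, hP1, hP1'⟩ := h1 N hN
    have h2 := hP1.mul (C c)
    have h3 : algebraMap R3 KK (C c) * x = c • x := by
      have h4 : (C c : R3) = algebraMap ℂ R3 c := rfl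
      rw [h4, ← IsScalarTower.algebraMap_apply ℂ R3 KK, Algebra.smul_def]
    rw [h3] at h2
    refine ⟨_, h2, fun a => ?_⟩
    rw [C_mul']
    exact Submodule.smul_mem _ _ (hP1' a)

/-- The degree condition on the coefficients of an expansion. -/
def Mhom (k n : ℕ) (N : ℕ) (a : Fin k → Fin n) : Submodule ℂ R3 :=
  if n ∣ ∑ i, (a i : ℕ) then homogeneousSubmodule (Fin 3) ℂ (k * N - (∑ i, (a i : ℕ)) / n) else ⊥

theorem exp_hom (hn : 0 < n) (hz : ∀ i, z i ^ n = algebraMap R3 KK (T.L i))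
    (hz0 : ∀ i, z i ≠ 0) {g : KK} (hg : g ∈ ratioAlg z Set.univ) :
    ∃ N0, ∀ N ≥ N0, ∃ P, T.HasExp z n N g P ∧ ∀ a, P a ∈ Mhom k n N a := by
  let M0 : AddSubmonoid (Fin k → ℤ) :=
    { carrier := {e | ∑ i, e i = 0}
      zero_mem' := by simp
      add_mem' := by
        intro a b ha hb
        change ∑ i, (a + b) i = 0
        have ha' : ∑ i, a i = 0 := ha
        have hb' : ∑ i, b i = 0 := hb
        simp [Finset.sum_add_distrib, ha', hb'] }
  have h1 := ratioAlg_le_span hz0 M0 (fun ab _ => sum_rv ab.1 ab.2) hg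
  refine exp_span (S := (M0 : Set (Fin k → ℤ))) (fun e he => ?_) h1
  have he' : ∑ i, e i = 0 := he
  refine ⟨∑ i, (e i).natAbs, fun N hN => ⟨_, exp_zm hn hz hz0 e hN, fun a => ?_⟩⟩
  by_cases ha : a = ra hn e
  · subst ha
    rw [Pi.single_eq_same]
    have h2 : (n : ℤ) * (k * N) = n * (∑ i, (qm n N e i : ℤ)) + ∑ i, ((ra hn e i : ℕ) : ℤ) := by
      have h3 := Finset.sum_congr rfl fun i (_ : i ∈ Finset.univ) => ra_qm hn e hN i
      rw [Finset.sum_add_distrib, Finset.sum_add_distrib, he', ← Finset.mul_sum] at h3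
      simp only [Finset.sum_const, Finset.card_univ, Fintype.card_fin, nsmul_eq_mul] at h3
      rw [Finset.mul_sum, ← h3]; ring
    have h4 : n * (k * N) = n * (∑ i, qm n N e i) + ∑ i, (ra hn e i : ℕ) := by
      exact_mod_cast h2
    have h5 : n ∣ ∑ i, (ra hn e i : ℕ) := by
      have h6 : n ∣ n * (∑ i, qm n N e i) + ∑ i, (ra hn e i : ℕ) := by
        rw [← h4]; exact Dvd.intro _ rfl
      exact (Nat.dvd_add_right (Dvd.intro _ rfl)).mp h6
    rw [Mhom, if_pos h5, mem_homogeneousSubmodule]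
    obtain ⟨d, hd⟩ := h5
    have h6 : k * N - (∑ i, (ra hn e i : ℕ)) / n = ∑ i, qm n N e i := by
      rw [hd, Nat.mul_div_cancel_left _ hn]
      rw [hd, ← mul_add] at h4
      have := Nat.eq_of_mul_eq_mul_left hn h4
      omega
    rw [h6, Lm]
    apply IsHomogeneous.prod
    intro i _
    simpa using (T.L_hom i).pow (qm n N e i)
  · rw [Pi.single_eq_of_ne ha]
    exact zero_mem _

theorem exp_ord (hn : 0 < n) (hz : ∀ i, z i ^ n = algebraMap R3 KK (T.L i))
    (hz0 : ∀ i, z i ≠ 0) {g : KK} (D : Crv k r) (ε : ℕ)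
    (hg : g ∈ Submodule.span ℂ (zm z '' {e | ∑ i, e i = 0 ∧ -(ε : ℤ) ≤ T.ord D e})) :
    ∃ N0, ∀ N ≥ N0, ∃ P, T.HasExp z n N g P ∧
      ∀ a, P a ∈ T.J D (T.sz D * N - (T.ordN D (fun i => (a i : ℕ)) + ε) / n) := by
  refine exp_span (S := {e | ∑ i, e i = 0 ∧ -(ε : ℤ) ≤ T.ord D e})
    (M := fun N a => (T.J D (T.sz D * N - (T.ordN D (fun i => (a i : ℕ)) + ε) / n)).restrictScalars ℂ)
    (fun e he => ?_) hg
  obtain ⟨_, he'⟩ := he
  refine ⟨∑ i, (e i).natAbs, fun N hN => ⟨_, exp_zm hn hz hz0 e hN, fun a => ?_⟩⟩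
  rw [Submodule.restrictScalars_mem]
  by_cases ha : a = ra hn e
  · subst ha
    rw [Pi.single_eq_same]
    have h1 := T.prod_L_mem_J D (qm n N e) Finset.univ
    have h2 : (n : ℤ) * (T.sz D * N) + T.ord D e = n * (T.ordN D (qm n N e) : ℤ) +
        (T.ordN D (fun i => (ra hn e i : ℕ)) : ℤ) := by
      have h3 := Finset.sum_congr rfl fun i (_ : i ∈ Finset.univ) =>
        congrArg (fun x => (T.val D i : ℤ) * x) (ra_qm hn e hN i)
      simp only [mul_add] at h3
      rw [Finset.sum_add_distrib, Finset.sum_add_distrib] at h3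
      have h4 : ∑ i, (T.val D i : ℤ) * (n * N) = n * (T.sz D * N) := by
        rw [← Finset.sum_mul, sz]; push_cast; ring
      have h5 : ∑ i, (T.val D i : ℤ) * (n * (qm n N e i : ℤ)) =
          n * (T.ordN D (qm n N e) : ℤ) := by
        rw [ordN]; push_cast
        rw [Finset.mul_sum]
        exact Finset.sum_congr rfl fun i _ => by ring
      have h6 : ∑ i, (T.val D i : ℤ) * ((ra hn e i : ℕ) : ℤ) =
          (T.ordN D (fun i => (ra hn e i : ℕ)) : ℤ) := by
        rw [ordN]; push_cast; rfl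
      rw [h4, h5, h6] at h3
      exact h3
    refine T.J_mono D ?_ h1
    have h7 : ∑ j, qm n N e j * T.val D j = T.ordN D (qm n N e) := by
      rw [ordN]
      exact Finset.sum_congr rfl fun i _ => mul_comm _ _
    rw [h7]
    generalize T.ordN D (qm n N e) = x at *
    generalize T.ordN D (fun i => (ra hn e i : ℕ)) = y at *
    have h8 : T.sz D * N - x ≤ (y + ε) / n := by
      rw [Nat.le_div_iff_mul_le hn]
      rcases le_or_gt (T.sz D * N) x with h9 | h9
      · rw [Nat.sub_eq_zero_of_le h9, zero_mul]; exact Nat.zero_le _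
      · obtain ⟨w, hw⟩ := Nat.exists_eq_add_of_lt h9
        have h10 : T.sz D * N - x = w + 1 := by omega
        rw [h10]
        have h11 : ((T.sz D : ℤ) * N) = x + w + 1 := by exact_mod_cast hw
        rw [h11] at h2
        zify
        nlinarith
    omega
  · rw [Pi.single_eq_of_ne ha]
    exact zero_mem _

end TConf

end

end Pool.Agent.H94_hk
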