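import Pool.Agent.H94_hk.Defs

/-!
# Kummer theory over `ℂ(x₀, x₁, x₂)` and extension of derivations
-/

namespace Pool.Agent.H94_hk

open MvPolynomial

noncomputable section

instance fe1 : Algebra.FormallyEtale F3 KK := Algebra.FormallyEtale.of_isSeparable F3 KK
instance fe2 : Algebra.FormallyEtale R3 KK := Algebra.FormallyEtale.comp R3 F3 KK

theorem algebraMap_R3_injective : Function.Injective (algebraMap R3 KK) := by
  rw [IsScalarTower.algebraMap_eq R3 F3 KK]
  exact (FaithfulSMul.algebraMap_injective F3 KK).comp (IsFractionRing.injective R3 F3)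

theorem exists_derivation (v : Fin 3 → KK) :
    ∃ D : Derivation ℂ KK KK, ∀ j, D (algebraMap R3 KK (X j)) = v j := by
  let D0 : Derivation ℂ R3 KK := MvPolynomial.mkDerivation ℂ v
  have hb := KaehlerDifferential.isBaseChange_of_formallyEtale ℂ R3 KK
  let f : Ω[R3⁄ℂ] →ₗ[R3] KK := D0.liftKaehlerDifferential
  let g : Ω[KK⁄ℂ] →ₗ[KK] KK := hb.lift f
  refine ⟨g.compDer (KaehlerDifferential.D ℂ KK), fun j => ?_⟩
  have h1 : (KaehlerDifferential.D ℂ KK) (algebraMap R3 KK (X j)) =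
      KaehlerDifferential.map ℂ ℂ R3 KK (KaehlerDifferential.D ℂ R3 (X j)) := by
    rw [KaehlerDifferential.map_D]
  change g ((KaehlerDifferential.D ℂ KK) (algebraMap R3 KK (X j))) = v j
  rw [h1, hb.lift_eq]
  simp [f, D0]

theorem root_of_unity_mem (n : ℕ) (hn : 0 < n) (x : KK) (hx : x ^ n = 1) :
    ∃ c : ℂ, algebraMap ℂ KK c = x := by
  have hint : IsIntegral ℂ x := by
    refine ⟨Polynomial.X ^ n - 1, Polynomial.monic_X_pow_sub_C 1 hn.ne', ?_⟩
    simp [hx]
  have hirr := minpoly.irreducible hint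
  have hdeg := IsAlgClosed.degree_eq_one_of_irreducible ℂ hirr
  obtain ⟨c, hc⟩ := minpoly.mem_range_of_degree_eq_one ℂ x hdeg
  exact ⟨c, hc⟩

section

variable {ι : Type*} [Fintype ι] [DecidableEq ι] {n : ℕ} (hn : 0 < n) (l : ι → R3) (z : ι → KK)
  (hz : ∀ i, z i ^ n = algebraMap R3 KK (l i)) (hl : ∀ i, Prime (l i))
  (hna : ∀ i j, i ≠ j → ¬ Associated (l i) (l j))

include hn hz hl in
theorem z_ne_zero (i : ι) : z i ≠ 0 := by
  intro h
  have := hz i
  rw [h, zero_pow hn.ne'] at this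
  have h2 : algebraMap R3 KK (l i) = algebraMap R3 KK 0 := by rw [← this, map_zero]
  have h3 := algebraMap_R3_injective h2
  exact (hl i).ne_zero h3

/-- The Kummer character attached to an element whose `n`-th power lies in the base field. -/
def kchar (m : KK) (hm : m ≠ 0) (y : F3) (hy : m ^ n = algebraMap F3 KK y) (hn : 0 < n) :
    (KK ≃ₐ[F3] KK) →* KK where
  toFun σ := σ m / m
  map_one' := by simp [hm]
  map_mul' σ τ := by
    have h1 : (τ m / m) ^ n = 1 := by
      rw [div_pow, ← map_pow, hy, AlgEquiv.commutes, div_self]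
      rw [← hy]; exact pow_ne_zero _ hm
    obtain ⟨c, hc⟩ := root_of_unity_mem n hn _ h1
    have h2 : σ (τ m / m) = τ m / m := by
      rw [← hc, IsScalarTower.algebraMap_apply ℂ F3 KK, AlgEquiv.commutes]
    have h3 : σ (τ m) = (τ m / m) * σ m := by
      rw [← h2, ← map_mul, div_mul_cancel₀ _ hm]
    change σ (τ m) / m = σ m / m * (τ m / m)
    rw [h3]; ring

include hz in
theorem prod_pow_n (a : ι → ℕ) : (∏ i, z i ^ a i) ^ n =
    algebraMap R3 KK (∏ i, l i ^ a i) := by
  rw [← Finset.prod_pow, map_prod]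
  refine Finset.prod_congr rfl fun i _ => ?_
  rw [← pow_mul, mul_comm, pow_mul, hz, map_pow]

theorem emult_prod (l : ι → R3) (hl : ∀ i, Prime (l i))
    (hna : ∀ i j, i ≠ j → ¬ Associated (l i) (l j)) (a : ι → ℕ) (j : ι) :
    emultiplicity (l j) (∏ i, l i ^ a i) = a j := by
  classical
  rw [Finset.emultiplicity_prod (hl j)]
  rw [Finset.sum_eq_single j]
  · rw [emultiplicity_pow_self (hl j).ne_zero (hl j).not_isUnit]
  · intro i _ hij
    rw [emultiplicity_pow (hl j)]
    have : emultiplicity (l j) (l i) = 0 := by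
      rw [emultiplicity_eq_zero]
      intro hdvd
      exact hna j i (Ne.symm hij) ((hl j).associated_of_dvd (hl i) hdvd)
    rw [this, mul_zero]
  · intro h; exact absurd (Finset.mem_univ j) h

include hn hz hl hna in
theorem kummer_injective (a b : ι → Fin n)
    (h : ∀ σ : KK ≃ₐ[F3] KK, σ (∏ i, z i ^ (a i : ℕ)) / (∏ i, z i ^ (a i : ℕ)) =
      σ (∏ i, z i ^ (b i : ℕ)) / (∏ i, z i ^ (b i : ℕ))) : a = b := by
  have hz0 := z_ne_zero hn l z hz hl
  set ma := ∏ i, z i ^ (a i : ℕ) with hma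
  set mb := ∏ i, z i ^ (b i : ℕ) with hmb
  have hma0 : ma ≠ 0 := Finset.prod_ne_zero_iff.mpr fun i _ => pow_ne_zero _ (hz0 i)
  have hmb0 : mb ≠ 0 := Finset.prod_ne_zero_iff.mpr fun i _ => pow_ne_zero _ (hz0 i)
  have hfix : ∀ σ : KK ≃ₐ[F3] KK, σ (ma / mb) = ma / mb := by
    intro σ
    have h1 := h σ
    have hs : σ mb ≠ 0 := by simpa using hmb0
    rw [map_div₀]
    rw [div_eq_div_iff hma0 hmb0] at h1
    rw [div_eq_div_iff hs hmb0, h1]; ring
  have hmem := (InfiniteGalois.mem_bot_iff_fixed (k := F3) (K := KK) (ma / mb)).mpr hfix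
  rw [IntermediateField.mem_bot] at hmem
  obtain ⟨y, hy⟩ := hmem
  obtain ⟨p, q, hq, rfl⟩ := IsFractionRing.div_surjective (A := R3) y
  have hq0 : q ≠ 0 := nonZeroDivisors.ne_zero hq
  have inj := algebraMap_R3_injective
  have hqK : algebraMap R3 KK q ≠ 0 := by
    intro h0; exact hq0 (inj (by rw [h0, map_zero]))
  have key : p ^ n * ∏ i, l i ^ (b i : ℕ) = q ^ n * ∏ i, l i ^ (a i : ℕ) := by
    apply inj
    rw [map_mul, map_mul, map_pow, map_pow, ← prod_pow_n l z hz, ← prod_pow_n l z hz, ← mul_pow,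
      ← mul_pow]
    congr 1
    rw [map_div₀, ← IsScalarTower.algebraMap_apply R3 F3 KK,
      ← IsScalarTower.algebraMap_apply R3 F3 KK, div_eq_div_iff hqK hmb0] at hy
    rw [← hmb, ← hma, hy]; ring
  have hp0 : p ≠ 0 := by
    intro h0
    rw [h0, zero_pow hn.ne', zero_mul] at key
    have := mul_ne_zero (pow_ne_zero n hq0)
      (Finset.prod_ne_zero_iff.mpr fun i (_ : i ∈ Finset.univ) =>
        pow_ne_zero (a i : ℕ) (hl i).ne_zero)
    exact this key.symm
  funext j
  have h2 := congrArg (emultiplicity (l j)) key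
  rw [emultiplicity_mul (hl j), emultiplicity_mul (hl j), emult_prod l hl hna (fun i => (b i : ℕ)),
    emult_prod l hl hna (fun i => (a i : ℕ)), emultiplicity_pow (hl j),
    emultiplicity_pow (hl j)] at h2
  have fp : FiniteMultiplicity (l j) p := FiniteMultiplicity.of_not_isUnit (hl j).not_isUnit hp0
  have fq : FiniteMultiplicity (l j) q := FiniteMultiplicity.of_not_isUnit (hl j).not_isUnit hq0
  rw [fp.emultiplicity_eq_multiplicity, fq.emultiplicity_eq_multiplicity] at h2
  have h3 : n * multiplicity (l j) p + (b j : ℕ) = n * multiplicity (l j) q + (a j : ℕ) := by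
    exact_mod_cast h2
  have h4 := congrArg (· % n) h3
  simp only [Nat.mul_add_mod] at h4
  rw [Nat.mod_eq_of_lt (b j).2, Nat.mod_eq_of_lt (a j).2] at h4
  exact Fin.ext h4.symm

include hn hz hl hna in
/-- Kummer independence. -/
theorem kummer_indep (φ : (ι → Fin n) → F3)
    (h : ∑ a, algebraMap F3 KK (φ a) * ∏ i, z i ^ (a i : ℕ) = 0) : ∀ a, φ a = 0 := by
  classical
  have hz0 := z_ne_zero hn l z hz hl
  have hm0 : ∀ a : ι → Fin n, ∏ i, z i ^ (a i : ℕ) ≠ 0 := fun a =>
    Finset.prod_ne_zero_iff.mpr fun i _ => pow_ne_zero _ (hz0 i)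
  have hpow : ∀ a : ι → Fin n, (∏ i, z i ^ (a i : ℕ)) ^ n =
      algebraMap F3 KK (algebraMap R3 F3 (∏ i, l i ^ (a i : ℕ))) := by
    intro a
    rw [← IsScalarTower.algebraMap_apply R3 F3 KK]
    exact prod_pow_n l z hz _
  let χ : (ι → Fin n) → ((KK ≃ₐ[F3] KK) →* KK) := fun a =>
    kchar (n := n) (∏ i, z i ^ (a i : ℕ)) (hm0 a) _ (hpow a) hn
  have hχ : Function.Injective χ := by
    intro a b hab
    apply kummer_injective hn l z hz hl hna a b
    intro σ
    exact DFunLike.congr_fun hab σ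
  have hli := (linearIndependent_monoidHom (KK ≃ₐ[F3] KK) KK).comp χ hχ
  rw [Fintype.linearIndependent_iff] at hli
  have := hli (fun a => algebraMap F3 KK (φ a) * ∏ i, z i ^ (a i : ℕ)) (by
    funext σ
    have h1 := congrArg σ h
    rw [map_sum, map_zero] at h1
    rw [Finset.sum_apply, Pi.zero_apply, ← h1]
    refine Finset.sum_congr rfl fun a _ => ?_
    rw [map_mul, AlgEquiv.commutes]
    change (algebraMap F3 KK (φ a) * ∏ i, z i ^ (a i : ℕ)) *
      (σ (∏ i, z i ^ (a i : ℕ)) / ∏ i, z i ^ (a i : ℕ)) = _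
    rw [mul_assoc, mul_div_cancel₀ _ (hm0 a)])
  intro a
  have h2 := this a
  rcases mul_eq_zero.mp h2 with h3 | h3
  · exact (map_eq_zero_iff _ (FaithfulSMul.algebraMap_injective F3 KK)).mp h3
  · exact absurd h3 (hm0 a)

end

end

end Pool.Agent.H94_hk
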