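import Pool.Agent.H94_hk.Orders

/-!
# Vanishing of the first cohomology of line bundles, in Cech form
-/

namespace Pool.Agent.H94_hk

open MvPolynomial

noncomputable section

theorem hom_of_mul {P K : R3} {m e : ℕ} (hP : P.IsHomogeneous m) (hP0 : P ≠ 0) (hK0 : K ≠ 0)
    (h : (P * K).IsHomogeneous e) : m ≤ e ∧ K.IsHomogeneous (e - m) := by
  have h1 : P * K = ∑ j ∈ Finset.range (K.totalDegree + 1), P * homogeneousComponent j K := by
    rw [← Finset.mul_sum, sum_homogeneousComponent]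
  have h2 : P * K = ∑ j ∈ Finset.range (K.totalDegree + 1),
      if m + j = e then P * homogeneousComponent j K else 0 := by
    conv_lhs => rw [← homogeneousComponent_eq_self h, h1, map_sum]
    refine Finset.sum_congr rfl fun j _ => ?_
    have h3 : (P * homogeneousComponent j K).IsHomogeneous (m + j) :=
      hP.mul (homogeneousComponent_isHomogeneous j K)
    split_ifs with hj
    · subst hj
      exact homogeneousComponent_eq_self h3
    · rw [homogeneousComponent_of_mem h3, if_neg]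
      exact fun h => hj h.symm
  by_cases hme : m ≤ e
  · refine ⟨hme, ?_⟩
    have h4 : P * K = P * ∑ j ∈ Finset.range (K.totalDegree + 1),
        if m + j = e then homogeneousComponent j K else 0 := by
      rw [h2, Finset.mul_sum]
      refine Finset.sum_congr rfl fun j _ => ?_
      split_ifs <;> simp
    have h5 := mul_left_cancel₀ hP0 h4
    rw [h5]
    refine IsHomogeneous.sum _ _ _ fun j _ => ?_
    split_ifs with hj
    · have : e - m = j := by omega
      rw [this]; exact homogeneousComponent_isHomogeneous j K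
    · exact isHomogeneous_zero _ _ _
  · exfalso
    apply mul_ne_zero hP0 hK0
    rw [h2]
    refine Finset.sum_eq_zero fun j _ => ?_
    rw [if_neg (by omega)]

/-- The type of curves. -/
abbrev Crv (k r : ℕ) := Fin k ⊕ Fin r

namespace TConf

variable {k r : ℕ} (T : TConf k r)

/-- Lines `i` and `j` meet in a double point. -/
def dbl (i j : Fin k) : Prop := i ≠ j ∧ ∀ q, ¬ (i ∈ T.tri q ∧ j ∈ T.tri q)

instance (i j : Fin k) : Decidable (T.dbl i j) := by unfold dbl; infer_instance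

/-- Two curves meet. -/
def meet : Crv k r → Crv k r → Prop
  | Sum.inl i, Sum.inl j => T.dbl i j
  | Sum.inl i, Sum.inr q => i ∈ T.tri q
  | Sum.inr q, Sum.inl i => i ∈ T.tri q
  | Sum.inr _, Sum.inr _ => False

instance (D D' : Crv k r) : Decidable (T.meet D D') := by
  rcases D with i | q <;> rcases D' with j | q' <;> unfold meet <;> infer_instance

theorem dbl_symm {i j : Fin k} (h : T.dbl i j) : T.dbl j i :=
  ⟨h.1.symm, fun q hq => h.2 q hq.symm⟩

theorem meet_symm {D D' : Crv k r} (h : T.meet D D') : T.meet D' D := by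
  rcases D with i | q <;> rcases D' with j | q'
  · exact T.dbl_symm h
  · exact h
  · exact h
  · exact h

theorem meet_ne {D D' : Crv k r} (h : T.meet D D') : D ≠ D' := by
  rcases D with i | q <;> rcases D' with j | q'
  · intro h0
    exact h.1 (Sum.inl_injective h0)
  · exact Sum.inl_ne_inr
  · exact Sum.inr_ne_inl
  · exact absurd h id

/-- Parameter of the intersection point on line `i`. -/
def tj (i j : Fin k) : ℂ := -(T.f j ⬝ᵥ T.pa i) / (T.f j ⬝ᵥ T.pb i)

/-- Parameter of the multiple point `q` on line `i`. -/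
def tq (i : Fin k) (q : Fin r) : ℂ := (T.dv i ⬝ᵥ T.pt q) / (T.du i ⬝ᵥ T.pt q)

/-- Parameter of a node on line `i`. -/
def tn (i : Fin k) : Crv k r → ℂ
  | Sum.inl j => T.tj i j
  | Sum.inr q => T.tq i q

/-- The nodes on a line are distinct. -/
def Good : Prop := ∀ i D D', T.meet (Sum.inl i) D → T.meet (Sum.inl i) D' →
  T.tn i D = T.tn i D' → D = D'

theorem res_L {i j : Fin k} (h : i ≠ j) : T.res i (T.L j) =
    Polynomial.C (T.f j ⬝ᵥ T.pb i) * (Polynomial.X - Polynomial.C (T.tj i j)) := by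
  have h1 := T.fjb i j h
  rw [L, res_lin]
  have h2 : T.f j ⬝ᵥ T.pa i = -((T.f j ⬝ᵥ T.pb i) * T.tj i j) := by
    rw [tj]; field_simp
  rw [h2, map_neg, map_mul]
  ring

theorem pt_eq {i : Fin k} {q : Fin r} (h : i ∈ T.tri q) : T.pt q =
    (T.du i ⬝ᵥ T.pt q) • T.pa i + (T.dv i ⬝ᵥ T.pt q) • T.pb i := by
  funext j
  have h1 := congrArg (fun v => v ⬝ᵥ T.pt q) (T.decomp i j)
  simp only [add_dotProduct, smul_dotProduct, single_dotProduct, one_mul, smul_eq_mul] at h1
  rw [(T.mem_tri i q).mp h] at h1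
  rw [h1]
  simp only [Pi.add_apply, Pi.smul_apply, smul_eq_mul]
  ring

theorem res_form {i : Fin k} {q : Fin r} (h : i ∈ T.tri q) {v : Fin 3 → ℂ}
    (hv : v ⬝ᵥ T.pt q = 0) : T.res i (lin v) =
    Polynomial.C (v ⬝ᵥ T.pb i) * (Polynomial.X - Polynomial.C (T.tq i q)) := by
  have h0 := T.du_pt i q h
  rw [res_lin]
  have h1 : (T.du i ⬝ᵥ T.pt q) * (v ⬝ᵥ T.pa i) + (T.dv i ⬝ᵥ T.pt q) * (v ⬝ᵥ T.pb i) = 0 := by
    rw [T.pt_eq h, dotProduct_add, dotProduct_smul, dotProduct_smul, smul_eq_mul,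
      smul_eq_mul] at hv
    exact hv
  have h2 : v ⬝ᵥ T.pa i = -((v ⬝ᵥ T.pb i) * T.tq i q) := by
    rw [tq]
    field_simp
    linear_combination h1
  rw [h2, map_neg, map_mul]
  ring

theorem tj_eq_tq {i j : Fin k} {q : Fin r} (hij : i ≠ j) (hi : i ∈ T.tri q) (hj : j ∈ T.tri q) :
    T.tj i j = T.tq i q := by
  have h1 := T.res_form hi ((T.mem_tri j q).mp hj)
  rw [← L, T.res_L hij] at h1
  have h2 : Polynomial.C (T.f j ⬝ᵥ T.pb i) ≠ 0 := by
    rw [Ne, Polynomial.C_eq_zero]; exact T.fjb i j hij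
  have h3 := mul_left_cancel₀ h2 h1
  have h4 := sub_right_injective h3
  exact Polynomial.C_injective h4

theorem y_eq_lin (q : Fin r) (j : Fin 3) : ∃ v : Fin 3 → ℂ, v ⬝ᵥ T.pt q = 0 ∧
    T.y q j = lin v := by
  refine ⟨Pi.single j 1 - T.pt q j • T.kap q, ?_, ?_⟩
  · rw [sub_dotProduct, smul_dotProduct, T.kap_pt, single_dotProduct]
    simp
  · rw [lin_sub, lin_smul, y, kp]
    congr 1
    simp [lin, Pi.single_apply]

theorem res_mem_of_J {i : Fin k} {q : Fin r} (h : i ∈ T.tri q) {m : ℕ} {P : R3}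
    (hP : P ∈ T.J (Sum.inr q) m) : (Polynomial.X - Polynomial.C (T.tq i q)) ^ m ∣ T.res i P := by
  rw [mem_J_inr_iff] at hP
  have h1 : (T.Iq q).map (T.res i : R3 →+* Polynomial ℂ) ≤
      Ideal.span {Polynomial.X - Polynomial.C (T.tq i q)} := by
    rw [Iq, Ideal.map_span, Ideal.span_le]
    rintro _ ⟨_, ⟨j, rfl⟩, rfl⟩
    change T.res i (T.y q j) ∈ _
    obtain ⟨v, hv, hy⟩ := T.y_eq_lin q j
    rw [hy, T.res_form h hv, SetLike.mem_coe, Ideal.mem_span_singleton]
    exact Dvd.intro_left _ rfl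
  have h2 : (T.Iq q ^ m).map (T.res i : R3 →+* Polynomial ℂ) ≤
      Ideal.span {(Polynomial.X - Polynomial.C (T.tq i q)) ^ m} := by
    rw [Ideal.map_pow, ← Ideal.span_singleton_pow]
    exact Ideal.pow_right_mono h1 m
  exact Ideal.mem_span_singleton.mp (h2 (Ideal.mem_map_of_mem _ hP))

theorem not_L_dvd_prod {j : Fin k} (s : Finset (Fin k)) (A : Fin k → ℕ) (hj : j ∉ s) :
    ¬ T.L j ∣ ∏ i ∈ s, T.L i ^ A i := by
  intro h
  obtain ⟨i, hi, h1⟩ := (T.L_prime j).exists_mem_finset_dvd h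
  have h2 := (T.L_prime j).dvd_of_dvd_pow h1
  exact T.not_L_dvd_L (by rintro rfl; exact hj hi) h2

theorem prod_L_dvd (s : Finset (Fin k)) (A : Fin k → ℕ) (h : R3)
    (hs : ∀ i ∈ s, T.L i ^ A i ∣ h) : ∏ i ∈ s, T.L i ^ A i ∣ h := by
  induction s using Finset.induction_on with
  | empty => simp
  | insert j s hj ih =>
    obtain ⟨K, hK⟩ := ih fun i hi => hs i (Finset.mem_insert_of_mem hi)
    rw [Finset.prod_insert hj]
    have h1 := hs j (Finset.mem_insert_self j s)
    rw [hK] at h1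
    have h2 := (T.L_prime j).pow_dvd_of_dvd_mul_left _ (T.not_L_dvd_prod s A hj) h1
    rw [hK, mul_comm]
    exact mul_dvd_mul_left _ h2

/-- The first cohomology of a line bundle vanishes (Cech form). -/
def LBV (e : ℕ) (A : Crv k r → ℕ) : Prop :=
  ∀ G : Crv k r → Crv k r → R3, (∀ D D', T.meet D D' → G D D' = G D' D) →
    (∀ D D', (G D D').IsHomogeneous e) →
    (∀ D D' D'', T.meet D D' → T.meet D D'' → G D D' - G D D'' ∈ T.J D (A D)) →
    ∃ P : R3, P.IsHomogeneous e ∧ ∀ D D', T.meet D D' → P - G D D' ∈ T.J D (A D)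

theorem LBV_zero (e : ℕ) : T.LBV e (fun _ => 0) := by
  intro G _ _ _
  refine ⟨0, isHomogeneous_zero _ _ _, fun D D' _ => ?_⟩
  rw [T.J_zero]; trivial

theorem LBV_step {e : ℕ} {A : Crv k r → ℕ} (D0 : Crv k r) (h : T.LBV e A)
    (hs : ∀ G : Crv k r → R3, (∀ D', (G D').IsHomogeneous e) →
      (∀ D', T.meet D0 D' → G D' ∈ T.J D0 (A D0)) →
      (∀ D', T.meet D0 D' → G D' ∈ T.J D' (A D')) →
      (∀ D' D'', T.meet D0 D' → T.meet D0 D'' → G D' - G D'' ∈ T.J D0 (A D0 + 1)) →
      ∃ P : R3, P.IsHomogeneous e ∧ (∀ D, P ∈ T.J D (A D)) ∧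
        ∀ D', T.meet D0 D' → P - G D' ∈ T.J D0 (A D0 + 1)) :
    T.LBV e (Function.update A D0 (A D0 + 1)) := by
  intro G hsym hhom hG
  obtain ⟨P0, hP0, hP0'⟩ := h G hsym hhom (by
    intro D D' D'' h1 h2
    have h3 := hG D D' D'' h1 h2
    refine T.J_mono D ?_ h3
    by_cases hD : D = D0
    · subst hD; simp
    · rw [Function.update_of_ne hD])
  obtain ⟨P1, hP1, hP1', hP1''⟩ := hs (fun D' => G D0 D' - P0)
    (fun D' => (hhom D0 D').sub hP0)
    (fun D' hD' => by
      have := neg_mem (hP0' D0 D' hD')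
      rwa [neg_sub] at this)
    (fun D' hD' => by
      have := neg_mem (hP0' D' D0 (T.meet_symm hD'))
      rwa [neg_sub, ← hsym D0 D' hD'] at this)
    (fun D' D'' h1 h2 => by
      have := hG D0 D' D'' h1 h2
      rw [Function.update_self] at this
      rwa [sub_sub_sub_cancel_right])
  refine ⟨P0 + P1, hP0.add hP1, fun D D' hD => ?_⟩
  by_cases hD0 : D = D0
  · subst hD0
    rw [Function.update_self]
    have := hP1'' D' hD
    have h2 : P0 + P1 - G D D' = P1 - (G D D' - P0) := by ring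
    rwa [h2]
  · rw [Function.update_of_ne hD0]
    have h2 : P0 + P1 - G D D' = (P0 - G D D') + P1 := by ring
    rw [h2]
    exact add_mem (hP0' D D' hD) (hP1' D)

theorem LBV_stepE {e : ℕ} {A : Crv k r → ℕ} (q : Fin r) (h : T.LBV e A)
    (hlt : A (Sum.inr q) < ∑ i ∈ T.tri q, A (Sum.inl i)) :
    T.LBV e (Function.update A (Sum.inr q) (A (Sum.inr q) + 1)) := by
  refine T.LBV_step (Sum.inr q) h fun G _ hm hL hd => ?_
  refine ⟨0, isHomogeneous_zero _ _ _, fun D => zero_mem _, fun D' hD' => ?_⟩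
  rw [zero_sub]
  apply neg_mem
  rcases D' with i | q'
  swap
  · exact absurd hD' id
  set m := A (Sum.inr q) with hmdef
  set c := (T.phi q (G (Sum.inl i))).coeff m with hc
  have hall : ∀ j ∈ T.tri q, T.L j ^ A (Sum.inl j) ∣ c := by
    intro j hj
    have h1 := hd (Sum.inl i) (Sum.inl j) hD' hj
    rw [mem_J_inr, Polynomial.X_pow_dvd_iff] at h1
    have h2 := h1 m (Nat.lt_succ_self m)
    rw [map_sub, Polynomial.coeff_sub, sub_eq_zero] at h2
    rw [hc, h2]
    have h3 := hL (Sum.inl j) hj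
    rw [mem_J_inl] at h3
    obtain ⟨K, hK⟩ := h3
    rw [hK, map_mul, map_pow, T.phi_L_mem hj, mul_pow, ← map_pow, mul_right_comm, mul_comm,
      Polynomial.coeff_C_mul]
    exact Dvd.intro _ rfl
  have hprod := T.prod_L_dvd (T.tri q) (fun j => A (Sum.inl j)) c hall
  have hc0 : c = 0 := by
    obtain ⟨K, hK⟩ := hprod
    have h1 := T.phi_coeff q (G (Sum.inl i)) m
    rw [← hc] at h1
    have h2 : Polynomial.X ^ (∑ j ∈ T.tri q, A (Sum.inl j)) ∣ T.phi q c := by
      rw [hK, map_mul, map_prod, ← Finset.prod_pow_eq_pow_sum]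
      refine Dvd.dvd.mul_right ?_ _
      refine Finset.prod_dvd_prod_of_dvd _ _ fun j hj => ?_
      rw [map_pow, T.phi_L_mem hj, mul_pow]
      exact Dvd.intro _ rfl
    rw [Polynomial.X_pow_dvd_iff] at h2
    have h3 := h2 m hlt
    rw [h1] at h3
    simpa using h3
  rw [mem_J_inr, Polynomial.X_pow_dvd_iff]
  intro d hdm
  rcases Nat.lt_succ_iff_lt_or_eq.mp hdm with h1 | h1
  · have h2 := hm (Sum.inl i) hD'
    rw [mem_J_inr, Polynomial.X_pow_dvd_iff] at h2
    exact h2 d h1
  · rw [h1]; exact hc0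

/-- The nodes on line `i`. -/
def nodes (i : Fin k) : Finset (Crv k r) := Finset.univ.filter fun D => T.meet (Sum.inl i) D

theorem mem_nodes {i : Fin k} {D : Crv k r} : D ∈ T.nodes i ↔ T.meet (Sum.inl i) D := by
  simp [nodes]

/-- The order along line `i` of a section of prescribed orders at a node. -/
def nu (A : Crv k r → ℕ) (i : Fin k) : Crv k r → ℕ
  | Sum.inl j => A (Sum.inl j)
  | Sum.inr q => A (Sum.inr q) - A (Sum.inl i)

/-- Data extracted from a section along line `i`. -/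
theorem line_data {e : ℕ} {A : Crv k r → ℕ} (i : Fin k) (hgood : T.Good)
    (hne : (T.nodes i).Nonempty)
    (G : Crv k r → R3) (hom : ∀ D', (G D').IsHomogeneous e)
    (hm : ∀ D', T.meet (Sum.inl i) D' → G D' ∈ T.J (Sum.inl i) (A (Sum.inl i)))
    (hL : ∀ D', T.meet (Sum.inl i) D' → G D' ∈ T.J D' (A D'))
    (hd : ∀ D' D'', T.meet (Sum.inl i) D' → T.meet (Sum.inl i) D'' →
      G D' - G D'' ∈ T.J (Sum.inl i) (A (Sum.inl i) + 1)) :
    ∃ rho : Polynomial ℂ, (rho ≠ 0 → A (Sum.inl i) ≤ e) ∧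
      rho.natDegree ≤ e - A (Sum.inl i) ∧
      (∏ D ∈ T.nodes i, (Polynomial.X - Polynomial.C (T.tn i D)) ^ nu A i D ∣ rho) ∧
      ∀ P : R3, P.IsHomogeneous (e - A (Sum.inl i)) → T.res i P = rho → ∀ D',
        T.meet (Sum.inl i) D' → T.L i ^ A (Sum.inl i) * P - G D' ∈
          T.J (Sum.inl i) (A (Sum.inl i) + 1) := by
  classical
  set m := A (Sum.inl i) with hmdef
  have h1 : ∀ D', T.meet (Sum.inl i) D' → ∃ K, G D' = T.L i ^ m * K := by
    intro D' hD'
    have := hm D' hD'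
    rw [mem_J_inl] at this
    exact this
  choose! K hK using h1
  have hLm : T.L i ^ m ≠ 0 := pow_ne_zero _ (T.L_ne_zero i)
  have hLh : (T.L i ^ m).IsHomogeneous m := by
    have := (T.L_hom i).pow m
    rwa [one_mul] at this
  have hKh : ∀ D', T.meet (Sum.inl i) D' → (K D' ≠ 0 → m ≤ e) ∧
      (K D').IsHomogeneous (e - m) := by
    intro D' hD'
    by_cases h0 : K D' = 0
    · refine ⟨fun h => absurd h0 h, ?_⟩
      rw [h0]; exact isHomogeneous_zero _ _ _
    · have h2 := hom D'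
      rw [hK D' hD'] at h2
      have h3 := hom_of_mul hLh hLm h0 h2
      exact ⟨fun _ => h3.1, h3.2⟩
  obtain ⟨D0, hD0⟩ := hne
  rw [mem_nodes] at hD0
  have hsame : ∀ D', T.meet (Sum.inl i) D' → T.res i (K D') = T.res i (K D0) := by
    intro D' hD'
    have h2 := hd D' D0 hD' hD0
    rw [mem_J_inl, hK D' hD', hK D0 hD0, ← mul_sub, pow_succ] at h2
    have h3 := T.res_eq_zero_of_dvd ((mul_dvd_mul_iff_left hLm).mp h2)
    rwa [map_sub, sub_eq_zero] at h3
  refine ⟨T.res i (K D0), ?_, T.natDegree_res i (hKh D0 hD0).2, ?_, ?_⟩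
  · intro h0
    apply (hKh D0 hD0).1
    intro h4
    rw [h4, map_zero] at h0
    exact h0 rfl
  · apply Finset.prod_dvd_of_coprime
    · intro D hD D' hD' hDD'
      rw [Finset.mem_coe, mem_nodes] at hD hD'
      apply IsCoprime.pow
      apply Polynomial.isCoprime_X_sub_C_of_isUnit_sub
      rw [isUnit_iff_ne_zero, sub_ne_zero]
      exact fun h => hDD' (hgood i D D' hD hD' h)
    · intro D hD
      rw [mem_nodes] at hD
      rw [← hsame D hD]
      have h2 := hL D hD
      rw [hK D hD] at h2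
      rcases D with j | q
      · have hij : i ≠ j := hD.1
        rw [mem_J_inl] at h2
        have h3 : ¬ T.L j ∣ T.L i ^ m := fun h =>
          T.not_L_dvd_L hij.symm ((T.L_prime j).dvd_of_dvd_pow h)
        have h4 := (T.L_prime j).pow_dvd_of_dvd_mul_left _ h3 h2
        have h5 : T.res i (T.L j) ^ A (Sum.inl j) ∣ T.res i (K (Sum.inl j)) := by
          rw [← map_pow]; exact map_dvd _ h4
        rw [T.res_L hij, mul_pow] at h5
        exact (Dvd.intro_left _ rfl).trans h5
      · change i ∈ T.tri q at hD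
        apply T.res_mem_of_J hD
        have h3 : ∀ (a : ℕ) (P : R3) (b : ℕ), T.L i ^ a * P ∈ T.J (Sum.inr q) b →
            P ∈ T.J (Sum.inr q) (b - a) := by
          intro a
          induction a with
          | zero => intro P b hP; simpa using hP
          | succ a ih =>
            intro P b hP
            by_cases hb : b = 0
            · subst hb; rw [Nat.zero_sub, T.J_zero]; trivial
            · rw [pow_succ', mul_assoc] at hP
              have h4 : T.L i ^ a * P ∈ T.J (Sum.inr q) (b - 1) := by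
                apply T.cancel (j := i)
                have h5 : b - 1 + T.val (Sum.inr q) i = b := by
                  rw [val, if_pos hD]; omega
                rw [h5]; exact hP
              have h6 := ih P (b - 1) h4
              rwa [Nat.sub_sub, Nat.add_comm] at h6
        exact h3 m _ _ h2
  · intro P hP hres D' hD'
    rw [mem_J_inl, hK D' hD', ← mul_sub, pow_succ]
    apply mul_dvd_mul_left
    apply T.L_dvd_of_res (hP.sub (hKh D' hD').2)
    rw [map_sub, hres, hsame D' hD', sub_self]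

theorem natDegree_prod_nodes (i : Fin k) (ν : Crv k r → ℕ) :
    (∏ D ∈ T.nodes i, (Polynomial.X - Polynomial.C (T.tn i D)) ^ ν D).natDegree =
      ∑ D ∈ T.nodes i, ν D := by
  rw [Polynomial.natDegree_prod_of_monic]
  · refine Finset.sum_congr rfl fun D _ => ?_
    rw [Polynomial.natDegree_pow, Polynomial.natDegree_X_sub_C, mul_one]
  · intro D _
    exact (Polynomial.monic_X_sub_C _).pow _

theorem LBV_stepL_neg {e : ℕ} {A : Crv k r → ℕ} (i : Fin k) (hgood : T.Good)
    (h : T.LBV e A) (hlt : e < A (Sum.inl i) + ∑ D ∈ T.nodes i, nu A i D) :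
    T.LBV e (Function.update A (Sum.inl i) (A (Sum.inl i) + 1)) := by
  refine T.LBV_step (Sum.inl i) h fun G hom hm hL hd => ?_
  refine ⟨0, isHomogeneous_zero _ _ _, fun D => zero_mem _, fun D' hD' => ?_⟩
  obtain ⟨rho, h1, h2, h3, h4⟩ := T.line_data i hgood ⟨D', T.mem_nodes.mpr hD'⟩ G hom hm hL hd
  have h5 : rho = 0 := by
    by_contra h0
    have h6 := Polynomial.natDegree_le_of_dvd h3 h0
    rw [natDegree_prod_nodes] at h6
    have := h1 h0
    omega
  have h7 := h4 0 (isHomogeneous_zero _ _ _) (by rw [map_zero, h5]) D' hD'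
  rwa [mul_zero] at h7

theorem tri_uniq {i j : Fin k} (hij : i ≠ j) {q q' : Fin r} (hi : i ∈ T.tri q) (hj : j ∈ T.tri q)
    (hi' : i ∈ T.tri q') (hj' : j ∈ T.tri q') : q = q' :=
  Finset.card_le_one.mp (T.cnt i j hij) q (by simp [hi, hj]) q' (by simp [hi', hj'])

open Classical in
/-- The node of line `i` on line `j`. -/
def nd (i j : Fin k) : Crv k r :=
  if h : ∃ q, i ∈ T.tri q ∧ j ∈ T.tri q then Sum.inr h.choose else Sum.inl j

theorem nd_inr {i j : Fin k} (hij : i ≠ j) {q : Fin r} (hi : i ∈ T.tri q) (hj : j ∈ T.tri q) :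
    T.nd i j = Sum.inr q := by
  have h : ∃ q, i ∈ T.tri q ∧ j ∈ T.tri q := ⟨q, hi, hj⟩
  rw [nd, dif_pos h]
  congr 1
  exact T.tri_uniq hij h.choose_spec.1 h.choose_spec.2 hi hj

theorem nd_inl {i j : Fin k} (h : T.dbl i j) : T.nd i j = Sum.inl j := by
  rw [nd, dif_neg]
  rintro ⟨q, hq⟩
  exact h.2 q hq

theorem dbl_or {i j : Fin k} (hij : i ≠ j) : T.dbl i j ∨ ∃ q, i ∈ T.tri q ∧ j ∈ T.tri q := by
  by_cases h : ∃ q, i ∈ T.tri q ∧ j ∈ T.tri q
  · exact Or.inr h
  · exact Or.inl ⟨hij, fun q hq => h ⟨q, hq⟩⟩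

theorem nd_mem {i j : Fin k} (hij : i ≠ j) : T.nd i j ∈ T.nodes i := by
  rw [mem_nodes]
  rcases T.dbl_or hij with h | ⟨q, hi, hj⟩
  · rw [T.nd_inl h]; exact h
  · rw [T.nd_inr hij hi hj]; exact hi

theorem tj_eq_tn {i j : Fin k} (hij : i ≠ j) : T.tj i j = T.tn i (T.nd i j) := by
  rcases T.dbl_or hij with h | ⟨q, hi, hj⟩
  · rw [T.nd_inl h]; rfl
  · rw [T.nd_inr hij hi hj]; exact T.tj_eq_tq hij hi hj

/-- The total order of the lines through a node of line `i`, without line `i`. -/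
def fs (A : Fin k → ℕ) (i : Fin k) : Crv k r → ℕ
  | Sum.inl j => A j
  | Sum.inr q => ∑ j ∈ (T.tri q).erase i, A j

open Classical in
theorem fiber_sum (A : Fin k → ℕ) (i : Fin k) {D : Crv k r} (hD : D ∈ T.nodes i) :
    ∑ j ∈ (Finset.univ.erase i).filter (fun j => T.nd i j = D), A j = T.fs A i D := by
  rw [mem_nodes] at hD
  rcases D with j | q
  · have : (Finset.univ.erase i).filter (fun j' => T.nd i j' = Sum.inl j) = {j} := by
      ext j'
      simp only [Finset.mem_filter, Finset.mem_erase, Finset.mem_univ, and_true,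
        Finset.mem_singleton]
      constructor
      · rintro ⟨h1, h2⟩
        rcases T.dbl_or (Ne.symm h1) with h | ⟨q, hi, hj⟩
        · rw [T.nd_inl h] at h2; exact Sum.inl_injective h2
        · rw [T.nd_inr (Ne.symm h1) hi hj] at h2; exact absurd h2 Sum.inr_ne_inl
      · rintro rfl
        exact ⟨hD.1.symm, T.nd_inl hD⟩
    rw [this, Finset.sum_singleton]; rfl
  · have : (Finset.univ.erase i).filter (fun j' => T.nd i j' = Sum.inr q) =
        (T.tri q).erase i := by
      ext j'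
      simp only [Finset.mem_filter, Finset.mem_erase, Finset.mem_univ, and_true]
      constructor
      · rintro ⟨h1, h2⟩
        rcases T.dbl_or (Ne.symm h1) with h | ⟨q', hi, hj⟩
        · rw [T.nd_inl h] at h2; exact absurd h2 Sum.inl_ne_inr
        · rw [T.nd_inr (Ne.symm h1) hi hj] at h2
          have := Sum.inr_injective h2
          subst this
          exact ⟨h1, hj⟩
      · rintro ⟨h1, h2⟩
        exact ⟨h1, T.nd_inr (Ne.symm h1) hD h2⟩
    rw [this]; rfl

theorem sum_erase (A : Fin k → ℕ) (i : Fin k) :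
    ∑ j ∈ Finset.univ.erase i, A j = ∑ D ∈ T.nodes i, T.fs A i D := by
  classical
  rw [← Finset.sum_fiberwise_of_maps_to (g := T.nd i) (t := T.nodes i)
    (fun j hj => T.nd_mem (Finset.ne_of_mem_erase hj).symm)]
  exact Finset.sum_congr rfl fun D hD => T.fiber_sum A i hD

theorem prod_erase (A : Fin k → ℕ) (i : Fin k) :
    ∏ j ∈ Finset.univ.erase i, (Polynomial.X - Polynomial.C (T.tj i j)) ^ A j =
      ∏ D ∈ T.nodes i, (Polynomial.X - Polynomial.C (T.tn i D)) ^ T.fs A i D := by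
  classical
  rw [← Finset.prod_fiberwise_of_maps_to (g := T.nd i) (t := T.nodes i)
    (fun j hj => T.nd_mem (Finset.ne_of_mem_erase hj).symm)]
  refine Finset.prod_congr rfl fun D hD => ?_
  rw [← T.fiber_sum A i hD, ← Finset.prod_pow_eq_pow_sum]
  refine Finset.prod_congr rfl fun j hj => ?_
  rw [Finset.mem_filter, Finset.mem_erase] at hj
  rw [T.tj_eq_tn (Ne.symm hj.1.1), hj.2]

/-- Homogeneous lift of a polynomial from line `i`. -/
def lift (i : Fin k) (m : ℕ) (ρ : Polynomial ℂ) : R3 :=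
  ∑ t ∈ Finset.range (m + 1), C (ρ.coeff t) * (lin (T.dv i) ^ t * lin (T.du i) ^ (m - t))

theorem lift_hom (i : Fin k) (m : ℕ) (ρ : Polynomial ℂ) : (T.lift i m ρ).IsHomogeneous m := by
  refine IsHomogeneous.sum _ _ _ fun t ht => ?_
  have h1 : m = t + (m - t) := by
    have := Finset.mem_range.mp ht; omega
  have h2 := ((lin_isHomogeneous (T.dv i)).pow t).mul ((lin_isHomogeneous (T.du i)).pow (m - t))
  rw [one_mul, one_mul, ← h1] at h2
  exact h2.C_mul _

theorem lift_res (i : Fin k) (m : ℕ) (ρ : Polynomial ℂ) (h : ρ.natDegree ≤ m) :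
    T.res i (T.lift i m ρ) = ρ := by
  have hv : T.res i (lin (T.dv i)) = Polynomial.X := by
    rw [res_lin, T.va, T.vb]; simp
  have hu : T.res i (lin (T.du i)) = 1 := by
    rw [res_lin, T.ua, T.ub]; simp
  rw [lift, map_sum]
  conv_rhs => rw [ρ.as_sum_range' (m + 1) (by omega)]
  refine Finset.sum_congr rfl fun t _ => ?_
  rw [map_mul, map_mul, map_pow, map_pow, hv, hu, one_pow, mul_one]
  have h1 : T.res i (C (ρ.coeff t)) = Polynomial.C (ρ.coeff t) := (T.res i).commutes _
  rw [h1, Polynomial.C_mul_X_pow_eq_monomial]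

theorem prod_L_mem_J (D : Crv k r) (A : Fin k → ℕ) (s : Finset (Fin k)) :
    ∏ j ∈ s, T.L j ^ A j ∈ T.J D (∑ j ∈ s, A j * T.val D j) := by
  induction s using Finset.induction_on with
  | empty => simp [T.J_zero]
  | insert j s hj ih =>
    rw [Finset.prod_insert hj, Finset.sum_insert hj]
    exact T.mul_mem_J (T.L_pow_mem_J D j (A j)) ih

theorem sum_val_inl (A : Fin k → ℕ) (i : Fin k) :
    ∑ j, A j * T.val (Sum.inl i) j = A i := by
  simp [val]

theorem sum_val_inr (A : Fin k → ℕ) (q : Fin r) :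
    ∑ j, A j * T.val (Sum.inr q) j = ∑ j ∈ T.tri q, A j := by
  simp [val, Finset.sum_ite_mem]

theorem LBV_stepL_surj {e : ℕ} {A : Crv k r → ℕ} (i : Fin k) (hgood : T.Good)
    (h : T.LBV e A)
    (hq : ∀ q, i ∈ T.tri q → A (Sum.inr q) = ∑ j ∈ T.tri q, A (Sum.inl j))
    (hle : ∀ q, A (Sum.inr q) ≤ ∑ j ∈ T.tri q, A (Sum.inl j)) :
    T.LBV e (Function.update A (Sum.inl i) (A (Sum.inl i) + 1)) := by
  refine T.LBV_step (Sum.inl i) h fun G hom hm hL hd => ?_
  by_cases hne : (T.nodes i).Nonempty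
  swap
  · refine ⟨0, isHomogeneous_zero _ _ _, fun D => zero_mem _, fun D' hD' => ?_⟩
    exact absurd ⟨D', T.mem_nodes.mpr hD'⟩ hne
  obtain ⟨rho, h1, h2, h3, h4⟩ := T.line_data i hgood hne G hom hm hL hd
  by_cases hr : rho = 0
  · refine ⟨0, isHomogeneous_zero _ _ _, fun D => zero_mem _, fun D' hD' => ?_⟩
    have h7 := h4 0 (isHomogeneous_zero _ _ _) (by rw [map_zero, hr]) D' hD'
    rwa [mul_zero] at h7
  set B : Fin k → ℕ := fun j => A (Sum.inl j) with hB
  have hnu : ∀ D ∈ T.nodes i, nu A i D = T.fs B i D := by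
    intro D hD
    rw [mem_nodes] at hD
    rcases D with j | q
    · rfl
    · change i ∈ T.tri q at hD
      have h5 : A (Sum.inr q) = ∑ j ∈ T.tri q, A (Sum.inl j) := hq q hD
      have h6 : A (Sum.inl i) + ∑ j ∈ (T.tri q).erase i, A (Sum.inl j) =
          ∑ j ∈ T.tri q, A (Sum.inl j) :=
        Finset.add_sum_erase (T.tri q) (fun j => A (Sum.inl j)) hD
      change A (Sum.inr q) - A (Sum.inl i) = ∑ j ∈ (T.tri q).erase i, A (Sum.inl j)
      omega
  have hAe := h1 hr
  have hprod : (∏ D ∈ T.nodes i, (Polynomial.X - Polynomial.C (T.tn i D)) ^ nu A i D) =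
      ∏ j ∈ Finset.univ.erase i, (Polynomial.X - Polynomial.C (T.tj i j)) ^ B j := by
    rw [prod_erase]
    exact Finset.prod_congr rfl fun D hD => by rw [hnu D hD]
  have hdeg : (∏ D ∈ T.nodes i, (Polynomial.X - Polynomial.C (T.tn i D)) ^ nu A i D).natDegree =
      ∑ j ∈ Finset.univ.erase i, B j := by
    rw [natDegree_prod_nodes, sum_erase]
    exact Finset.sum_congr rfl fun D hD => hnu D hD
  obtain ⟨ρ1, hρ1⟩ := h3
  have hρ10 : ρ1 ≠ 0 := by
    rintro rfl
    rw [mul_zero] at hρ1; exact hr hρ1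
  have hp0 : (∏ D ∈ T.nodes i, (Polynomial.X - Polynomial.C (T.tn i D)) ^ nu A i D) ≠ 0 := by
    intro h0
    rw [h0, zero_mul] at hρ1; exact hr hρ1
  have hdeg2 := Polynomial.natDegree_mul hp0 hρ10
  rw [← hρ1, hdeg] at hdeg2
  set c : ℂ := ∏ j ∈ Finset.univ.erase i, (T.f j ⬝ᵥ T.pb i) ^ B j with hc
  have hc0 : c ≠ 0 := Finset.prod_ne_zero_iff.mpr fun j hj =>
    pow_ne_zero _ (T.fjb i j (Finset.ne_of_mem_erase hj).symm)
  have hresprod : T.res i (∏ j ∈ Finset.univ.erase i, T.L j ^ B j) = Polynomial.C c *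
      ∏ j ∈ Finset.univ.erase i, (Polynomial.X - Polynomial.C (T.tj i j)) ^ B j := by
    rw [map_prod, hc, map_prod, ← Finset.prod_mul_distrib]
    refine Finset.prod_congr rfl fun j hj => ?_
    rw [map_pow, T.res_L (Finset.ne_of_mem_erase hj).symm, mul_pow, map_pow]
  set m' := e - ∑ j, B j with hm'
  have hsum : B i + ∑ j ∈ Finset.univ.erase i, B j = ∑ j, B j :=
    Finset.add_sum_erase _ _ (Finset.mem_univ i)
  have hle2 : ∑ j, B j ≤ e := by
    have : B i = A (Sum.inl i) := rfl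
    omega
  set F := T.lift i m' (Polynomial.C c⁻¹ * ρ1) with hF
  have hFres : T.res i F = Polynomial.C c⁻¹ * ρ1 := by
    apply T.lift_res
    refine (Polynomial.natDegree_C_mul_le _ _).trans ?_
    have : B i = A (Sum.inl i) := rfl
    omega
  set P2 := (∏ j ∈ Finset.univ.erase i, T.L j ^ B j) * F with hP2
  have hhom1 : (∏ j ∈ Finset.univ.erase i, T.L j ^ B j).IsHomogeneous
      (∑ j ∈ Finset.univ.erase i, B j) := by
    refine IsHomogeneous.prod _ _ _ fun j _ => ?_
    have := (T.L_hom j).pow (B j)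
    rwa [one_mul] at this
  have hP2hom : P2.IsHomogeneous (e - A (Sum.inl i)) := by
    have h5 := hhom1.mul (T.lift_hom i m' (Polynomial.C c⁻¹ * ρ1))
    have : B i = A (Sum.inl i) := rfl
    have h6 : (∑ j ∈ Finset.univ.erase i, B j) + m' = e - A (Sum.inl i) := by omega
    rw [h6] at h5
    exact h5
  have hP2res : T.res i P2 = rho := by
    rw [hP2, map_mul, hresprod, hFres, hρ1, hprod]
    have : Polynomial.C c * Polynomial.C c⁻¹ = 1 := by
      rw [← map_mul, mul_inv_cancel₀ hc0, map_one]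
    linear_combination (∏ j ∈ Finset.univ.erase i,
      (Polynomial.X - Polynomial.C (T.tj i j)) ^ B j) * ρ1 * this
  refine ⟨T.L i ^ A (Sum.inl i) * P2, ?_, ?_, fun D' hD' => h4 P2 hP2hom hP2res D' hD'⟩
  · have h5 := ((T.L_hom i).pow (A (Sum.inl i))).mul hP2hom
    have h6 : 1 * A (Sum.inl i) + (e - A (Sum.inl i)) = e := by omega
    rwa [h6] at h5
  · intro D
    have h5 : T.L i ^ A (Sum.inl i) * P2 = (∏ j, T.L j ^ B j) * F := by
      rw [hP2, ← Finset.mul_prod_erase _ _ (Finset.mem_univ i)]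
      ring
    rw [h5]
    have h6 := T.prod_L_mem_J D B Finset.univ
    refine Ideal.mul_mem_right _ _ (T.J_mono D ?_ h6)
    rcases D with j | q
    · rw [sum_val_inl]
    · rw [sum_val_inr]; exact hle q

end TConf

end

end Pool.Agent.H94_hk
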