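import Pool.Agent.H94_hk.Classes
import Pool.Agent.H94_hk.Kummer

/-!
# Monomials in the roots, and the coordinate rings of the charts
-/

namespace Pool.Agent.H94_hk

open MvPolynomial

noncomputable section

/-- Monomials with integer exponents. -/
def zm {k : ℕ} (z : Fin k → KK) (e : Fin k → ℤ) : KK := ∏ i, z i ^ e i

section

variable {k : ℕ} {z : Fin k → KK}

theorem zm_zero : zm z 0 = 1 := by simp [zm]

theorem zm_add (hz0 : ∀ i, z i ≠ 0) (e e' : Fin k → ℤ) : zm z (e + e') = zm z e * zm z e' := by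
  rw [zm, zm, zm, ← Finset.prod_mul_distrib]
  exact Finset.prod_congr rfl fun i _ => zpow_add₀ (hz0 i) _ _

theorem zm_ne_zero (hz0 : ∀ i, z i ≠ 0) (e : Fin k → ℤ) : zm z e ≠ 0 :=
  Finset.prod_ne_zero_iff.mpr fun i _ => zpow_ne_zero _ (hz0 i)

/-- The exponent vector of a ratio. -/
def rv (i j : Fin k) : Fin k → ℤ := Pi.single i 1 - Pi.single j 1

theorem zm_single (i : Fin k) : zm z (Pi.single i 1) = z i := by
  rw [zm, Finset.prod_eq_single i]
  · simp
  · intro j _ hj
    rw [Pi.single_eq_of_ne hj, zpow_zero]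
  · intro h; exact absurd (Finset.mem_univ i) h

theorem zm_rv (hz0 : ∀ i, z i ≠ 0) (i j : Fin k) : zm z (rv i j) = z i / z j := by
  rw [eq_div_iff (hz0 j)]
  have h : zm z (rv i j + Pi.single j 1) = z i := by
    rw [rv, sub_add_cancel, zm_single]
  rw [← h, zm_add hz0, zm_single]

theorem neg_rv (i j : Fin k) : - rv i j = rv j i := by
  rw [rv, rv, neg_sub]

theorem sum_rv (i j : Fin k) : ∑ l, rv i j l = 0 := by
  simp [rv, Finset.sum_sub_distrib, Pi.single_apply]

theorem ratioAlg_mono {R R' : Set (Fin k × Fin k)} (h : R ⊆ R') :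
    ratioAlg z R ≤ ratioAlg z R' := by
  apply Algebra.adjoin_mono
  rintro f ⟨ab, hab, rfl⟩
  exact ⟨ab, h hab, rfl⟩

theorem ratio_mem {R : Set (Fin k × Fin k)} {i j : Fin k} (h : (i, j) ∈ R) :
    z i / z j ∈ ratioAlg z R := Algebra.subset_adjoin ⟨(i, j), h, rfl⟩

theorem ratioAlg_sup (R R' : Set (Fin k × Fin k)) :
    ratioAlg z R ⊔ ratioAlg z R' = ratioAlg z (R ∪ R') := by
  rw [ratioAlg, ratioAlg, ratioAlg, ← Algebra.adjoin_union]
  congr 1
  ext f
  constructor
  · rintro (⟨ab, hab, rfl⟩ | ⟨ab, hab, rfl⟩)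
    · exact ⟨ab, Or.inl hab, rfl⟩
    · exact ⟨ab, Or.inr hab, rfl⟩
  · rintro ⟨ab, hab | hab, rfl⟩
    · exact Or.inl ⟨ab, hab, rfl⟩
    · exact Or.inr ⟨ab, hab, rfl⟩

theorem ratioAlg_le_span (hz0 : ∀ i, z i ≠ 0) {R : Set (Fin k × Fin k)}
    (M : AddSubmonoid (Fin k → ℤ)) (hR : ∀ ab ∈ R, rv ab.1 ab.2 ∈ M) {g : KK}
    (hg : g ∈ ratioAlg z R) : g ∈ Submodule.span ℂ (zm z '' (M : Set (Fin k → ℤ))) := by
  have h1 : g ∈ Subalgebra.toSubmodule (ratioAlg z R) := hg
  rw [ratioAlg, Algebra.adjoin_eq_span] at h1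
  refine Submodule.span_mono ?_ h1
  intro x hx
  refine Submonoid.closure_induction (motive := fun x _ => x ∈ zm z '' (M : Set (Fin k → ℤ)))
    ?_ ?_ ?_ hx
  · rintro _ ⟨ab, hab, rfl⟩
    exact ⟨_, hR ab hab, zm_rv hz0 _ _⟩
  · exact ⟨0, M.zero_mem, zm_zero⟩
  · rintro _ _ _ _ ⟨e, he, rfl⟩ ⟨e', he', rfl⟩
    exact ⟨e + e', M.add_mem he he', zm_add hz0 _ _⟩

/-- The exponents of the monomials in a ratio algebra. -/
def expMon (hz0 : ∀ i, z i ≠ 0) (B : Subalgebra ℂ KK) : AddSubmonoid (Fin k → ℤ) where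
  carrier := {e | zm z e ∈ B}
  zero_mem' := by
    change zm z 0 ∈ B
    rw [zm_zero]; exact B.one_mem
  add_mem' := by
    intro a b ha hb
    change zm z (a + b) ∈ B
    rw [zm_add hz0]
    exact B.mul_mem ha hb

theorem rv_mem (hz0 : ∀ i, z i ≠ 0) {R : Set (Fin k × Fin k)} {i j : Fin k} (h : (i, j) ∈ R) :
    rv i j ∈ expMon hz0 (ratioAlg z R) := by
  change zm z (rv i j) ∈ ratioAlg z R
  rw [zm_rv hz0]
  exact ratio_mem h

end

theorem zsmul_mem_of {k : ℕ} {N : AddSubmonoid (Fin k → ℤ)} {v : Fin k → ℤ} {m : ℤ} (h : v ∈ N)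
    (h' : 0 ≤ m ∨ -v ∈ N) : m • v ∈ N := by
  rcases le_or_gt 0 m with h0 | h0
  · lift m to ℕ using h0
    rw [natCast_zsmul]
    exact N.nsmul_mem h m
  · have h1 : -v ∈ N := by
      rcases h' with h' | h'
      · omega
      · exact h'
    have h2 : m • v = (-m) • (-v) := by simp
    rw [h2]
    have h3 : 0 ≤ -m := by omega
    generalize -m = m' at h3
    lift m' to ℕ using h3
    rw [natCast_zsmul]
    exact N.nsmul_mem h1 m'

namespace TConf

variable {k r : ℕ} (T : TConf k r)

/-- The order of a monomial along a curve. -/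
def ord (D : Crv k r) (e : Fin k → ℤ) : ℤ := ∑ i, (T.val D i : ℤ) * e i

theorem ord_add (D : Crv k r) (e e' : Fin k → ℤ) : T.ord D (e + e') = T.ord D e + T.ord D e' := by
  simp [ord, mul_add, Finset.sum_add_distrib]

theorem ord_zero (D : Crv k r) : T.ord D 0 = 0 := by simp [ord]

theorem ord_rv (D : Crv k r) (i j : Fin k) : T.ord D (rv i j) = (T.val D i : ℤ) - T.val D j := by
  simp [ord, rv, mul_sub, Finset.sum_sub_distrib, Pi.single_apply]

theorem ord_inl (i : Fin k) (e : Fin k → ℤ) : T.ord (Sum.inl i) e = e i := by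
  simp [ord, val]

theorem ord_inr (q : Fin r) (e : Fin k → ℤ) : T.ord (Sum.inr q) e = ∑ i ∈ T.tri q, e i := by
  simp [ord, val, Finset.sum_ite_mem]

/-- Exponents of sum zero with nonnegative order along `D`. -/
def Mon (D : Crv k r) : AddSubmonoid (Fin k → ℤ) where
  carrier := {e | ∑ i, e i = 0 ∧ 0 ≤ T.ord D e}
  zero_mem' := by
    refine ⟨by simp, ?_⟩
    rw [ord_zero]
  add_mem' := by
    rintro a b ⟨ha, ha'⟩ ⟨hb, hb'⟩
    refine ⟨?_, ?_⟩
    · simp [Finset.sum_add_distrib, ha, hb]
    · rw [ord_add]; omega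

/-- The standard chart at the node of two curves. -/
def chart : Crv k r → Crv k r → Set (Fin k × Fin k)
  | Sum.inl i, Sum.inl j => {ab | ab.2 ≠ i ∧ ab.2 ≠ j}
  | Sum.inl i, Sum.inr q => {ab | ab.2 ∉ T.tri q ∨ (ab.1 ∈ T.tri q ∧ ab.2 ∈ T.tri q ∧ ab.2 ≠ i)}
  | Sum.inr q, Sum.inl i => {ab | ab.2 ∉ T.tri q ∨ (ab.1 ∈ T.tri q ∧ ab.2 ∈ T.tri q ∧ ab.2 ≠ i)}
  | Sum.inr _, Sum.inr _ => ∅

theorem chart_symm {D D' : Crv k r} : T.chart D D' = T.chart D' D := by
  rcases D with i | q <;> rcases D' with j | q'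
  · ext ab
    simp only [chart, Set.mem_ofPred_eq]
    tauto
  · rfl
  · rfl
  · rfl

theorem chart_val {D D' : Crv k r} (h : T.meet D D') {ab : Fin k × Fin k}
    (hab : ab ∈ T.chart D D') : T.val D ab.2 ≤ T.val D ab.1 := by
  rcases D with i | q <;> rcases D' with j | q'
  · simp only [chart, Set.mem_ofPred_eq] at hab
    simp only [val]
    rw [if_neg (Ne.symm hab.1)]
    exact Nat.zero_le _
  · simp only [chart, Set.mem_ofPred_eq] at hab
    simp only [val]
    have h0 : ab.2 ≠ i := by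
      rcases hab with hab | hab
      · rintro rfl; exact hab h
      · exact hab.2.2
    rw [if_neg (Ne.symm h0)]
    exact Nat.zero_le _
  · simp only [chart, Set.mem_ofPred_eq] at hab
    simp only [val]
    rcases hab with hab | hab
    · rw [if_neg hab]; exact Nat.zero_le _
    · rw [if_pos hab.1, if_pos hab.2.1]
  · exact absurd h id

/-- All ratios that are regular along `D` are regular on one of two charts meeting `D`. -/
theorem chart_union {D D' D'' : Crv k r} (h : T.meet D D') (h' : T.meet D D'') (hne : D' ≠ D'')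
    {i j : Fin k} (hij : i ≠ j) (hv : T.val D j ≤ T.val D i) :
    (i, j) ∈ T.chart D D' ∪ T.chart D D'' := by
  rcases D with l | q
  · have hjl : j ≠ l := by
      rintro rfl
      simp only [val, if_true] at hv
      rw [if_neg (Ne.symm hij)] at hv
      omega
    have key : ∀ E, T.meet (Sum.inl l) E → T.nd l j ≠ E → (i, j) ∈ T.chart (Sum.inl l) E := by
      intro E hE hne
      rcases E with j' | q'
      · simp only [chart, Set.mem_ofPred_eq]
        refine ⟨hjl, ?_⟩
        rintro rfl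
        exact hne (T.nd_inl hE)
      · simp only [chart, Set.mem_ofPred_eq]
        refine Or.inl fun hj => hne ?_
        exact T.nd_inr hjl.symm hE hj
    by_cases h1 : T.nd l j = D'
    · right
      apply key _ h'
      rw [h1]; exact hne
    · left
      exact key _ h h1
  · rcases D' with l' | _
    swap
    · exact absurd h id
    rcases D'' with l'' | _
    swap
    · exact absurd h' id
    have hll : l' ≠ l'' := fun h0 => hne (by rw [h0])
    simp only [chart, Set.mem_union, Set.mem_ofPred_eq]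
    by_cases hj : j ∈ T.tri q
    · have hi : i ∈ T.tri q := by
        by_contra hi
        simp only [val, if_pos hj, if_neg hi] at hv
        omega
      by_cases hjl : j = l'
      · right; right
        refine ⟨hi, hj, ?_⟩
        rw [hjl]; exact hll
      · left; right
        exact ⟨hi, hj, hjl⟩
    · left; left
      exact hj

/-- Completeness conditions for the description of the charts. -/
structure Full : Prop where
  ok : T.Ok
  three : ∀ q, 3 ≤ (T.tri q).card
  out : ∀ q, ∃ w, w ∉ T.tri q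
  k3 : 3 ≤ k
  span : ∀ v : Fin 3 → ℂ, ∃ b : Fin k → ℂ, v = ∑ l, b l • T.f l

variable {T}

theorem Full.exists_other (hT : T.Full) {q : Fin r} (i : Fin k) : ∃ c ∈ T.tri q, c ≠ i := by
  have h : 1 < (T.tri q).card := by have := hT.three q; omega
  obtain ⟨c, hc, hci⟩ := Finset.exists_mem_ne h i
  exact ⟨c, hc, hci⟩

theorem Full.exists_third (hT : T.Full) (i j : Fin k) : ∃ w, w ≠ i ∧ w ≠ j := by
  have h : 0 < ((Finset.univ : Finset (Fin k)) \ {i, j}).card := by
    have h1 := Finset.le_card_sdiff ({i, j} : Finset (Fin k)) Finset.univ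
    have h2 : ({i, j} : Finset (Fin k)).card ≤ 2 := Finset.card_le_two
    have := hT.k3
    rw [Finset.card_univ, Fintype.card_fin] at h1
    omega
  obtain ⟨w, hw⟩ := Finset.card_pos.mp h
  rw [Finset.mem_sdiff, Finset.mem_insert, Finset.mem_singleton] at hw
  exact ⟨w, fun h => hw.2 (Or.inl h), fun h => hw.2 (Or.inr h)⟩

theorem Full.zm_mem (hT : T.Full) {z : Fin k → KK} (hz0 : ∀ i, z i ≠ 0) {D D' : Crv k r}
    (h : T.meet D D') {e : Fin k → ℤ} (hs : ∑ i, e i = 0) (h1 : 0 ≤ T.ord D e)
    (h2 : 0 ≤ T.ord D' e) : zm z e ∈ ratioAlg z (T.chart D D') := by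
  have main : ∀ (q : Fin r) (i : Fin k), i ∈ T.tri q → 0 ≤ T.ord (Sum.inl i) e →
      0 ≤ T.ord (Sum.inr q) e → zm z e ∈ ratioAlg z (T.chart (Sum.inl i) (Sum.inr q)) := by
    intro q i hi h1 h2
    rw [ord_inl] at h1
    rw [ord_inr] at h2
    obtain ⟨w, hw⟩ := hT.out q
    obtain ⟨c, hc, hci⟩ := hT.exists_other (q := q) i
    let g : Fin k → Fin k := fun l => if l ∈ T.tri q then c else w
    have hg : ∀ l, rv l (g l) ∈ expMon hz0 (ratioAlg z (T.chart (Sum.inl i) (Sum.inr q))) := by
      intro l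
      apply rv_mem
      simp only [g, chart, Set.mem_ofPred_eq]
      split_ifs with hl
      · right; exact ⟨hl, hc, hci⟩
      · left; exact hw
    have hg' : ∀ l, l ≠ i → -rv l (g l) ∈
        expMon hz0 (ratioAlg z (T.chart (Sum.inl i) (Sum.inr q))) := by
      intro l hli
      rw [neg_rv]
      apply rv_mem
      simp only [g, chart, Set.mem_ofPred_eq]
      split_ifs with hl
      · right; exact ⟨hc, hl, hli⟩
      · left; exact hl
    have heq : e = ∑ l, e l • rv l (g l) + (∑ l ∈ T.tri q, e l) • rv c w := by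
      have ho : ∑ l ∈ (T.tri q)ᶜ, e l = -∑ l ∈ T.tri q, e l := by
        have := Finset.sum_add_sum_compl (T.tri q) e
        omega
      have h3 : ∑ l, e l • rv l (g l) = e - ((∑ l ∈ T.tri q, e l) • (Pi.single c 1 : Fin k → ℤ) -
          (∑ l ∈ T.tri q, e l) • (Pi.single w 1 : Fin k → ℤ)) := by
        simp only [rv, smul_sub, Finset.sum_sub_distrib]
        congr 1
        · funext m
          simp [Finset.sum_apply, Pi.single_apply]
        · rw [← Finset.sum_add_sum_compl (T.tri q)]
          have h4 : ∑ l ∈ T.tri q, e l • (Pi.single (g l) 1 : Fin k → ℤ) =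
              (∑ l ∈ T.tri q, e l) • (Pi.single c 1 : Fin k → ℤ) := by
            rw [Finset.sum_smul]
            refine Finset.sum_congr rfl fun l hl => ?_
            simp only [g, if_pos hl]
          have h5 : ∑ l ∈ (T.tri q)ᶜ, e l • (Pi.single (g l) 1 : Fin k → ℤ) =
              -((∑ l ∈ T.tri q, e l) • (Pi.single w 1 : Fin k → ℤ)) := by
            rw [← neg_smul, ← ho, Finset.sum_smul]
            refine Finset.sum_congr rfl fun l hl => ?_
            rw [Finset.mem_compl] at hl
            simp only [g, if_neg hl]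
          rw [h4, h5, sub_eq_add_neg]
      rw [h3, rv, smul_sub]
      abel
    change e ∈ expMon hz0 (ratioAlg z (T.chart (Sum.inl i) (Sum.inr q)))
    rw [heq]
    refine AddSubmonoid.add_mem _ (AddSubmonoid.sum_mem _ fun l _ => ?_) ?_
    · by_cases hl : l = i
      · rw [hl]
        exact zsmul_mem_of (hg i) (Or.inl h1)
      · exact zsmul_mem_of (hg l) (Or.inr (hg' l hl))
    · refine zsmul_mem_of (rv_mem hz0 ?_) (Or.inl h2)
      simp only [chart, Set.mem_ofPred_eq]
      left; exact hw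
  rcases D with i | q <;> rcases D' with j | q'
  · rw [ord_inl] at h1 h2
    obtain ⟨w, hwi, hwj⟩ := hT.exists_third i j
    have hg : ∀ l, rv l w ∈ expMon hz0 (ratioAlg z (T.chart (Sum.inl i) (Sum.inl j))) := by
      intro l
      apply rv_mem
      simp only [chart, Set.mem_ofPred_eq]
      exact ⟨hwi, hwj⟩
    have heq : e = ∑ l, e l • rv l w := by
      simp only [rv, smul_sub, Finset.sum_sub_distrib]
      rw [← Finset.sum_smul, hs, zero_smul, sub_zero]
      funext m
      simp [Finset.sum_apply, Pi.single_apply]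
    change e ∈ expMon hz0 (ratioAlg z (T.chart (Sum.inl i) (Sum.inl j)))
    rw [heq]
    refine AddSubmonoid.sum_mem _ fun l _ => ?_
    by_cases hl : l = i ∨ l = j
    · refine zsmul_mem_of (hg l) (Or.inl ?_)
      rcases hl with rfl | rfl
      · exact h1
      · exact h2
    · refine zsmul_mem_of (hg l) (Or.inr ?_)
      rw [neg_rv]
      apply rv_mem
      simp only [chart, Set.mem_ofPred_eq]
      tauto
  · exact main q' i h h1 h2
  · rw [T.chart_symm]
    exact main q j h h2 h1
  · exact absurd h id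

end TConf

end

end Pool.Agent.H94_hk
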