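import Pool.Agent.H94_hk.Classes

/-!
# The non-Fano arrangement
-/

namespace Pool.Agent.H94_hk

open MvPolynomial

noncomputable section

/-- Integer scalar product. -/
def dotz (a b : Fin 3 → ℤ) : ℤ := a 0 * b 0 + a 1 * b 1 + a 2 * b 2

/-- Cast of an integer vector. -/
def zc (a : Fin 3 → ℤ) : Fin 3 → ℂ := fun j => (a j : ℂ)

theorem zc_dot (a b : Fin 3 → ℤ) : zc a ⬝ᵥ zc b = (dotz a b : ℂ) := by
  simp [dotProduct, Fin.sum_univ_three, zc, dotz]

/-- The forms `x, y, z, x - y, x - z, y - z, x - y - z`. -/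
def nf : Fin 7 → Fin 3 → ℤ :=
  ![![1, 0, 0], ![0, 1, 0], ![0, 0, 1], ![1, -1, 0], ![1, 0, -1], ![0, 1, -1], ![1, -1, -1]]

/-- The triple points. -/
def npt : Fin 6 → Fin 3 → ℤ :=
  ![![0, 0, 1], ![0, 1, 0], ![1, 0, 0], ![1, 1, 1], ![1, 1, 0], ![1, 0, 1]]

/-- The lines through the triple points, ordered so that the first form is the sum of the
other two. -/
def nT : Fin 6 → Fin 3 → Fin 7 :=
  ![![0, 1, 3], ![0, 2, 4], ![1, 2, 5], ![4, 3, 5], ![3, 2, 6], ![4, 1, 6]]

/-- The lines through the triple points. -/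
def ntri (q : Fin 6) : Finset (Fin 7) := {nT q 0, nT q 1, nT q 2}

def nkap : Fin 6 → Fin 3 → ℤ :=
  ![![0, 0, 1], ![0, 1, 0], ![1, 0, 0], ![1, 0, 0], ![1, 0, 0], ![1, 0, 0]]

def npa : Fin 7 → Fin 3 → ℤ :=
  ![![0, 0, 1], ![0, 0, 1], ![0, 1, 0], ![0, 0, 1], ![0, 1, 0], ![1, 0, 0], ![1, 0, 1]]

def npb : Fin 7 → Fin 3 → ℤ :=
  ![![0, 1, 3], ![1, 0, 3], ![1, 3, 0], ![1, 1, 3], ![1, 3, 1], ![3, 1, 1], ![4, 1, 3]]

def npc : Fin 7 → Fin 3 → ℤ :=
  ![![1, 0, 0], ![0, 1, 0], ![0, 0, 1], ![1, 0, 0], ![1, 0, 0], ![0, 1, 0], ![1, 0, 0]]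

def ndu : Fin 7 → Fin 3 → ℤ :=
  ![![0, -3, 1], ![-3, 0, 1], ![-3, 1, 0], ![0, -3, 1], ![0, 1, -3], ![1, 0, -3], ![0, -3, 1]]

def ndv : Fin 7 → Fin 3 → ℤ :=
  ![![0, 1, 0], ![1, 0, 0], ![1, 0, 0], ![0, 1, 0], ![0, 0, 1], ![0, 0, 1], ![0, 1, 0]]

set_option maxRecDepth 100000 in
/-- The data of the non-Fano arrangement. -/
def NF : TConf 7 6 where
  f i := zc (nf i)
  tri := ntri
  pt q := zc (npt q)
  kap q := zc (nkap q)
  pa i := zc (npa i)
  pb i := zc (npb i)
  pc i := zc (npc i)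
  du i := zc (ndu i)
  dv i := zc (ndv i)
  mem_tri i q := by
    rw [zc_dot, Int.cast_eq_zero]
    revert i q; decide
  kap_pt q := by
    rw [zc_dot]
    have : ∀ q, dotz (nkap q) (npt q) = 1 := by decide
    rw [this, Int.cast_one]
  decomp i j := by
    have h : ∀ i j m, (if m = j then (1 : ℤ) else 0) =
      npc i j * nf i m + npa i j * ndu i m + npb i j * ndv i m := by decide
    funext m
    have h1 := h i j m
    rw [Pi.single_apply]
    simp only [Pi.add_apply, Pi.smul_apply, smul_eq_mul, zc]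
    have h2 := congrArg (Int.cast : ℤ → ℂ) h1
    push_cast at h2
    exact h2
  fa i := by
    rw [zc_dot]
    have : ∀ i, dotz (nf i) (npa i) = 0 := by decide
    rw [this, Int.cast_zero]
  fb i := by
    rw [zc_dot]
    have : ∀ i, dotz (nf i) (npb i) = 0 := by decide
    rw [this, Int.cast_zero]
  ua i := by
    rw [zc_dot]
    have : ∀ i, dotz (ndu i) (npa i) = 1 := by decide
    rw [this, Int.cast_one]
  ub i := by
    rw [zc_dot]
    have : ∀ i, dotz (ndu i) (npb i) = 0 := by decide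
    rw [this, Int.cast_zero]
  va i := by
    rw [zc_dot]
    have : ∀ i, dotz (ndv i) (npa i) = 0 := by decide
    rw [this, Int.cast_zero]
  vb i := by
    rw [zc_dot]
    have : ∀ i, dotz (ndv i) (npb i) = 1 := by decide
    rw [this, Int.cast_one]
  fc i := by
    rw [zc_dot]
    have : ∀ i, dotz (nf i) (npc i) = 1 := by decide
    rw [this, Int.cast_one]
  fjb i j := by
    rw [zc_dot, Int.cast_ne_zero]
    revert i j; decide
  du_pt i q := by
    rw [zc_dot, Int.cast_ne_zero]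
    revert i q; decide
  cnt := by decide

/-- Numerators of the node parameters. -/
def nnum (i : Fin 7) : Crv 7 6 → ℤ
  | Sum.inl j => -dotz (nf j) (npa i)
  | Sum.inr q => dotz (ndv i) (npt q)

/-- Denominators of the node parameters. -/
def nden (i : Fin 7) : Crv 7 6 → ℤ
  | Sum.inl j => dotz (nf j) (npb i)
  | Sum.inr q => dotz (ndu i) (npt q)

theorem NF_tn (i : Fin 7) (D : Crv 7 6) : NF.tn i D = (nnum i D : ℂ) / (nden i D : ℂ) := by
  rcases D with j | q
  · simp only [TConf.tn, TConf.tj, nnum, nden]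
    change -(zc (nf j) ⬝ᵥ zc (npa i)) / (zc (nf j) ⬝ᵥ zc (npb i)) = _
    rw [zc_dot, zc_dot]; push_cast; rfl
  · simp only [TConf.tn, TConf.tq, nnum, nden]
    change (zc (ndv i) ⬝ᵥ zc (npt q)) / (zc (ndu i) ⬝ᵥ zc (npt q)) = _
    rw [zc_dot, zc_dot]

/-- Two curves of the non-Fano arrangement meet (decidable form). -/
def nmeet : Crv 7 6 → Crv 7 6 → Bool
  | Sum.inl i, Sum.inl j => (i, j) ∈ ([(0, 5), (5, 0), (0, 6), (6, 0), (5, 6), (6, 5)] :
      List (Fin 7 × Fin 7))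
  | Sum.inl i, Sum.inr q => decide (i ∈ ntri q)
  | Sum.inr q, Sum.inl i => decide (i ∈ ntri q)
  | Sum.inr _, Sum.inr _ => false

set_option maxRecDepth 100000 in
theorem NF_meet (D D' : Crv 7 6) : NF.meet D D' ↔ nmeet D D' = true := by
  rcases D with i | q <;> rcases D' with j | q'
  · change (i ≠ j ∧ ∀ q, ¬ (i ∈ ntri q ∧ j ∈ ntri q)) ↔ _
    revert i j; decide
  · change i ∈ ntri q' ↔ _
    simp [nmeet]
  · change j ∈ ntri q ↔ _
    simp [nmeet]
  · change False ↔ _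
    simp [nmeet]

set_option maxRecDepth 100000 in
theorem NF_ok : NF.Ok := by
  refine ⟨?_, ?_⟩
  · intro i D D' h h' heq
    rw [NF_meet] at h h'
    rw [NF_tn, NF_tn] at heq
    have hden : ∀ i D, nmeet (Sum.inl i) D = true → nden i D ≠ 0 := by decide
    have h1 := hden i D h
    have h2 := hden i D' h'
    rw [div_eq_div_iff (by exact_mod_cast h1) (by exact_mod_cast h2)] at heq
    have h3 : nnum i D * nden i D' = nnum i D' * nden i D := by exact_mod_cast heq
    clear heq h1 h2 hden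
    revert h3 h h'
    revert i D D'
    decide
  · change ∀ q, (ntri q).Nonempty
    intro q
    exact ⟨nT q 0, by simp [ntri]⟩

end

end Pool.Agent.H94_hk
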