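import Pool.Agent.H94_hk.Solve4

/-!
# Solving the cocycle equations: trivial character, and the general statement
-/

namespace Pool.Agent.H94_hk

open MvPolynomial

noncomputable section

/-- The orders for the trivial character. -/
def A0 (N : ℕ) : Crv 7 6 → ℕ
  | Sum.inl _ => N
  | Sum.inr _ => 3 * N

theorem LBV_A0 : ∃ N0, ∀ N ≥ N0, NF.LBV (7 * N) (A0 N) := by
  obtain ⟨b, hb⟩ := NF.LBVc_zero NF_ok 0
  refine ⟨b, fun N hN => ?_⟩
  refine hb _ _ (fun i => hN) ?_ (fun q => ?_)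
  · simp [A0]
  · change 3 * N + 0 = ∑ i ∈ ntri q, N
    rw [Finset.sum_const, ntri_card, smul_eq_mul, add_zero]

theorem sum_val (N : ℕ) (D : Crv 7 6) : ∑ l, N * NF.val D l = A0 N D := by
  rcases D with i | q
  · rw [NF.sum_val_inl (fun _ => N)]; rfl
  · rw [NF.sum_val_inr (fun _ => N)]
    change ∑ i ∈ ntri q, N = 3 * N
    rw [Finset.sum_const, ntri_card, smul_eq_mul]

theorem bnd_zero {n N : ℕ} (hn : 2 ≤ n) (i j : Fin 7) (D : Crv 7 6) :
    bnd n N (fun _ => 0) i j D = A0 N D := by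
  rcases D with l | q
  · change N - (if l = i ∨ l = j then fl n (fun _ => 0) l else 0) = N
    have : fl n (fun _ => 0) l = 0 := by
      unfold fl; rw [if_neg (by simp only; omega)]
    rw [this]; simp
  · change 3 * N - (aq (fun _ => 0) q + (if (i ∈ ntri q ↔ j ∈ ntri q) then 0 else 1)) / n =
      3 * N
    have : (aq (fun _ => 0) q + (if (i ∈ ntri q ↔ j ∈ ntri q) then 0 else 1)) / n = 0 := by
      apply Nat.div_eq_of_lt
      simp only [aq]
      split_ifs <;> omega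
    rw [this, Nat.sub_zero]

theorem eval_of_mem_J {q : Fin 6} {f : R3} (h : f ∈ NF.J (Sum.inr q) 1) :
    eval (NF.pt q) f = 0 := by
  rw [TConf.mem_J_inr_iff, pow_one] at h
  have h1 : NF.Iq q ≤ RingHom.ker (eval (NF.pt q)) := by
    rw [TConf.Iq, Ideal.span_le]
    rintro _ ⟨j, rfl⟩
    rw [SetLike.mem_coe, RingHom.mem_ker, TConf.y, map_sub, map_mul, eval_X, eval_C, TConf.kp,
      eval_lin, NF.kap_pt]
    ring
  exact h1 h

theorem solve_zero {n N : ℕ} {G : Crv 7 6 → Crv 7 6 → Fin 7 → R3} (hn : 2 ≤ n)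
    (hG : CharData n N 0 (fun _ => 0) G) (hL : NF.LBV (7 * N) (A0 N)) :
    ∃ P, CharSol n N 0 (fun _ => 0) G P := by
  have hsolve : ∀ i, ∃ P : R3, P.IsHomogeneous (7 * N) ∧ ∀ D D', NF.meet D D' →
      P - (G D D' i - G D D' 0) ∈ NF.J D (A0 N D) := by
    intro i
    refine hL (fun D D' => G D D' i - G D D' 0) (fun D D' hD => ?_) (fun D D' => ?_)
      (fun D D' D'' h1 h2 => ?_)
    · change G D D' i - G D D' 0 = G D' D i - G D' D 0
      rw [hG.sym D D' hD]
    · exact (hG.hom D D' i).sub (hG.hom D D' 0)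
    · have := hG.ord D D' D'' i 0 h1 h2
      rwa [bnd_zero hn] at this
  choose P0 hP0h hP0 using hsolve
  set Q : R3 := ∏ l, NF.L l ^ N with hQ
  have hQ0 : Q ≠ 0 := Finset.prod_ne_zero_iff.mpr fun l _ => pow_ne_zero _ (NF.L_ne_zero l)
  have hQh : Q.IsHomogeneous (7 * N) := by
    have : (∏ l, NF.L l ^ N).IsHomogeneous (∑ _l : Fin 7, N) := by
      refine IsHomogeneous.prod _ _ _ fun l _ => ?_
      have := (NF.L_hom l).pow N
      rwa [one_mul] at this
    simpa using this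
  have hQJ : ∀ D, Q ∈ NF.J D (A0 N D) := by
    intro D
    have h1 := NF.prod_L_mem_J D (fun _ => N) Finset.univ
    rwa [sum_val] at h1
  let δ : Fin 6 → R3 := fun q => NF.L (nT q 0) * P0 (nT q 0) -
    NF.L (nT q 1) * P0 (nT q 1) - NF.L (nT q 2) * P0 (nT q 2)
  have hδh : ∀ q, (δ q).IsHomogeneous (1 + 7 * N) := fun q =>
    (((NF.L_hom _).mul (hP0h _)).sub ((NF.L_hom _).mul (hP0h _))).sub
      ((NF.L_hom _).mul (hP0h _))
  have hδ : ∀ q D D', NF.meet D D' → δ q =
      NF.L (nT q 0) * (P0 (nT q 0) - (G D D' (nT q 0) - G D D' 0)) -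
      NF.L (nT q 1) * (P0 (nT q 1) - (G D D' (nT q 1) - G D D' 0)) -
      NF.L (nT q 2) * (P0 (nT q 2) - (G D D' (nT q 2) - G D D' 0)) := by
    intro q D D' _
    have h1 := hG.rel D D' q
    have h2 := L_sum q
    simp only [δ]
    linear_combination h1 - G D D' 0 * h2
  have hδl : ∀ q l, NF.L l ^ N ∣ δ q := by
    intro q l
    obtain ⟨D', hD'⟩ := exists_meet l
    rw [← TConf.mem_J_inl, hδ q _ D' hD']
    exact sub_mem (sub_mem (Ideal.mul_mem_left _ _ (hP0 _ _ _ hD'))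
      (Ideal.mul_mem_left _ _ (hP0 _ _ _ hD'))) (Ideal.mul_mem_left _ _ (hP0 _ _ _ hD'))
  have hδq : ∀ q, δ q ∈ NF.J (Sum.inr q) (1 + A0 N (Sum.inr q)) := by
    intro q
    have hD' : NF.meet (Sum.inr q) (Sum.inl (nT q 0)) := by
      change nT q 0 ∈ ntri q
      simp [ntri]
    rw [hδ q _ _ hD']
    have h1 : ∀ c ∈ ntri q, NF.L c ∈ NF.J (Sum.inr q) 1 := by
      intro c hc
      have := NF.L_mem_J (Sum.inr q) c
      have h2 : NF.val (Sum.inr q) c = 1 := if_pos hc
      rwa [h2] at this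
    exact sub_mem (sub_mem (NF.mul_mem_J (h1 _ (by simp [ntri])) (hP0 _ _ _ hD'))
      (NF.mul_mem_J (h1 _ (by simp [ntri])) (hP0 _ _ _ hD')))
      (NF.mul_mem_J (h1 _ (by simp [ntri])) (hP0 _ _ _ hD'))
  have hf : ∀ q, ∃ v : Fin 3 → ℂ, δ q = Q * lin v ∧ v ⬝ᵥ zc (npt q) = 0 := by
    intro q
    obtain ⟨f, hf⟩ := NF.prod_L_dvd Finset.univ (fun _ => N) (δ q) (fun l _ => hδl q l)
    by_cases hf0 : f = 0
    · refine ⟨0, ?_, by simp⟩
      rw [hf, hf0]; simp [lin]
    have h1 := hδh q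
    rw [hf] at h1
    have h2 := (hom_of_mul hQh hQ0 hf0 h1).2
    have h3 : 1 + 7 * N - 7 * N = 1 := by omega
    rw [h3] at h2
    obtain ⟨v, hv⟩ := exists_lin h2
    refine ⟨v, by rw [hf, hv], ?_⟩
    have h4 := hδq q
    rw [hf, ← sum_val] at h4
    have h5 := cancel_prod Finset.univ N 1 f h4
    have h6 := eval_of_mem_J h5
    rw [hv, eval_lin] at h6
    exact h6
  choose v hv hvo using hf
  have hdep : ∀ k j, ∑ q, (dvec k q : ℂ) * v q j = 0 := by
    intro k j
    have h1 := dvec_sum (fun i => NF.L i * P0 i) k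
    have h2 : ∑ q, (dvec k q : R3) * δ q = 0 := h1
    have h3 : Q * lin (∑ q, (dvec k q : ℂ) • v q) = 0 := by
      rw [← h2]
      have h4 : lin (∑ q, (dvec k q : ℂ) • v q) = ∑ q, (dvec k q : R3) * lin (v q) := by
        simp only [Fin.sum_univ_succ, Finset.univ_eq_empty, Finset.sum_empty]
        simp only [lin_add, lin_smul, map_intCast]
        simp [lin]
      rw [h4, Finset.mul_sum]
      refine Finset.sum_congr rfl fun q _ => ?_
      rw [hv q]; ring
    have h5 := (mul_eq_zero.mp h3).resolve_left hQ0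
    have h6 : lin (∑ q, (dvec k q : ℂ) • v q) = lin 0 := by
      rw [h5]; simp [lin]
    have h7 := congrFun (lin_inj h6) j
    simpa using h7
  obtain ⟨κ, hκ⟩ := const_solve v hvo hdep
  refine ⟨fun i => P0 i - C (κ i) * Q, ?_, ?_, ?_⟩
  · intro i
    have := (hP0h i).sub (hQh.C_mul (κ i))
    exact this
  · intro q
    have h1 : lin (v q) = C (κ (nT q 0)) * NF.L (nT q 0) - C (κ (nT q 1)) * NF.L (nT q 1) -
        C (κ (nT q 2)) * NF.L (nT q 2) := by
      change _ = C (κ (nT q 0)) * lin (zc (nf (nT q 0))) -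
        C (κ (nT q 1)) * lin (zc (nf (nT q 1))) - C (κ (nT q 2)) * lin (zc (nf (nT q 2)))
      rw [← lin_smul, ← lin_smul, ← lin_smul, ← lin_sub, ← lin_sub]
      congr 1
      funext j
      simp [zc, hκ q j]
    have h2 := hv q
    rw [h1] at h2
    simp only [δ] at h2
    linear_combination h2
  · intro D D' i j hD
    have h1 : (P0 i - C (κ i) * Q) - (P0 j - C (κ j) * Q) - (G D D' i - G D D' j) =
        (P0 i - (G D D' i - G D D' 0)) - (P0 j - (G D D' j - G D D' 0)) -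
        (C (κ i) - C (κ j)) * Q := by ring
    change (P0 i - C (κ i) * Q) - (P0 j - C (κ j) * Q) - (G D D' i - G D D' j) ∈ _
    rw [h1, bnd_zero hn]
    exact sub_mem (sub_mem (hP0 i D D' hD) (hP0 j D D' hD)) (Ideal.mul_mem_left _ _ (hQJ D))

/-- The cocycle equations can be solved for every character. -/
theorem solve (n : ℕ) (hn : 8 ≤ n) (a : Fin 7 → ℕ) (ha : ∀ i, a i < n) (d : ℕ)
    (hd : ∑ i, a i = d * n) : ∃ N0, ∀ N ≥ N0, ∀ G : Crv 7 6 → Crv 7 6 → Fin 7 → R3,
      CharData n N d a G → ∃ P, CharSol n N d a G P := by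
  by_cases hd1 : 1 ≤ d
  · have h1 : ∀ q, ∃ N0, ∀ N ≥ N0, aq a q < d * n →
        NF.LBV (7 * N - d - 1) (Aq n N a q) := by
      intro q
      by_cases hq : aq a q < d * n
      · obtain ⟨N0, hN0⟩ := pencil_LBV n hn a ha d hd q hq
        exact ⟨N0, fun N hN _ => hN0 N hN⟩
      · exact ⟨0, fun _ _ h => absurd h hq⟩
    choose N0 hN0 using h1
    obtain ⟨i0, hI, hloc, p0, hp0⟩ := choose_i0 hn hd1 ha hd
    refine ⟨d + 2 + ∑ q, N0 q, fun N hN G hG => ?_⟩
    refine solve_pos hn hd1 (by omega) ha hd hG (fun q hq => hN0 q N ?_ hq) i0 hI hloc p0 hp0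
    have : N0 q ≤ ∑ q, N0 q :=
      Finset.single_le_sum (f := N0) (fun _ _ => Nat.zero_le _) (Finset.mem_univ q)
    omega
  · have hd0 : d = 0 := by omega
    subst hd0
    rw [zero_mul] at hd
    have ha0 : a = fun _ => 0 := by
      funext i
      exact Finset.sum_eq_zero_iff.mp hd i (Finset.mem_univ i)
    subst ha0
    obtain ⟨N0, hN0⟩ := LBV_A0
    exact ⟨N0, fun N hN G hG => solve_zero (by omega) hG (hN0 N hN)⟩

end

end Pool.Agent.H94_hk
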