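import Pool.Agent.H94_hk.Bridge3
import Pool.Agent.H94_hk.Solve5
import Pool.Agent.H94_hk.StmtOf

/-!
# The non-Fano configuration
-/

namespace Pool.Agent.H94_hk

open MvPolynomial

noncomputable section

theorem NF_full : NF.Full := TConf.full_of_pts NF_ok
  (by
    change ∀ q, 3 ≤ (ntri q).card
    decide +kernel)
  (by
    change ∀ q, ∃ w, w ∉ ntri q
    decide +kernel) ⟨0⟩

theorem NF_sz_inl (l : Fin 7) : NF.sz (Sum.inl l) = 1 := by
  simp [TConf.sz, TConf.val]

theorem NF_sz_inr (q : Fin 6) : NF.sz (Sum.inr q) = 3 := by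
  have h : ∀ q, ∑ i, (if i ∈ ntri q then 1 else 0) = 3 := by decide +kernel
  exact h q

theorem NF_ordN_inl (l : Fin 7) (a : Fin 7 → ℕ) : NF.ordN (Sum.inl l) a = a l := by
  simp [TConf.ordN, TConf.val]

theorem NF_ordN_inr (q : Fin 6) (a : Fin 7 → ℕ) : NF.ordN (Sum.inr q) a = aq a q := by
  rw [aq_eq_sum]
  change ∑ i, (if i ∈ ntri q then 1 else 0) * a i = _
  simp [Finset.sum_ite_mem]

theorem gb_eq {n N : ℕ} {a : Fin 7 → ℕ} (ha : ∀ i, a i < n) (i j : Fin 7) (D : Crv 7 6) :
    (∀ _ : i ≠ j, NF.gb n N a i j D = bnd n N a i j D) ∧ bnd n N a i j D ≤ NF.gb n N a i j D := by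
  have key : i ≠ j → NF.gb n N a i j D = bnd n N a i j D := by
    intro hij
    rcases D with l | q
    · rw [TConf.gb, NF_sz_inl, NF_ordN_inl, one_mul, bnd]
      congr 1
      have hal := ha l
      have hv : ∀ i, NF.val (Sum.inl l) i = if l = i then 1 else 0 := fun i => rfl
      rw [hv, hv]
      by_cases h1 : l = i
      · subst h1
        simp only [if_true, hij, if_false, true_or, one_ne_zero, fl]
        split_ifs with h2
        · rw [h2]; exact Nat.div_self (by omega)
        · exact Nat.div_eq_of_lt (by omega)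
      · by_cases h2 : l = j
        · subst h2
          simp only [h1, if_false, if_true, or_true, zero_ne_one, fl]
          split_ifs with h2
          · rw [h2]; exact Nat.div_self (by omega)
          · exact Nat.div_eq_of_lt (by omega)
        · simp only [h1, h2, if_false, if_true, or_self, add_zero]
          exact Nat.div_eq_of_lt hal
    · rw [TConf.gb, NF_sz_inr, NF_ordN_inr, bnd]
      have hv : ∀ i, NF.val (Sum.inr q) i = if i ∈ ntri q then 1 else 0 := fun i => rfl
      rw [hv, hv]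
      have h1 : ((if i ∈ ntri q then 1 else 0) = (if j ∈ ntri q then 1 else 0)) ↔
          (i ∈ ntri q ↔ j ∈ ntri q) := by
        split_ifs <;> simp_all
      simp only [h1]
  refine ⟨fun h => key h, ?_⟩
  by_cases hij : i = j
  · subst hij
    rcases D with l | q
    · rw [TConf.gb, NF_sz_inl, NF_ordN_inl, one_mul, bnd]
      simp only [if_true, add_zero]
      rw [Nat.div_eq_of_lt (ha l)]
      omega
    · rw [TConf.gb, NF_sz_inr, NF_ordN_inr, bnd]
      simp
  · rw [key hij]

theorem NF_solvable (n : ℕ) (hn : 8 ≤ n) : NF.Solvable n := by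
  intro a ha d hd
  obtain ⟨N0, hN0⟩ := solve n hn a ha d hd
  refine ⟨N0, fun N hN G hG => ?_⟩
  obtain ⟨P, hP⟩ := hN0 N hN G {
    sym := hG.sym
    hom := hG.hom
    rel := by
      intro D D' q
      have h1 := hG.rel D D' (fun i => (if i = nT q 0 then 1 else 0) -
        (if i = nT q 1 then 1 else 0) - (if i = nT q 2 then 1 else 0)) (by
          simp only [sub_smul, ite_smul, one_smul, zero_smul, Finset.sum_sub_distrib,
            Finset.sum_ite_eq', Finset.mem_univ, if_true]
          have h : ∀ q j, nf (nT q 0) j = nf (nT q 1) j + nf (nT q 2) j := by decide +kernel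
          change zc (nf (nT q 0)) - zc (nf (nT q 1)) - zc (nf (nT q 2)) = 0
          funext j
          simp [zc, h q j])
      simp only [map_sub, sub_mul, Finset.sum_sub_distrib] at h1
      have h2 : ∀ (m : Fin 7), ∑ i, (C (if i = m then (1 : ℂ) else 0) : R3) *
          (NF.L i * G D D' i) = NF.L m * G D D' m := by
        intro m
        rw [Finset.sum_eq_single m]
        · simp
        · intro l _ hl
          rw [if_neg hl, map_zero, zero_mul]
        · intro h; exact absurd (Finset.mem_univ m) h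
      rw [h2, h2, h2] at h1
      linear_combination h1
    ord := by
      intro D D' D'' i j h h'
      exact NF.J_mono D (gb_eq ha i j D).2 (hG.ord D D' D'' i j h h') }
  refine ⟨P, hP.hom, ?_, ?_⟩
  · intro c hc
    have e0 := hP.rel 0
    have e1 := hP.rel 1
    have e2 := hP.rel 2
    have e4 := hP.rel 4
    have n0 : nT 0 0 = 0 ∧ nT 0 1 = 1 ∧ nT 0 2 = 3 := ⟨rfl, rfl, rfl⟩
    have n1 : nT 1 0 = 0 ∧ nT 1 1 = 2 ∧ nT 1 2 = 4 := ⟨rfl, rfl, rfl⟩
    have n2 : nT 2 0 = 1 ∧ nT 2 1 = 2 ∧ nT 2 2 = 5 := ⟨rfl, rfl, rfl⟩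
    have n4 : nT 4 0 = 3 ∧ nT 4 1 = 2 ∧ nT 4 2 = 6 := ⟨rfl, rfl, rfl⟩
    rw [n0.1, n0.2.1, n0.2.2] at e0
    rw [n1.1, n1.2.1, n1.2.2] at e1
    rw [n2.1, n2.2.1, n2.2.2] at e2
    rw [n4.1, n4.2.1, n4.2.2] at e4
    have hx := congrFun hc 0
    have hy := congrFun hc 1
    have hz := congrFun hc 2
    have hv : ∀ i j, NF.f i j = (nf i j : ℂ) := fun i j => rfl
    simp only [Fin.sum_univ_succ, Finset.univ_eq_empty, Finset.sum_empty, Pi.add_apply,
      Pi.smul_apply, smul_eq_mul, Pi.zero_apply, hv, nf] at hx hy hz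
    simp at hx hy hz
    have cx := congrArg (C : ℂ → R3) hx
    have cy := congrArg (C : ℂ → R3) hy
    have cz := congrArg (C : ℂ → R3) hz
    simp only [map_add, map_neg, map_zero] at cx cy cz
    rw [Fin.sum_univ_seven]
    linear_combination (NF.L 0 * P 0) * cx + (NF.L 1 * P 1) * cy + (NF.L 2 * P 2) * cz -
      C (c 3) * e0 - C (c 4) * e1 - C (c 5) * e2 - C (c 6) * e4 - C (c 6) * e0
  · intro D D' i j h
    by_cases hij : i = j
    · subst hij; simp
    · rw [(gb_eq ha i j D).1 hij]
      exact hP.reg D D' i j h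

theorem nonFano_distinct (i j : Fin 7) (hij : i ≠ j) :
    LinearIndependent ℂ ![zc (nf i), zc (nf j)] := by
  change LinearIndependent ℂ ![NF.f i, NF.f j]
  rw [LinearIndependent.pair_iff]
  intro s t h
  have h1 := congrArg (fun v => v ⬝ᵥ NF.pb i) h
  simp only [add_dotProduct, smul_dotProduct, NF.fb, smul_eq_mul, mul_zero, zero_add,
    zero_dotProduct] at h1
  have ht := (mul_eq_zero.mp h1).resolve_right (NF.fjb i j hij)
  have h2 := congrArg (fun v => v ⬝ᵥ NF.pc i) h
  simp only [add_dotProduct, smul_dotProduct, NF.fc, smul_eq_mul, mul_one, ht, zero_mul,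
    add_zero, zero_dotProduct] at h2
  exact ⟨h2, ht⟩

theorem nonFano_nonconcurrent (p : Fin 3 → ℂ) (hp : p ≠ 0) : ∃ i, zc (nf i) ⬝ᵥ p ≠ 0 := by
  by_contra h
  push Not at h
  apply hp
  have h0 := h 0
  have h1 := h 1
  have h2 := h 2
  simp [zc, nf, dotProduct, Fin.sum_univ_three] at h0 h1 h2
  funext j
  fin_cases j
  · exact h0
  · exact h1
  · exact h2

/-- Integer coefficient vectors of the forms `x, y, z, x - y, x - z, y - z, x - y - z`. -/
def nonFanoForm : Fin 7 → Fin 3 → ℤ :=
  ![![1, 0, 0], ![0, 1, 0], ![0, 0, 1], ![1, -1, 0], ![1, 0, -1], ![0, 1, -1], ![1, -1, -1]]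

/-- The non-Fano configuration: the seven lines `x, y, z, x - y, x - z, y - z, x - y - z`. -/
def nonFano : Rig.Config 7 where
  form i j := (nonFanoForm i j : ℂ)
  distinct := nonFano_distinct
  nonconcurrent := nonFano_nonconcurrent

/-- The Hirzebruch-Kummer coverings of the non-Fano configuration are infinitesimally rigid
for all `n ≥ 8`. -/
theorem nonFano_rigid (n : ℕ) (hn : 8 ≤ n) : Rig.InfRigid nonFano n :=
  infRigid_of (NF_full.bridge (by omega) (NF_solvable n hn) (toOld nonFano) rfl)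

end

end Pool.Agent.H94_hk
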