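import Pool.Agent.H94_hk.Defs

/-!
# Orders of vanishing along lines and exceptional curves
-/

namespace Pool.Agent.H94_hk

open MvPolynomial

noncomputable section

theorem map_lin {S : Type*} [CommSemiring S] [Algebra ℂ S] (φ : R3 →ₐ[ℂ] S) (v : Fin 3 → ℂ) :
    φ (lin v) = ∑ j, algebraMap ℂ S (v j) * φ (X j) := by
  simp only [lin, map_sum, map_mul]
  refine Finset.sum_congr rfl fun j _ => ?_
  congr 1
  exact φ.commutes (v j)

theorem eval_lin (v p : Fin 3 → ℂ) : eval p (lin v) = v ⬝ᵥ p := by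
  simp [lin, dotProduct]

theorem lin_add (v w : Fin 3 → ℂ) : lin (v + w) = lin v + lin w := by
  simp [lin, add_mul, Finset.sum_add_distrib]

theorem lin_smul (c : ℂ) (v : Fin 3 → ℂ) : lin (c • v) = C c * lin v := by
  simp [lin, Finset.mul_sum, mul_assoc]

theorem lin_sub (v w : Fin 3 → ℂ) : lin (v - w) = lin v - lin w := by
  simp [lin, sub_mul, Finset.sum_sub_distrib]

theorem lin_isHomogeneous (v : Fin 3 → ℂ) : (lin v).IsHomogeneous 1 := by
  unfold lin
  exact IsHomogeneous.sum _ _ _ fun j _ => isHomogeneous_C_mul_X _ _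

theorem lin_ne_zero {v : Fin 3 → ℂ} (p : Fin 3 → ℂ) (h : v ⬝ᵥ p ≠ 0) : lin v ≠ 0 := by
  intro h0
  apply h
  rw [← eval_lin, h0, map_zero]

/-- Scaling the argument of a homogeneous polynomial. -/
theorem aeval_scale {S : Type*} [CommRing S] [Algebra ℂ S] {P : R3} {T : ℕ}
    (hP : P.IsHomogeneous T) (c : S) (x : Fin 3 → S) :
    aeval (fun i => c * x i) P = c ^ T * aeval x P := by
  rw [aeval_def, aeval_def, eval₂_eq', eval₂_eq', Finset.mul_sum]
  refine Finset.sum_congr rfl fun d hd => ?_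
  have h1 := hP.degree_eq_sum_deg_support hd
  have h2 : ∏ i, (c * x i) ^ d i = c ^ T * ∏ i, x i ^ d i := by
    have h3 : ∏ i ∈ d.support, c ^ d i = ∏ i, c ^ d i := by
      apply Finset.prod_subset (Finset.subset_univ _)
      intro i _ hi
      rw [Finsupp.notMem_support_iff] at hi
      rw [hi, pow_zero]
    rw [h1, ← Finset.prod_pow_eq_pow_sum, h3, ← Finset.prod_mul_distrib]
    exact Finset.prod_congr rfl fun i _ => mul_pow _ _ _
  rw [h2]; ring

theorem eval_scale {P : R3} {T : ℕ}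
    (hP : P.IsHomogeneous T) (c : ℂ) (x : Fin 3 → ℂ) :
    eval (fun i => c * x i) P = c ^ T * eval x P := by
  have := aeval_scale hP c x
  simpa [aeval_eq_eval] using this

/-- The combinatorial and geometric data of a line arrangement used in the computation. -/
structure TConf (k r : ℕ) where
  /-- the lines -/
  f : Fin k → Fin 3 → ℂ
  /-- the lines through the multiple points -/
  tri : Fin r → Finset (Fin k)
  /-- the multiple points -/
  pt : Fin r → Fin 3 → ℂ
  /-- a form with value one at the multiple point -/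
  kap : Fin r → Fin 3 → ℂ
  /-- two points on each line and a point off it -/
  pa : Fin k → Fin 3 → ℂ
  pb : Fin k → Fin 3 → ℂ
  pc : Fin k → Fin 3 → ℂ
  /-- dual forms -/
  du : Fin k → Fin 3 → ℂ
  dv : Fin k → Fin 3 → ℂ
  mem_tri : ∀ i q, i ∈ tri q ↔ f i ⬝ᵥ pt q = 0
  kap_pt : ∀ q, kap q ⬝ᵥ pt q = 1
  decomp : ∀ i j, (Pi.single j 1 : Fin 3 → ℂ) =
    (pc i j) • f i + (pa i j) • du i + (pb i j) • dv i
  fa : ∀ i, f i ⬝ᵥ pa i = 0
  fb : ∀ i, f i ⬝ᵥ pb i = 0
  ua : ∀ i, du i ⬝ᵥ pa i = 1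
  ub : ∀ i, du i ⬝ᵥ pb i = 0
  va : ∀ i, dv i ⬝ᵥ pa i = 0
  vb : ∀ i, dv i ⬝ᵥ pb i = 1
  fc : ∀ i, f i ⬝ᵥ pc i = 1
  fjb : ∀ i j, i ≠ j → f j ⬝ᵥ pb i ≠ 0
  du_pt : ∀ i q, i ∈ tri q → du i ⬝ᵥ pt q ≠ 0
  cnt : ∀ i j, i ≠ j → (Finset.univ.filter fun q => i ∈ tri q ∧ j ∈ tri q).card ≤ 1

namespace TConf

variable {k r : ℕ} (T : TConf k r)

/-- The form of line `i`. -/
def L (i : Fin k) : R3 := lin (T.f i)

theorem L_hom (i : Fin k) : (T.L i).IsHomogeneous 1 := lin_isHomogeneous _

theorem L_ne_zero (i : Fin k) : T.L i ≠ 0 := lin_ne_zero (T.pc i) (by rw [T.fc]; exact one_ne_zero)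

/-- Restriction to line `i`, in the parameter `t ↦ pa + t pb`. -/
def res (i : Fin k) : R3 →ₐ[ℂ] Polynomial ℂ :=
  aeval fun j => Polynomial.C (T.pa i j) + Polynomial.X * Polynomial.C (T.pb i j)

theorem res_lin (i : Fin k) (v : Fin 3 → ℂ) :
    T.res i (lin v) = Polynomial.C (v ⬝ᵥ T.pa i) + Polynomial.X * Polynomial.C (v ⬝ᵥ T.pb i) := by
  rw [map_lin]
  simp only [res, aeval_X, dotProduct, map_sum, map_mul, Polynomial.algebraMap_eq,
    Finset.mul_sum, ← Finset.sum_add_distrib]
  refine Finset.sum_congr rfl fun j _ => ?_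
  ring

theorem res_L_self (i : Fin k) : T.res i (T.L i) = 0 := by
  rw [L, res_lin, T.fa, T.fb]; simp

theorem res_L_ne (i j : Fin k) (h : i ≠ j) : T.res i (T.L j) ≠ 0 := by
  rw [L, res_lin]
  intro h0
  have h1 := congrArg (fun p => Polynomial.coeff p 1) h0
  simp at h1
  exact T.fjb i j h h1

theorem natDegree_res (i : Fin k) {P : R3} {m : ℕ} (hP : P.IsHomogeneous m) :
    (T.res i P).natDegree ≤ m := by
  have hf : ∀ j, (Polynomial.C (T.pa i j) + Polynomial.X * Polynomial.C (T.pb i j) :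
      Polynomial ℂ).natDegree ≤ 1 := by
    intro j
    refine (Polynomial.natDegree_add_le _ _).trans ?_
    rw [Polynomial.natDegree_C, max_le_iff]
    refine ⟨by omega, ?_⟩
    refine (Polynomial.natDegree_mul_le).trans ?_
    rw [Polynomial.natDegree_C, Polynomial.natDegree_X]
  have h := MvPolynomial.aeval_natDegree_le P hP.totalDegree_le _ hf
  rw [mul_one] at h
  exact h

/-- The reduction of a polynomial modulo the form of line `i`. -/
def red (i : Fin k) : R3 →ₐ[ℂ] R3 :=
  aeval fun j => C (T.pa i j) * lin (T.du i) + C (T.pb i j) * lin (T.dv i)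

theorem X_eq (i : Fin k) (j : Fin 3) : (X j : R3) =
    C (T.pc i j) * T.L i + C (T.pa i j) * lin (T.du i) + C (T.pb i j) * lin (T.dv i) := by
  have h := congrArg lin (T.decomp i j)
  rw [lin_add, lin_add, lin_smul, lin_smul, lin_smul] at h
  rw [L, ← h]
  simp [lin, Pi.single_apply]

theorem L_dvd_sub_red (i : Fin k) (P : R3) : T.L i ∣ P - T.red i P := by
  induction P using MvPolynomial.induction_on with
  | C a => simp [red]
  | add p q hp hq =>
    rw [map_add, add_sub_add_comm]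
    exact dvd_add hp hq
  | mul_X p j hp =>
    rw [map_mul]
    have h1 : T.L i ∣ X j - T.red i (X j) := by
      refine ⟨C (T.pc i j), ?_⟩
      have h2 : T.red i (X j) = C (T.pa i j) * lin (T.du i) + C (T.pb i j) * lin (T.dv i) := by
        simp [red]
      rw [h2]
      conv_lhs => rw [T.X_eq i j]
      ring
    have : p * X j - T.red i p * T.red i (X j) =
        (p - T.red i p) * X j + T.red i p * (X j - T.red i (X j)) := by ring
    rw [this]
    exact dvd_add (hp.mul_right _) (h1.mul_left _)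

theorem eval_red (i : Fin k) (P : R3) (x : Fin 3 → ℂ) : eval x (T.red i P) =
    eval (fun j => T.pa i j * (T.du i ⬝ᵥ x) + T.pb i j * (T.dv i ⬝ᵥ x)) P := by
  have h : ((aeval x : R3 →ₐ[ℂ] ℂ).comp (T.red i)) =
      aeval (fun j => T.pa i j * (T.du i ⬝ᵥ x) + T.pb i j * (T.dv i ⬝ᵥ x)) := by
    ext j
    simp [red, eval_lin]
  have h1 := DFunLike.congr_fun h P
  simpa only [AlgHom.comp_apply, coe_aeval_eq_eval, RingHom.coe_coe, aeval_eq_eval] using h1

theorem eval_res (i : Fin k) (P : R3) (t : ℂ) : Polynomial.eval t (T.res i P) =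
    eval (fun j => T.pa i j + t * T.pb i j) P := by
  have h : ((Polynomial.aeval t : Polynomial ℂ →ₐ[ℂ] ℂ).comp (T.res i)) =
      aeval (fun j => T.pa i j + t * T.pb i j) := by
    ext j
    simp [res]
    ring
  have h1 := DFunLike.congr_fun h P
  simpa only [AlgHom.comp_apply, coe_aeval_eq_eval, RingHom.coe_coe, aeval_eq_eval,
    Polynomial.coe_aeval_eq_eval] using h1

/-- A homogeneous polynomial vanishing on line `i` is divisible by its form. -/
theorem L_dvd_of_res {i : Fin k} {P : R3} {m : ℕ} (hP : P.IsHomogeneous m)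
    (h : T.res i P = 0) : T.L i ∣ P := by
  have h1 : T.red i P = 0 := by
    have hu : lin (T.du i) ≠ 0 := lin_ne_zero (T.pa i) (by rw [T.ua]; exact one_ne_zero)
    have h2 : lin (T.du i) * T.red i P = 0 := by
      apply MvPolynomial.funext
      intro x
      rw [map_mul, map_zero, eval_lin, eval_red]
      by_cases hx : T.du i ⬝ᵥ x = 0
      · rw [hx, zero_mul]
      · have h3 : (fun j => T.pa i j * (T.du i ⬝ᵥ x) + T.pb i j * (T.dv i ⬝ᵥ x)) =
            fun j => (T.du i ⬝ᵥ x) *
              (T.pa i j + ((T.dv i ⬝ᵥ x) / (T.du i ⬝ᵥ x)) * T.pb i j) := by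
          funext j
          field_simp
        rw [h3, eval_scale hP, ← eval_res, h]
        simp
    exact (mul_eq_zero.mp h2).resolve_left hu
  have h4 := T.L_dvd_sub_red i P
  rwa [h1, sub_zero] at h4

theorem red_L (i : Fin k) : T.red i (T.L i) = 0 := by
  apply MvPolynomial.funext
  intro x
  have h : eval (fun j => T.pa i j * (T.du i ⬝ᵥ x) + T.pb i j * (T.dv i ⬝ᵥ x)) (T.L i) =
      (T.f i ⬝ᵥ T.pa i) * (T.du i ⬝ᵥ x) + (T.f i ⬝ᵥ T.pb i) * (T.dv i ⬝ᵥ x) := by
    rw [L, eval_lin]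
    simp only [dotProduct, Fin.sum_univ_three]
    ring
  rw [eval_red, h, T.fa, T.fb]
  simp

theorem L_dvd_iff_red {i : Fin k} {P : R3} : T.L i ∣ P ↔ T.red i P = 0 := by
  constructor
  · rintro ⟨Q, rfl⟩
    rw [map_mul, red_L, zero_mul]
  · intro h
    have h4 := T.L_dvd_sub_red i P
    rwa [h, sub_zero] at h4

theorem L_prime (i : Fin k) : Prime (T.L i) := by
  refine ⟨T.L_ne_zero i, ?_, ?_⟩
  · intro hu
    have h1 := (T.L_dvd_iff_red (i := i) (P := 1)).mp hu.dvd
    rw [map_one] at h1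
    exact one_ne_zero h1
  · intro a b hab
    rw [L_dvd_iff_red, map_mul] at hab
    rw [L_dvd_iff_red, L_dvd_iff_red]
    exact mul_eq_zero.mp hab

theorem res_eq_zero_of_dvd {i : Fin k} {P : R3} (h : T.L i ∣ P) : T.res i P = 0 := by
  obtain ⟨Q, rfl⟩ := h
  rw [map_mul, res_L_self, zero_mul]

theorem not_L_dvd_L {i j : Fin k} (h : i ≠ j) : ¬ T.L i ∣ T.L j := fun h0 =>
  T.res_L_ne i j h (T.res_eq_zero_of_dvd h0)

/-- The form with value one at the multiple point. -/
def kp (q : Fin r) : R3 := lin (T.kap q)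

theorem kp_ne_zero (q : Fin r) : T.kp q ≠ 0 :=
  lin_ne_zero (T.pt q) (by rw [T.kap_pt]; exact one_ne_zero)

/-- The grading homomorphism at the multiple point `q`. -/
def phi (q : Fin r) : R3 →ₐ[ℂ] Polynomial R3 :=
  aeval fun j => Polynomial.C (C (T.pt q j) * T.kp q) +
    Polynomial.X * Polynomial.C (X j - C (T.pt q j) * T.kp q)

theorem phi_lin (q : Fin r) (v : Fin 3 → ℂ) : T.phi q (lin v) =
    Polynomial.C (C (v ⬝ᵥ T.pt q) * T.kp q) +
      Polynomial.X * Polynomial.C (lin v - C (v ⬝ᵥ T.pt q) * T.kp q) := by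
  rw [map_lin]
  simp only [phi, aeval_X, lin, dotProduct, Fin.sum_univ_three, map_add, map_mul, map_sub,
    Polynomial.algebraMap_apply, MvPolynomial.algebraMap_eq]
  ring

theorem phi_L_mem {q : Fin r} {i : Fin k} (h : i ∈ T.tri q) :
    T.phi q (T.L i) = Polynomial.X * Polynomial.C (T.L i) := by
  rw [L, phi_lin, (T.mem_tri i q).mp h]
  simp

theorem phi_L_not_mem {q : Fin r} {i : Fin k} (h : i ∉ T.tri q) :
    ¬ (Polynomial.X ∣ T.phi q (T.L i)) := by
  rw [L, phi_lin, Polynomial.X_dvd_iff]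
  simp only [Polynomial.coeff_add, Polynomial.coeff_C_zero, Polynomial.mul_coeff_zero,
    Polynomial.coeff_X_zero, zero_mul, add_zero]
  refine mul_ne_zero ?_ (T.kp_ne_zero q)
  rw [Ne, C_eq_zero]
  intro h0
  exact h ((T.mem_tri i q).mpr h0)

theorem phi_kp (q : Fin r) : T.phi q (T.kp q) = Polynomial.C (T.kp q) := by
  rw [kp, phi_lin, T.kap_pt]
  simp [kp]

/-- The forms vanishing at `q`. -/
def y (q : Fin r) (j : Fin 3) : R3 := X j - C (T.pt q j) * T.kp q

theorem phi_y (q : Fin r) (j : Fin 3) :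
    T.phi q (T.y q j) = Polynomial.X * Polynomial.C (T.y q j) := by
  rw [y, map_sub, map_mul, phi_kp]
  have h1 : T.phi q (C (T.pt q j)) = Polynomial.C (C (T.pt q j)) := (T.phi q).commutes _
  rw [h1]
  simp only [phi, aeval_X, map_mul]
  ring

theorem phi_coeff (q : Fin r) (P : R3) (m : ℕ) : T.phi q ((T.phi q P).coeff m) =
    Polynomial.X ^ m * Polynomial.C ((T.phi q P).coeff m) := by
  induction P using MvPolynomial.induction_on generalizing m with
  | C a =>
    have h1 : T.phi q (C a) = Polynomial.C (C a) := (T.phi q).commutes _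
    rw [h1, Polynomial.coeff_C]
    split_ifs with hm
    · subst hm
      rw [h1]; simp
    · simp
  | add p p' hp hp' =>
    rw [map_add, Polynomial.coeff_add, map_add, hp, hp', map_add]
    ring
  | mul_X p j hp =>
    have h1 : T.phi q (X j) = Polynomial.C (C (T.pt q j) * T.kp q) +
      Polynomial.X * Polynomial.C (T.y q j) := by simp [phi, y]
    have h2 : T.phi q (C (T.pt q j) * T.kp q) = Polynomial.C (C (T.pt q j) * T.kp q) := by
      rw [map_mul, phi_kp]
      have h1 : T.phi q (C (T.pt q j)) = Polynomial.C (C (T.pt q j)) := (T.phi q).commutes _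
      rw [h1, map_mul]
    rw [map_mul, h1, mul_add, Polynomial.coeff_add, Polynomial.coeff_mul_C, map_add, map_mul, hp,
      h2, map_add]
    cases m with
    | zero =>
      rw [← mul_assoc, Polynomial.coeff_mul_C, Polynomial.coeff_mul_X_zero]
      simp
    | succ m =>
      rw [← mul_assoc, Polynomial.coeff_mul_C, Polynomial.coeff_mul_X, map_mul (T.phi q), hp,
        phi_y]
      simp only [map_mul]
      ring

theorem eval_one_phi (q : Fin r) (P : R3) : (T.phi q P).eval 1 = P := by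
  have h : ((Polynomial.aeval (1 : R3) : Polynomial R3 →ₐ[R3] R3).restrictScalars ℂ).comp
      (T.phi q) = AlgHom.id ℂ R3 := by
    ext j
    simp [phi]
  have h1 := DFunLike.congr_fun h P
  simpa using h1

/-- The ideal of `q`. -/
def Iq (q : Fin r) : Ideal R3 := Ideal.span (Set.range (T.y q))

theorem phi_coeff_mem (q : Fin r) (P : R3) (m : ℕ) : (T.phi q P).coeff m ∈ T.Iq q ^ m := by
  induction P using MvPolynomial.induction_on generalizing m with
  | C a =>
    have h1 : T.phi q (C a) = Polynomial.C (C a) := (T.phi q).commutes _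
    rw [h1, Polynomial.coeff_C]
    split_ifs with hm
    · subst hm; simp
    · exact zero_mem _
  | add p p' hp hp' =>
    rw [map_add, Polynomial.coeff_add]
    exact add_mem (hp m) (hp' m)
  | mul_X p j hp =>
    have h1 : T.phi q (X j) = Polynomial.C (C (T.pt q j) * T.kp q) +
      Polynomial.X * Polynomial.C (T.y q j) := by simp [phi, y]
    rw [map_mul, h1, mul_add, Polynomial.coeff_add, Polynomial.coeff_mul_C]
    refine add_mem (Ideal.mul_mem_right _ _ (hp m)) ?_
    cases m with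
    | zero => simp
    | succ m =>
      rw [← mul_assoc, Polynomial.coeff_mul_C, Polynomial.coeff_mul_X, pow_succ]
      exact Ideal.mul_mem_mul (hp m) (Ideal.subset_span ⟨j, rfl⟩)

/-- The ideal of polynomials vanishing to order at least `m` along a curve. -/
def J : Fin k ⊕ Fin r → ℕ → Ideal R3
  | Sum.inl i, m => Ideal.span {T.L i ^ m}
  | Sum.inr q, m => Ideal.comap (T.phi q) (Ideal.span {Polynomial.X ^ m})

theorem mem_J_inl {i : Fin k} {m : ℕ} {P : R3} : P ∈ T.J (Sum.inl i) m ↔ T.L i ^ m ∣ P :=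
  Ideal.mem_span_singleton

theorem mem_J_inr {q : Fin r} {m : ℕ} {P : R3} :
    P ∈ T.J (Sum.inr q) m ↔ Polynomial.X ^ m ∣ T.phi q P :=
  Ideal.mem_span_singleton

theorem mem_J_inr_iff {q : Fin r} {m : ℕ} {P : R3} :
    P ∈ T.J (Sum.inr q) m ↔ P ∈ T.Iq q ^ m := by
  rw [mem_J_inr]
  constructor
  · intro h
    rw [← T.eval_one_phi q P, Polynomial.eval_eq_sum_range]
    refine sum_mem fun j _ => ?_
    rw [one_pow, mul_one]
    by_cases hj : j < m
    · rw [Polynomial.X_pow_dvd_iff.mp h j hj]; exact zero_mem _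
    · exact Ideal.pow_le_pow_right (not_lt.mp hj) (T.phi_coeff_mem q P j)
  · intro h
    have h1 : (T.Iq q).map (T.phi q : R3 →+* Polynomial R3) ≤ Ideal.span {Polynomial.X} := by
      rw [Iq, Ideal.map_span, Ideal.span_le]
      rintro _ ⟨_, ⟨j, rfl⟩, rfl⟩
      change T.phi q (T.y q j) ∈ _
      rw [phi_y, SetLike.mem_coe, Ideal.mem_span_singleton]
      exact Dvd.intro _ rfl
    have h2 : (T.Iq q ^ m).map (T.phi q : R3 →+* Polynomial R3) ≤
        Ideal.span {Polynomial.X ^ m} := by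
      rw [Ideal.map_pow, ← Ideal.span_singleton_pow]
      exact Ideal.pow_right_mono h1 m
    have h3 := h2 (Ideal.mem_map_of_mem _ h)
    exact Ideal.mem_span_singleton.mp h3

theorem J_zero (D : Fin k ⊕ Fin r) : T.J D 0 = ⊤ := by
  rcases D with i | q <;> simp [J]

theorem J_mono (D : Fin k ⊕ Fin r) {m m' : ℕ} (h : m ≤ m') : T.J D m' ≤ T.J D m := by
  rcases D with i | q
  · intro P hP
    rw [mem_J_inl] at *
    exact (pow_dvd_pow _ h).trans hP
  · intro P hP
    rw [mem_J_inr] at *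
    exact (pow_dvd_pow _ h).trans hP

theorem mul_mem_J {D : Fin k ⊕ Fin r} {m m' : ℕ} {P P' : R3} (h : P ∈ T.J D m)
    (h' : P' ∈ T.J D m') : P * P' ∈ T.J D (m + m') := by
  rcases D with i | q
  · rw [mem_J_inl] at *
    rw [pow_add]; exact mul_dvd_mul h h'
  · rw [mem_J_inr] at *
    rw [pow_add, map_mul]; exact mul_dvd_mul h h'

/-- The order of the form of line `j` along the curve `D`. -/
def val : Fin k ⊕ Fin r → Fin k → ℕ
  | Sum.inl i, j => if i = j then 1 else 0
  | Sum.inr q, j => if j ∈ T.tri q then 1 else 0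

theorem L_mem_J (D : Fin k ⊕ Fin r) (j : Fin k) : T.L j ∈ T.J D (T.val D j) := by
  rcases D with i | q
  · rw [mem_J_inl, val]
    split_ifs with h
    · subst h; simp
    · simp
  · rw [mem_J_inr, val]
    split_ifs with h
    · rw [T.phi_L_mem h, pow_one]; exact Dvd.intro _ rfl
    · simp

theorem cancel {D : Fin k ⊕ Fin r} {j : Fin k} {m : ℕ} {P : R3}
    (h : T.L j * P ∈ T.J D (m + T.val D j)) : P ∈ T.J D m := by
  rcases D with i | q
  · rw [mem_J_inl, val] at *
    split_ifs at h with hij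
    · subst hij
      rw [pow_succ'] at h
      exact (mul_dvd_mul_iff_left (T.L_ne_zero i)).mp h
    · exact (T.L_prime i).pow_dvd_of_dvd_mul_left _ (T.not_L_dvd_L hij) h
  · rw [mem_J_inr, val] at *
    rw [map_mul] at h
    split_ifs at h with hq
    · rw [T.phi_L_mem hq, pow_succ', mul_assoc] at h
      have h1 := (mul_dvd_mul_iff_left Polynomial.X_ne_zero).mp h
      refine Polynomial.prime_X.pow_dvd_of_dvd_mul_left _ ?_ h1
      rw [Polynomial.X_dvd_iff, Polynomial.coeff_C_zero]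
      exact T.L_ne_zero j
    · exact Polynomial.prime_X.pow_dvd_of_dvd_mul_left _ (T.phi_L_not_mem hq) h

theorem L_pow_mem_J (D : Fin k ⊕ Fin r) (j : Fin k) (e : ℕ) :
    T.L j ^ e ∈ T.J D (e * T.val D j) := by
  induction e with
  | zero => simp [T.J_zero]
  | succ e ih =>
    rw [pow_succ, Nat.succ_mul]
    exact T.mul_mem_J ih (T.L_mem_J D j)

end TConf

end

end Pool.Agent.H94_hk
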