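import Pool.Agent.H94_hk.NF

/-!
# Pencils of the non-Fano arrangement
-/

namespace Pool.Agent.H94_hk

open MvPolynomial

/-- The other triple points, labelled relative to a triple point. -/
def nPN : Fin 6 → Fin 5 → Fin 6 :=
  ![![2, 5, 4, 3, 1], ![2, 4, 5, 3, 0], ![0, 5, 4, 1, 3], ![0, 4, 5, 1, 2], ![2, 1, 0, 3, 5],
    ![2, 0, 1, 3, 4]]

/-- The lines, labelled relative to a triple point. -/
def nLN : Fin 6 → Fin 7 → Fin 7 :=
  ![![1, 3, 0, 2, 4, 5, 6], ![2, 4, 0, 1, 3, 5, 6], ![1, 2, 5, 3, 4, 0, 6],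
    ![3, 4, 5, 1, 2, 0, 6], ![2, 3, 6, 1, 4, 5, 0], ![1, 4, 6, 2, 3, 5, 0]]

/-- Certificates. -/
def ncert : Fin 3 → Fin 32 → List (Fin 7) :=
  ![![[], [0], [0], [0], [1], [3], [6], [0, 1], [1], [5], [4], [0, 1], [1], [1, 0], [1, 0], [0,
      1], [2], [3], [4], [0, 2], [3], [3], [3, 0], [3, 0], [4], [3, 1], [4], [4, 0], [1, 2], [3,
      1], [4, 1], [3, 4]],
    ![[0], [0], [0], [0], [1], [0, 1], [0, 1], [0, 1], [1], [0, 1], [0, 1], [0, 1], [1], [1, 0],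
      [1, 0], [0, 1], [2], [0, 2], [0, 2], [0, 2], [1, 2], [3, 0], [0, 3], [0, 3], [1, 2], [0,
      4], [4, 0], [0, 4], [1, 2], [1, 3], [1, 4], [0, 1, 2]],
    ![[0, 0], [0, 0], [0, 0], [0, 0], [1, 0], [0, 1], [0, 1], [0, 1], [1, 0], [0, 1], [0, 1],
      [0, 1], [1, 0], [1, 0], [1, 0], [0, 1], [2, 0], [0, 2], [0, 2], [0, 2], [1, 2], [0, 1, 2],
      [0, 1, 2], [0, 1, 2], [1, 2], [0, 1, 2], [0, 1, 2], [0, 1, 2], [1, 2], [1, 0, 2], [1, 0,
      2], [0, 1, 2]]]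

/-- Incidence table. -/
def ninc (i : Fin 7) (q : Fin 6) : Bool := decide (i ∈ ntri q)

/-- Required value of the degree parameter. -/
def umin (w : Fin 5 → Bool) (e : ℕ) : ℕ :=
  let c := (w 0).toNat + (w 1).toNat + (w 2).toNat + (w 3).toNat + (w 4).toNat
  if e ≤ 1 then
    (if 4 ≤ c ∨ (w 0 && w 2 && w 4) ∨ (w 1 && w 3 && w 4) then 5 else
      if 2 ≤ c then 4 else if 1 ≤ c then 3 else 0)
  else if e = 2 then
    (if 3 ≤ c ∨ (w 0 && w 1) ∨ (w 2 && w 3) then 5 else if 1 ≤ c then 4 else 3)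
  else
    (if (w 0 && w 1) ∨ (w 2 && w 3) then 6 else if 1 ≤ c then 5 else 4)

/-- The class attached to a set of triple points. -/
def epsW (q : Fin 6) (w : Fin 5 → Bool) (e : ℕ) (p : Fin 6) : ℕ :=
  if p = q then e else if (∃ x, nPN q x = p ∧ w x = true) then 2 else 1

/-- The bits of a number. -/
def wbits (m : Fin 32) (x : Fin 5) : Bool := Nat.testBit m.val x.val

set_option maxRecDepth 1000000 in
theorem cert_check : ∀ (q : Fin 6) (e : Fin 3) (m : Fin 32),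
    TConf.run ninc ((ncert e m).map (nLN q)) (umin (wbits m) (e.val + 1))
      (epsW q (wbits m) (e.val + 1)) = true := by
  decide +kernel

theorem key_ineq {n d k S : ℕ} (hS : S = d * n) (h : k * n < S) : k + 1 ≤ d := by
  rw [hS] at h
  exact Nat.lt_of_mul_lt_mul_right h

theorem num_core (n d b1 b2 b3 m1 m2 m3 m4 s1 s2 s3 S c : ℕ) (hn : 8 ≤ n)
    (hb1 : b1 + 1 ≤ n) (hb2 : b2 + 1 ≤ n) (hb3 : b3 + 1 ≤ n) (hm1 : m1 + 1 ≤ n)
    (hm2 : m2 + 1 ≤ n) (hm3 : m3 + 1 ≤ n) (hm4 : m4 + 1 ≤ n)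
    (hs1 : s1 ≤ 1) (hs2 : s2 ≤ 1) (hs3 : s3 ≤ 1)
    (ht1 : s1 * n ≤ b1 + s1) (ht2 : s2 * n ≤ b2 + s2) (ht3 : s3 * n ≤ b3 + s3)
    (hS : S = b1 + b2 + b3 + m1 + m2 + m3 + m4) (hSd : S = d * n) (hloc : b1 + b2 + b3 < S)
    (w : Fin 5 → Bool)
    (hw0 : w 0 = true → 2 * n ≤ b1 + m1 + m3 + 1 ∧ s1 = 0 ∧ b1 + 2 ≤ n)
    (hw1 : w 1 = true → 2 * n ≤ b1 + m2 + m4 + 1 ∧ s1 = 0 ∧ b1 + 2 ≤ n)
    (hw2 : w 2 = true → 2 * n ≤ b2 + m1 + m4 + 1 ∧ s2 = 0 ∧ b2 + 2 ≤ n)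
    (hw3 : w 3 = true → 2 * n ≤ b2 + m2 + m3 + 1 ∧ s2 = 0 ∧ b2 + 2 ≤ n)
    (hw4 : w 4 = true → 2 * n ≤ b3 + m1 + m2 + 1 ∧ s3 = 0 ∧ b3 + 2 ≤ n)
    (hc : c = (b1 + b2 + b3) / n) :
    umin w (max 1 (c + 1 - (s1 + s2 + s3))) ≤ d + 1 - (s1 + s2 + s3) := by
  have hcn : c * n ≤ b1 + b2 + b3 := by rw [hc]; exact Nat.div_mul_le_self _ _
  have hkey : ∀ k, s1 * n + s2 * n + s3 * n + k * n < S → s1 + s2 + s3 + k + 1 ≤ d := by
    intro k hk
    apply key_ineq hSd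
    calc (s1 + s2 + s3 + k) * n = s1 * n + s2 * n + s3 * n + k * n := by ring
      _ < S := hk
  have hc2 : c < 3 := by
    rw [hc]; apply Nat.div_lt_of_lt_mul; omega
  obtain ⟨t1, ht1'⟩ : ∃ t, t = s1 * n := ⟨_, rfl⟩
  obtain ⟨t2, ht2'⟩ : ∃ t, t = s2 * n := ⟨_, rfl⟩
  obtain ⟨t3, ht3'⟩ : ∃ t, t = s3 * n := ⟨_, rfl⟩
  have z1 : s1 = 0 → t1 = 0 := by intro h; rw [ht1', h, zero_mul]
  have z2 : s2 = 0 → t2 = 0 := by intro h; rw [ht2', h, zero_mul]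
  have z3 : s3 = 0 → t3 = 0 := by intro h; rw [ht3', h, zero_mul]
  rw [← ht1'] at ht1
  rw [← ht2'] at ht2
  rw [← ht3'] at ht3
  rw [← ht1', ← ht2', ← ht3'] at hkey
  have k1 := hkey 1
  have k2 := hkey 2
  have k3 := hkey 3
  have k4 := hkey 4
  simp only [one_mul] at k1
  have g0 : w 0 = false ∨ (w 0 = true ∧ 2 * n ≤ b1 + m1 + m3 + 1 ∧ s1 = 0 ∧ b1 + 2 ≤ n) := by
    cases h : w 0
    · exact Or.inl rfl
    · exact Or.inr ⟨rfl, hw0 h⟩
  have g1 : w 1 = false ∨ (w 1 = true ∧ 2 * n ≤ b1 + m2 + m4 + 1 ∧ s1 = 0 ∧ b1 + 2 ≤ n) := by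
    cases h : w 1
    · exact Or.inl rfl
    · exact Or.inr ⟨rfl, hw1 h⟩
  have g2 : w 2 = false ∨ (w 2 = true ∧ 2 * n ≤ b2 + m1 + m4 + 1 ∧ s2 = 0 ∧ b2 + 2 ≤ n) := by
    cases h : w 2
    · exact Or.inl rfl
    · exact Or.inr ⟨rfl, hw2 h⟩
  have g3 : w 3 = false ∨ (w 3 = true ∧ 2 * n ≤ b2 + m2 + m3 + 1 ∧ s2 = 0 ∧ b2 + 2 ≤ n) := by
    cases h : w 3
    · exact Or.inl rfl
    · exact Or.inr ⟨rfl, hw3 h⟩
  have g4 : w 4 = false ∨ (w 4 = true ∧ 2 * n ≤ b3 + m1 + m2 + 1 ∧ s3 = 0 ∧ b3 + 2 ≤ n) := by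
    cases h : w 4
    · exact Or.inl rfl
    · exact Or.inr ⟨rfl, hw4 h⟩
  have hcase : c ≤ s1 + s2 + s3 ∨ c = s1 + s2 + s3 + 1 ∨ (c = 2 ∧ s1 = 0 ∧ s2 = 0 ∧ s3 = 0) := by
    omega
  have hcn3 : c = s1 + s2 + s3 + 1 → t1 + t2 + t3 + n ≤ b1 + b2 + b3 := by
    intro h
    rw [h] at hcn
    have : (s1 + s2 + s3 + 1) * n = t1 + t2 + t3 + n := by rw [ht1', ht2', ht3']; ring
    omega
  clear hw0 hw1 hw2 hw3 hw4 hc hSd hkey ht1' ht2' ht3'
  rcases hcase with hcase | hcase | hcase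
  · have hmax : max 1 (c + 1 - (s1 + s2 + s3)) = 1 := by omega
    rw [hmax]
    clear hcn hcase hmax
    rcases g0 with g0 | ⟨g0, u0, v0, x0⟩ <;> rcases g1 with g1 | ⟨g1, u1, v1, x1⟩ <;>
    rcases g2 with g2 | ⟨g2, u2, v2, x2⟩ <;> rcases g3 with g3 | ⟨g3, u3, v3, x3⟩ <;>
    rcases g4 with g4 | ⟨g4, u4, v4, x4⟩ <;>
    simp [umin, g0, g1, g2, g3, g4] <;> omega
  · have hmax : max 1 (c + 1 - (s1 + s2 + s3)) = 2 := by omega
    rw [hmax]
    have hcn2 := hcn3 hcase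
    clear hcn hcase hmax hcn3
    rcases g0 with g0 | ⟨g0, u0, v0, x0⟩ <;> rcases g1 with g1 | ⟨g1, u1, v1, x1⟩ <;>
    rcases g2 with g2 | ⟨g2, u2, v2, x2⟩ <;> rcases g3 with g3 | ⟨g3, u3, v3, x3⟩ <;>
    rcases g4 with g4 | ⟨g4, u4, v4, x4⟩ <;>
    simp [umin, g0, g1, g2, g3, g4] <;> omega
  · have hmax : max 1 (c + 1 - (s1 + s2 + s3)) = 3 := by omega
    rw [hmax]
    rw [hcase.1] at hcn
    clear hmax
    rcases g0 with g0 | ⟨g0, u0, v0, x0⟩ <;> rcases g1 with g1 | ⟨g1, u1, v1, x1⟩ <;>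
    rcases g2 with g2 | ⟨g2, u2, v2, x2⟩ <;> rcases g3 with g3 | ⟨g3, u3, v3, x3⟩ <;>
    rcases g4 with g4 | ⟨g4, u4, v4, x4⟩ <;>
    simp [umin, g0, g1, g2, g3, g4] <;> omega

/-- The indicator of the value `n - 1`. -/
def fl (n : ℕ) (a : Fin 7 → ℕ) (i : Fin 7) : ℕ := if a i + 1 = n then 1 else 0

/-- The sum of the exponents of the lines through a triple point. -/
def aq (a : Fin 7 → ℕ) (q : Fin 6) : ℕ := a (nT q 0) + a (nT q 1) + a (nT q 2)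

/-- The number of lines through `q` with exponent `n - 1`. -/
def sq (n : ℕ) (a : Fin 7 → ℕ) (q : Fin 6) : ℕ :=
  fl n a (nT q 0) + fl n a (nT q 1) + fl n a (nT q 2)

/-- The line joining two triple points. -/
def nJ (q p : Fin 6) : Fin 7 :=
  if nT q 0 ∈ ntri p then nT q 0 else if nT q 1 ∈ ntri p then nT q 1 else nT q 2

/-- The class of the pencil at `q`. -/
def epsq (n : ℕ) (a : Fin 7 → ℕ) (q p : Fin 6) : ℕ :=
  if p = q then aq a q / n + 1 - sq n a q else (aq a p + 1) / n - fl n a (nJ q p)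

theorem run_mono {k r : ℕ} (inc : Fin k → Fin r → Bool) (l : List (Fin k)) :
    ∀ (u u' : ℕ) (ε : Fin r → ℕ), u ≤ u' → TConf.run inc l u ε = true →
      TConf.run inc l u' ε = true := by
  induction l with
  | nil => intro u u' ε _ h; exact h
  | cons i l ih =>
    intro u u' ε hu h
    cases u with
    | zero => simp [TConf.run] at h
    | succ u =>
      cases u' with
      | zero => omega
      | succ u' =>
        rw [TConf.run, Bool.and_eq_true, decide_eq_true_eq] at h ⊢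
        exact ⟨by omega, ih u u' _ (by omega) h.2⟩

theorem exists_wbits (w : Fin 5 → Bool) : ∃ m, ∀ x, wbits m x = w x := by
  have h : ∀ b0 b1 b2 b3 b4 : Bool, ∃ m, wbits m 0 = b0 ∧ wbits m 1 = b1 ∧ wbits m 2 = b2 ∧
      wbits m 3 = b3 ∧ wbits m 4 = b4 := by decide +kernel
  obtain ⟨m, h0, h1, h2, h3, h4⟩ := h (w 0) (w 1) (w 2) (w 3) (w 4)
  refine ⟨m, fun x => ?_⟩
  fin_cases x <;> assumption

theorem fl_le (n : ℕ) (a : Fin 7 → ℕ) (i : Fin 7) : fl n a i ≤ 1 := by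
  unfold fl; split_ifs <;> omega

theorem fl_mul (n : ℕ) (a : Fin 7 → ℕ) (i : Fin 7) : fl n a i * n ≤ a i + fl n a i := by
  unfold fl; split_ifs <;> omega

theorem perm_q (a : Fin 7 → ℕ) (q : Fin 6) : aq a q = a (nLN q 0) + a (nLN q 1) + a (nLN q 2) := by
  fin_cases q <;> simp [aq, nT, nLN] <;> ring

theorem perm_s (n : ℕ) (a : Fin 7 → ℕ) (q : Fin 6) :
    sq n a q = fl n a (nLN q 0) + fl n a (nLN q 1) + fl n a (nLN q 2) := by
  fin_cases q <;> simp [sq, nT, nLN] <;> ring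

theorem perm_0 (a : Fin 7 → ℕ) (q : Fin 6) : aq a (nPN q 0) =
    a (nLN q 0) + a (nLN q 3) + a (nLN q 5) := by
  fin_cases q <;> simp [aq, nT, nLN, nPN] <;> ring

theorem perm_1 (a : Fin 7 → ℕ) (q : Fin 6) : aq a (nPN q 1) =
    a (nLN q 0) + a (nLN q 4) + a (nLN q 6) := by
  fin_cases q <;> simp [aq, nT, nLN, nPN] <;> ring

theorem perm_2 (a : Fin 7 → ℕ) (q : Fin 6) : aq a (nPN q 2) =
    a (nLN q 1) + a (nLN q 3) + a (nLN q 6) := by
  fin_cases q <;> simp [aq, nT, nLN, nPN] <;> ring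

theorem perm_3 (a : Fin 7 → ℕ) (q : Fin 6) : aq a (nPN q 3) =
    a (nLN q 1) + a (nLN q 4) + a (nLN q 5) := by
  fin_cases q <;> simp [aq, nT, nLN, nPN] <;> ring

theorem perm_4 (a : Fin 7 → ℕ) (q : Fin 6) : aq a (nPN q 4) =
    a (nLN q 2) + a (nLN q 3) + a (nLN q 4) := by
  fin_cases q <;> simp [aq, nT, nLN, nPN] <;> ring

theorem perm_sum (a : Fin 7 → ℕ) (q : Fin 6) : ∑ i, a i =
    a (nLN q 0) + a (nLN q 1) + a (nLN q 2) + a (nLN q 3) + a (nLN q 4) + a (nLN q 5) +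
      a (nLN q 6) := by
  fin_cases q <;> simp [nLN, Fin.sum_univ_succ] <;> ring

/-- The line of a labelled point. -/
def xl : Fin 5 → Fin 7 := ![0, 0, 1, 1, 2]

theorem nJ_eq : ∀ (q : Fin 6) (x : Fin 5), nJ q (nPN q x) = nLN q (xl x) := by
  decide +kernel

theorem exists_label : ∀ q p : Fin 6, p ≠ q → ∃ x, nPN q x = p := by decide +kernel

theorem label_inj : ∀ (q : Fin 6) (x x' : Fin 5), nPN q x = nPN q x' → x = x' := by
  decide +kernel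

theorem label_ne : ∀ (q : Fin 6) (x : Fin 5), nPN q x ≠ q := by decide +kernel

theorem pencil_class (n : ℕ) (hn : 8 ≤ n) (a : Fin 7 → ℕ) (ha : ∀ i, a i < n) (d : ℕ)
    (hd : ∑ i, a i = d * n) (q : Fin 6) (hq : aq a q < d * n) :
    NF.LBVc (-((d + 1 - sq n a q : ℕ) : ℤ)) (epsq n a q) := by
  let w : Fin 5 → Bool := fun x =>
    decide (2 * n ≤ aq a (nPN q x) + 1 ∧ fl n a (nLN q (xl x)) = 0)
  have hw : ∀ x, w x = true → 2 * n ≤ aq a (nPN q x) + 1 ∧ fl n a (nLN q (xl x)) = 0 ∧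
      a (nLN q (xl x)) + 2 ≤ n := by
    intro x hx
    have h1 := of_decide_eq_true hx
    refine ⟨h1.1, h1.2, ?_⟩
    have h2 := ha (nLN q (xl x))
    have h3 := h1.2
    unfold fl at h3
    split_ifs at h3 with h4
    omega
  have hcore := num_core n d (a (nLN q 0)) (a (nLN q 1)) (a (nLN q 2)) (a (nLN q 3))
    (a (nLN q 4)) (a (nLN q 5)) (a (nLN q 6)) (fl n a (nLN q 0)) (fl n a (nLN q 1))
    (fl n a (nLN q 2)) (∑ i, a i) (aq a q / n) hn (ha _) (ha _) (ha _) (ha _) (ha _) (ha _) (ha _)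
    (fl_le _ _ _) (fl_le _ _ _) (fl_le _ _ _) (fl_mul _ _ _) (fl_mul _ _ _) (fl_mul _ _ _)
    (perm_sum a q) hd (by rw [← perm_q, hd]; exact hq) w
    (fun h => by have := hw 0 h; rw [perm_0] at this; exact this)
    (fun h => by have := hw 1 h; rw [perm_1] at this; exact this)
    (fun h => by have := hw 2 h; rw [perm_2] at this; exact this)
    (fun h => by have := hw 3 h; rw [perm_3] at this; exact this)
    (fun h => by have := hw 4 h; rw [perm_4] at this; exact this)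
    (by rw [perm_q])
  rw [← perm_s] at hcore
  obtain ⟨m, hm⟩ := exists_wbits w
  have hmw : wbits m = w := funext hm
  have hc3 : aq a q / n < 3 := by
    apply Nat.div_lt_of_lt_mul
    have h0 := ha (nT q 0)
    have h1 := ha (nT q 1)
    have h2 := ha (nT q 2)
    unfold aq
    omega
  obtain ⟨e, he⟩ : ∃ e : Fin 3, e.val + 1 = max 1 (aq a q / n + 1 - sq n a q) := by
    refine ⟨⟨max 1 (aq a q / n + 1 - sq n a q) - 1, by omega⟩, ?_⟩
    simp only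
    omega
  have hrun := cert_check q e m
  rw [hmw, he] at hrun
  have hrun2 := run_mono _ _ _ _ _ hcore hrun
  have hL := NF.LBVc_of_run NF_ok ninc (fun i q => by simp [ninc]; rfl) _ _ _ hrun2
  refine NF.LBVc_mono NF_ok hL fun p => ?_
  unfold epsq epsW
  by_cases hp : p = q
  · rw [if_pos hp, if_pos hp]; omega
  · rw [if_neg hp, if_neg hp]
    obtain ⟨x, hx⟩ := exists_label q p hp
    have h2 : (aq a p + 1) / n < 3 := by
      apply Nat.div_lt_of_lt_mul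
      have h0 := ha (nT p 0)
      have h1 := ha (nT p 1)
      have h2 := ha (nT p 2)
      unfold aq
      omega
    split_ifs with hex
    · omega
    · have hwx : w x ≠ true := fun h => hex ⟨x, hx, h⟩
      have h3 : ¬ (2 * n ≤ aq a (nPN q x) + 1 ∧ fl n a (nLN q (xl x)) = 0) := fun h =>
        hwx (decide_eq_true h)
      rw [← nJ_eq, hx] at h3
      by_cases h4 : fl n a (nJ q p) = 0
      · have h5 : aq a p + 1 < 2 * n := by
          by_contra h6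
          exact h3 ⟨by omega, h4⟩
        have : (aq a p + 1) / n < 2 := by
          apply Nat.div_lt_of_lt_mul
          omega
        omega
      · omega

end Pool.Agent.H94_hk
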