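import Pool.Agent.H94_hk.Pencil

/-!
# Solving the cocycle equations for one character
-/

namespace Pool.Agent.H94_hk

open MvPolynomial

noncomputable section

/-- The order required for the pair `i, j` along the curve `D`. -/
def bnd (n N : ℕ) (a : Fin 7 → ℕ) (i j : Fin 7) : Crv 7 6 → ℕ
  | Sum.inl l => N - (if l = i ∨ l = j then fl n a l else 0)
  | Sum.inr q => 3 * N - (aq a q + (if (i ∈ ntri q ↔ j ∈ ntri q) then 0 else 1)) / n

/-- The data of a cocycle for one character. -/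
structure CharData (n N d : ℕ) (a : Fin 7 → ℕ) (G : Crv 7 6 → Crv 7 6 → Fin 7 → R3) :
    Prop where
  sym : ∀ D D', NF.meet D D' → G D D' = G D' D
  hom : ∀ D D' i, (G D D' i).IsHomogeneous (7 * N - d)
  rel : ∀ D D' q, NF.L (nT q 0) * G D D' (nT q 0) =
    NF.L (nT q 1) * G D D' (nT q 1) + NF.L (nT q 2) * G D D' (nT q 2)
  ord : ∀ D D' D'' i j, NF.meet D D' → NF.meet D D'' →
    (G D D' i - G D D' j) - (G D D'' i - G D D'' j) ∈ NF.J D (bnd n N a i j D)

/-- A solution of the cocycle equations for one character. -/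
structure CharSol (n N d : ℕ) (a : Fin 7 → ℕ) (G : Crv 7 6 → Crv 7 6 → Fin 7 → R3)
    (P : Fin 7 → R3) : Prop where
  hom : ∀ i, (P i).IsHomogeneous (7 * N - d)
  rel : ∀ q, NF.L (nT q 0) * P (nT q 0) =
    NF.L (nT q 1) * P (nT q 1) + NF.L (nT q 2) * P (nT q 2)
  reg : ∀ D D' i j, NF.meet D D' →
    (P i - P j) - (G D D' i - G D D' j) ∈ NF.J D (bnd n N a i j D)

theorem mem_ntri {i : Fin 7} {q : Fin 6} :
    i ∈ ntri q ↔ i = nT q 0 ∨ i = nT q 1 ∨ i = nT q 2 := by
  simp [ntri]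

theorem nT_ne : ∀ q : Fin 6, nT q 0 ≠ nT q 1 ∧ nT q 0 ≠ nT q 2 ∧ nT q 1 ≠ nT q 2 := by
  decide +kernel

theorem L_sum (q : Fin 6) : NF.L (nT q 0) = NF.L (nT q 1) + NF.L (nT q 2) := by
  have h : ∀ q j, nf (nT q 0) j = nf (nT q 1) j + nf (nT q 2) j := by decide +kernel
  change lin (zc (nf (nT q 0))) = lin (zc (nf (nT q 1))) + lin (zc (nf (nT q 2)))
  rw [← lin_add]
  congr 1
  funext j
  simp [zc, h q j]

/-- The relative potential at a triple point. -/
def E (q : Fin 6) (g : R3) (i : Fin 7) : R3 :=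
  if i = nT q 0 then 0 else if i = nT q 1 then -(NF.L (nT q 2) * g) else NF.L (nT q 1) * g

theorem E_zero (q : Fin 6) (g : R3) : E q g (nT q 0) = 0 := by simp [E]

theorem E_one (q : Fin 6) (g : R3) : E q g (nT q 1) = -(NF.L (nT q 2) * g) := by
  simp [E, (nT_ne q).1.symm]

theorem E_two (q : Fin 6) (g : R3) : E q g (nT q 2) = NF.L (nT q 1) * g := by
  simp [E, (nT_ne q).2.1.symm, (nT_ne q).2.2.symm]

theorem E_sub (q : Fin 6) (g g' : R3) (i : Fin 7) : E q g i - E q g' i = E q (g - g') i := by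
  unfold E; split_ifs <;> ring

theorem exists_third {q : Fin 6} {i j : Fin 7} (hi : i ∈ ntri q) (hj : j ∈ ntri q)
    (hij : i ≠ j) : ∃ m ∈ ntri q, m ≠ i ∧ m ≠ j ∧ (∀ l ∈ ntri q, l = i ∨ l = j ∨ l = m) ∧
      ∀ g, E q g i - E q g j = NF.L m * g ∨ E q g i - E q g j = -(NF.L m * g) := by
  have h01 := (nT_ne q).1
  have h02 := (nT_ne q).2.1
  have h12 := (nT_ne q).2.2
  have hs := L_sum q
  rw [mem_ntri] at hi hj
  rcases hi with rfl | rfl | rfl <;> rcases hj with rfl | rfl | rfl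
  · exact absurd rfl hij
  · refine ⟨nT q 2, by simp [ntri], h02.symm, h12.symm, fun l hl => ?_, fun g => Or.inl ?_⟩
    · rw [mem_ntri] at hl; tauto
    · rw [E_zero, E_one]; ring
  · refine ⟨nT q 1, by simp [ntri], h01.symm, h12, fun l hl => ?_, fun g => Or.inr ?_⟩
    · rw [mem_ntri] at hl; tauto
    · rw [E_zero, E_two]; ring
  · refine ⟨nT q 2, by simp [ntri], h12.symm, h02.symm, fun l hl => ?_, fun g => Or.inr ?_⟩
    · rw [mem_ntri] at hl; tauto
    · rw [E_zero, E_one]; ring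
  · exact absurd rfl hij
  · refine ⟨nT q 0, by simp [ntri], h01, h02, fun l hl => ?_, fun g => Or.inr ?_⟩
    · rw [mem_ntri] at hl; tauto
    · rw [E_one, E_two, hs]; ring
  · refine ⟨nT q 1, by simp [ntri], h12, h01.symm, fun l hl => ?_, fun g => Or.inl ?_⟩
    · rw [mem_ntri] at hl; tauto
    · rw [E_zero, E_two]; ring
  · refine ⟨nT q 0, by simp [ntri], h02, h01, fun l hl => ?_, fun g => Or.inl ?_⟩
    · rw [mem_ntri] at hl; tauto
    · rw [E_one, E_two, hs]; ring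
  · exact absurd rfl hij

/-- The pencil at a triple point, from the relation. -/
theorem extract (q : Fin 6) (x : Fin 7 → R3) (h : NF.L (nT q 0) * x (nT q 0) =
    NF.L (nT q 1) * x (nT q 1) + NF.L (nT q 2) * x (nT q 2)) :
    ∃ g, ∀ i ∈ ntri q, ∀ j ∈ ntri q, x i - x j = E q g i - E q g j := by
  rw [L_sum] at h
  have h1 : NF.L (nT q 1) * (x (nT q 0) - x (nT q 1)) =
      NF.L (nT q 2) * (x (nT q 2) - x (nT q 0)) := by linear_combination h
  have h2 : NF.L (nT q 2) ∣ NF.L (nT q 1) * (x (nT q 0) - x (nT q 1)) := by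
    rw [h1]; exact Dvd.intro _ rfl
  have h3 := ((NF.L_prime (nT q 2)).dvd_or_dvd h2).resolve_left
    (NF.not_L_dvd_L (nT_ne q).2.2.symm)
  obtain ⟨g, hg⟩ := h3
  have h4 : x (nT q 2) - x (nT q 0) = NF.L (nT q 1) * g := by
    apply mul_left_cancel₀ (NF.L_ne_zero (nT q 2))
    rw [← h1, hg]; ring
  have h5 : ∀ i ∈ ntri q, x i - x (nT q 0) = E q g i := by
    intro i hi
    rw [mem_ntri] at hi
    rcases hi with rfl | rfl | rfl
    · rw [E_zero, sub_self]
    · rw [E_one, ← hg]; ring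
    · rw [E_two, h4]
  refine ⟨g, fun i hi j hj => ?_⟩
  rw [← h5 i hi, ← h5 j hj]; ring

theorem E_inj {q : Fin 6} {i j : Fin 7} (hi : i ∈ ntri q) (hj : j ∈ ntri q)
    (hij : i ≠ j) {g g' : R3} (h : E q g i - E q g j = E q g' i - E q g' j) : g = g' := by
  obtain ⟨m, _, _, _, _, hm⟩ := exists_third hi hj hij
  have h1 : E q (g - g') i - E q (g - g') j = 0 := by
    rw [← E_sub, ← E_sub]; linear_combination h
  have h2 : NF.L m * (g - g') = 0 := by
    rcases hm (g - g') with h3 | h3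
    · rw [← h3, h1]
    · rw [h1] at h3
      exact (neg_eq_zero.mp h3.symm)
  exact sub_eq_zero.mp ((mul_eq_zero.mp h2).resolve_left (NF.L_ne_zero m))

/-- The orders of the pencil at `q`. -/
def Aq (n N : ℕ) (a : Fin 7 → ℕ) (q : Fin 6) : Crv 7 6 → ℕ
  | Sum.inl l => if l ∈ ntri q then N - fl n a l else N
  | Sum.inr p => if p = q then 3 * N - aq a q / n - 1 else 3 * N - (aq a p + 1) / n

set_option synthInstance.maxSize 10000 in
theorem two_tri' : ∀ (p q : Fin 6) (i j m : Fin 7), (p ≠ q ∧ i ∈ ntri q ∧ j ∈ ntri q ∧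
    m ∈ ntri q ∧ i ≠ j ∧ m ≠ i ∧ m ≠ j) →
    ((m ∈ ntri p ∧ i ∉ ntri p ∧ j ∉ ntri p) ∨ (m ∉ ntri p ∧ (i ∈ ntri p ↔ ¬ j ∈ ntri p))) := by
  decide +kernel

theorem two_tri (p q : Fin 6) (hp : p ≠ q) (i j m : Fin 7) (hi : i ∈ ntri q) (hj : j ∈ ntri q)
    (hm : m ∈ ntri q) (hij : i ≠ j) (hmi : m ≠ i) (hmj : m ≠ j) :
    (m ∈ ntri p ∧ i ∉ ntri p ∧ j ∉ ntri p) ∨ (m ∉ ntri p ∧ (i ∈ ntri p ↔ ¬ j ∈ ntri p)) :=
  two_tri' p q i j m ⟨hp, hi, hj, hm, hij, hmi, hmj⟩

theorem aq_div_lt {n : ℕ} {a : Fin 7 → ℕ} (_hn : 0 < n) (ha : ∀ i, a i < n) (q : Fin 6) :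
    aq a q / n < 3 := by
  apply Nat.div_lt_of_lt_mul
  have h0 := ha (nT q 0)
  have h1 := ha (nT q 1)
  have h2 := ha (nT q 2)
  unfold aq
  omega

theorem aq_div_lt' {n : ℕ} {a : Fin 7 → ℕ} (_hn : 0 < n) (ha : ∀ i, a i < n) (q : Fin 6) :
    (aq a q + 1) / n < 3 := by
  apply Nat.div_lt_of_lt_mul
  have h0 := ha (nT q 0)
  have h1 := ha (nT q 1)
  have h2 := ha (nT q 2)
  unfold aq
  omega

theorem div_succ_le (x n : ℕ) : (x + 1) / n ≤ x / n + 1 := by
  rcases Nat.eq_zero_or_pos n with rfl | hn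
  · simp
  · calc (x + 1) / n ≤ (x + n) / n := Nat.div_le_div_right (by omega)
      _ = x / n + 1 := Nat.add_div_right _ hn

/-- The orders of a pencil give the required orders. -/
theorem E_ord {n N : ℕ} {a : Fin 7 → ℕ} (hn : 0 < n) (hN : 1 ≤ N) (ha : ∀ i, a i < n) {q : Fin 6}
    {i j : Fin 7} (hi : i ∈ ntri q) (hj : j ∈ ntri q) {D : Crv 7 6} {g : R3}
    (hg : g ∈ NF.J D (Aq n N a q D)) : E q g i - E q g j ∈ NF.J D (bnd n N a i j D) := by
  by_cases hij : i = j
  · subst hij; rw [sub_self]; exact zero_mem _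
  obtain ⟨m, hmq, hmi, hmj, hall, hm⟩ := exists_third hi hj hij
  have h1 : NF.L m * g ∈ NF.J D (bnd n N a i j D) := by
    have h2 := NF.mul_mem_J (NF.L_mem_J D m) hg
    refine NF.J_mono D ?_ h2
    rcases D with l | p
    · change N - (if l = i ∨ l = j then fl n a l else 0) ≤ (if l = m then 1 else 0) +
        (if l ∈ ntri q then N - fl n a l else N)
      have hfl := fl_le n a l
      by_cases hl : l ∈ ntri q
      · rw [if_pos hl]
        rcases hall l hl with h | h | h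
        · subst h; simp
        · subst h; simp
        · subst h; simp; omega
      · rw [if_neg hl]; omega
    · by_cases hp : p = q
      · subst hp
        change 3 * N - (aq a p + (if (i ∈ ntri p ↔ j ∈ ntri p) then 0 else 1)) / n ≤
          (if m ∈ ntri p then 1 else 0) + (if p = p then 3 * N - aq a p / n - 1 else _)
        rw [if_pos hmq, if_pos rfl, if_pos (by simp [hi, hj])]
        have := aq_div_lt hn ha p
        rw [add_zero]
        omega
      · change 3 * N - (aq a p + (if (i ∈ ntri p ↔ j ∈ ntri p) then 0 else 1)) / n ≤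
          (if m ∈ ntri p then 1 else 0) + (if p = q then _ else 3 * N - (aq a p + 1) / n)
        rw [if_neg hp]
        rcases two_tri p q hp i j m hi hj hmq hij hmi hmj with ⟨h3, h4, h5⟩ | ⟨h3, h4⟩
        · rw [if_pos h3, if_pos (by simp [h4, h5]), add_zero]
          have := div_succ_le (aq a p) n
          have := aq_div_lt' hn ha p
          omega
        · rw [if_neg h3, if_neg (by tauto)]
          omega
  rcases hm g with h | h
  · rw [h]; exact h1
  · rw [h]; exact neg_mem h1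

end

end Pool.Agent.H94_hk
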