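import Pool.Agent.H94_hk.Solve

/-!
# Solving the cocycle equations for one character: pencils and connectivity
-/

namespace Pool.Agent.H94_hk

open MvPolynomial

noncomputable section

theorem hom_zero {T : ℕ} {P : R3} (hP : P.IsHomogeneous T) (B : Fin 7 → ℕ)
    (h : ∀ l, NF.L l ^ B l ∣ P) (hT : T < ∑ l, B l) : P = 0 := by
  by_contra h0
  obtain ⟨K, hK⟩ := NF.prod_L_dvd Finset.univ B P (fun l _ => h l)
  have hprod : (∏ l, NF.L l ^ B l).IsHomogeneous (∑ l, B l) := by
    refine IsHomogeneous.prod _ _ _ fun l _ => ?_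
    have := (NF.L_hom l).pow (B l)
    rwa [one_mul] at this
  have hp0 : (∏ l, NF.L l ^ B l) ≠ 0 :=
    Finset.prod_ne_zero_iff.mpr fun l _ => pow_ne_zero _ (NF.L_ne_zero l)
  have hK0 : K ≠ 0 := by
    rintro rfl
    rw [mul_zero] at hK; exact h0 hK
  rw [hK] at hP
  have := (hom_of_mul hprod hp0 hK0 hP).1
  omega

/-- Adjacency of lines through allowed triple points. -/
def adj (V : Fin 7 → Bool) (Q : Fin 6 → Bool) (i j : Fin 7) : Bool :=
  V i && V j && (decide (i = j) || (List.finRange 6).any fun q => Q q && ninc i q && ninc j q)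

def adj2 (V : Fin 7 → Bool) (Q : Fin 6 → Bool) (i j : Fin 7) : Bool :=
  (List.finRange 7).any fun m => adj V Q i m && adj V Q m j

def adj4 (V : Fin 7 → Bool) (Q : Fin 6 → Bool) (i j : Fin 7) : Bool :=
  (List.finRange 7).any fun m => adj2 V Q i m && adj2 V Q m j

theorem of_adj4 {V : Fin 7 → Bool} {Q : Fin 6 → Bool} {R : Fin 7 → Fin 7 → Prop}
    (refl : ∀ i, R i i) (trans : ∀ i j m, R i j → R j m → R i m)
    (h : ∀ q, Q q = true → ∀ i ∈ ntri q, ∀ j ∈ ntri q, V i = true → V j = true → R i j)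
    {i j : Fin 7} (hij : adj4 V Q i j = true) : R i j := by
  have h1 : ∀ i j, adj V Q i j = true → R i j := by
    intro i j h1
    simp only [adj, Bool.and_eq_true, Bool.or_eq_true, decide_eq_true_eq, List.any_eq_true,
      ninc] at h1
    obtain ⟨⟨hi, hj⟩, h2 | ⟨q, _, ⟨hq, hiq⟩, hjq⟩⟩ := h1
    · subst h2; exact refl i
    · exact h q hq i hiq j hjq hi hj
  have h2 : ∀ i j, adj2 V Q i j = true → R i j := by
    intro i j h2
    simp only [adj2, List.any_eq_true, Bool.and_eq_true] at h2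
    obtain ⟨m, _, ha, hb⟩ := h2
    exact trans _ _ _ (h1 _ _ ha) (h1 _ _ hb)
  simp only [adj4, List.any_eq_true, Bool.and_eq_true] at hij
  obtain ⟨m, _, ha, hb⟩ := hij
  exact trans _ _ _ (h2 _ _ ha) (h2 _ _ hb)

theorem check_all : ∀ p0 : Fin 6, ∀ i j : Fin 7,
    adj4 (fun _ => true) (fun q => decide (q ≠ p0)) i j = true := by
  decide +kernel

theorem check_line : ∀ p0 : Fin 6, ∀ i0 i j : Fin 7, i ≠ i0 → j ≠ i0 →
    adj4 (fun l => decide (l ≠ i0)) (fun q => decide (q ≠ p0)) i j = true := by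
  decide +kernel

theorem check_pt : ∀ p0 q0 : Fin 6, ∀ i j : Fin 7, i ∉ ntri q0 → j ∉ ntri q0 →
    adj4 (fun l => !ninc l q0) (fun q => decide (q ≠ p0) && decide (q ≠ q0)) i j = true := by
  decide +kernel

theorem conn_all (p0 : Fin 6) {R : Fin 7 → Fin 7 → Prop}
    (refl : ∀ i, R i i) (trans : ∀ i j m, R i j → R j m → R i m)
    (h : ∀ q, q ≠ p0 → ∀ i ∈ ntri q, ∀ j ∈ ntri q, R i j) (i j : Fin 7) : R i j :=
  of_adj4 refl trans (fun q hq i hi j hj _ _ => h q (of_decide_eq_true hq) i hi j hj)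
    (check_all p0 i j)

theorem conn_line (p0 : Fin 6) (i0 : Fin 7) {R : Fin 7 → Fin 7 → Prop}
    (refl : ∀ i, R i i) (trans : ∀ i j m, R i j → R j m → R i m)
    (h : ∀ q, q ≠ p0 → ∀ i ∈ ntri q, ∀ j ∈ ntri q, i ≠ i0 → j ≠ i0 → R i j) (i j : Fin 7)
    (hi : i ≠ i0) (hj : j ≠ i0) : R i j :=
  of_adj4 refl trans (fun q hq i hi j hj h1 h2 => h q (of_decide_eq_true hq) i hi j hj
    (of_decide_eq_true h1) (of_decide_eq_true h2)) (check_line p0 i0 i j hi hj)

theorem conn_pt (p0 q0 : Fin 6) {R : Fin 7 → Fin 7 → Prop}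
    (refl : ∀ i, R i i) (trans : ∀ i j m, R i j → R j m → R i m)
    (h : ∀ q, q ≠ p0 → q ≠ q0 → ∀ i ∈ ntri q, ∀ j ∈ ntri q, i ∉ ntri q0 → j ∉ ntri q0 → R i j)
    (i j : Fin 7) (hi : i ∉ ntri q0) (hj : j ∉ ntri q0) : R i j :=
  of_adj4 refl trans (fun q hq i hi j hj h1 h2 => by
    rw [Bool.and_eq_true] at hq
    refine h q (of_decide_eq_true hq.1) (of_decide_eq_true hq.2) i hi j hj ?_ ?_
    · simpa [ninc] using h1
    · simpa [ninc] using h2) (check_pt p0 q0 i j hi hj)

/-- The orders of a pencil from the orders of its differences. -/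
theorem ord_of_E {n N : ℕ} {a : Fin 7 → ℕ} (hn : 0 < n) (hN : 1 ≤ N) (ha : ∀ i, a i < n)
    {q : Fin 6} {D : Crv 7 6} {g : R3}
    (hg : ∀ i ∈ ntri q, ∀ j ∈ ntri q, E q g i - E q g j ∈ NF.J D (bnd n N a i j D)) :
    g ∈ NF.J D (Aq n N a q D) := by
  have hLm : ∀ {m : Fin 7} {b : ℕ} {x : R3}, (x = NF.L m * g ∨ x = -(NF.L m * g)) →
      x ∈ NF.J D (b + NF.val D m) → g ∈ NF.J D b := by
    intro m b x hx hx2
    apply NF.cancel (j := m)
    rcases hx with h | h
    · rwa [← h]
    · have h1 := neg_mem hx2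
      rwa [h, neg_neg] at h1
  rcases D with l | p
  · by_cases hl : l ∈ ntri q
    · obtain ⟨j, hj, hjl⟩ : ∃ j ∈ ntri q, l ≠ j := by
        have : ∀ (q : Fin 6) (l : Fin 7), ∃ j ∈ ntri q, l ≠ j := by decide +kernel
        exact this q l
      obtain ⟨m, hmq, hmi, hmj, hall, hm⟩ := exists_third hl hj hjl
      have h1 := hg l hl j hj
      apply hLm (hm g)
      refine NF.J_mono _ ?_ h1
      change (if l ∈ ntri q then N - fl n a l else N) + (if l = m then 1 else 0) ≤
        N - (if l = l ∨ l = j then fl n a l else 0)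
      rw [if_pos hl, if_neg (Ne.symm hmi)]
      simp
    · have h01 := (nT_ne q).1
      obtain ⟨m, hmq, hmi, hmj, hall, hm⟩ := exists_third (q := q) (i := nT q 0) (j := nT q 1)
        (by simp [ntri]) (by simp [ntri]) h01
      have h1 := hg (nT q 0) (by simp [ntri]) (nT q 1) (by simp [ntri])
      apply hLm (hm g)
      refine NF.J_mono _ ?_ h1
      change (if l ∈ ntri q then N - fl n a l else N) + (if l = m then 1 else 0) ≤
        N - (if l = nT q 0 ∨ l = nT q 1 then fl n a l else 0)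
      have h2 : l ≠ m := by rintro rfl; exact hl hmq
      have h3 : l ≠ nT q 0 := by rintro rfl; exact hl (by simp [ntri])
      have h4 : l ≠ nT q 1 := by rintro rfl; exact hl (by simp [ntri])
      rw [if_neg hl, if_neg h2, if_neg (by tauto)]
      simp
  · by_cases hp : p = q
    · subst hp
      have h01 := (nT_ne p).1
      obtain ⟨m, hmq, hmi, hmj, hall, hm⟩ := exists_third (q := p) (i := nT p 0) (j := nT p 1)
        (by simp [ntri]) (by simp [ntri]) h01
      have h1 := hg (nT p 0) (by simp [ntri]) (nT p 1) (by simp [ntri])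
      apply hLm (hm g)
      refine NF.J_mono _ ?_ h1
      change (if p = p then 3 * N - aq a p / n - 1 else 3 * N - (aq a p + 1) / n) +
        (if m ∈ ntri p then 1 else 0) ≤
        3 * N - (aq a p + (if (nT p 0 ∈ ntri p ↔ nT p 1 ∈ ntri p) then 0 else 1)) / n
      rw [if_pos rfl, if_pos hmq, if_pos (by simp [ntri])]
      have := aq_div_lt hn ha p
      rw [add_zero]
      omega
    · obtain ⟨i, j, m', hi, hj, hm', hij, hmi', hmj', hmp⟩ : ∃ i j m : Fin 7, i ∈ ntri q ∧
          j ∈ ntri q ∧ m ∈ ntri q ∧ i ≠ j ∧ m ≠ i ∧ m ≠ j ∧ m ∉ ntri p := by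
        have : ∀ p q : Fin 6, p ≠ q → ∃ i j m : Fin 7, i ∈ ntri q ∧
          j ∈ ntri q ∧ m ∈ ntri q ∧ i ≠ j ∧ m ≠ i ∧ m ≠ j ∧ m ∉ ntri p := by decide +kernel
        exact this p q hp
      obtain ⟨m, hmq, hmi, hmj, hall, hm⟩ := exists_third hi hj hij
      have hmm : m' = m := by
        rcases hall m' hm' with h | h | h
        · exact absurd h hmi'
        · exact absurd h hmj'
        · exact h
      subst hmm
      have h1 := hg i hi j hj
      apply hLm (hm g)
      refine NF.J_mono _ ?_ h1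
      change (if p = q then 3 * N - aq a q / n - 1 else 3 * N - (aq a p + 1) / n) +
        (if m' ∈ ntri p then 1 else 0) ≤
        3 * N - (aq a p + (if (i ∈ ntri p ↔ j ∈ ntri p) then 0 else 1)) / n
      rw [if_neg hp, if_neg hmp]
      rcases two_tri p q hp i j m' hi hj hm' hij hmi' hmj' with ⟨h3, h4, h5⟩ | ⟨h3, h4⟩
      · exact absurd h3 hmp
      · rw [if_neg (by tauto)]
        omega

theorem J_filter : ∀ p q : Fin 6, p ≠ q → (ntri p).filter (fun i => i ∈ ntri q) = {nJ q p} := by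
  decide +kernel

theorem nJ_mem : ∀ p q : Fin 6, p ≠ q → nJ q p ∈ ntri p := by decide +kernel

theorem ntri_card : ∀ q : Fin 6, (ntri q).card = 3 := by decide +kernel

theorem sum_ntri (q : Fin 6) (F : Fin 7 → ℕ) :
    ∑ i ∈ ntri q, F i = F (nT q 0) + F (nT q 1) + F (nT q 2) := by
  have h01 := (nT_ne q).1
  have h02 := (nT_ne q).2.1
  have h12 := (nT_ne q).2.2
  rw [ntri, Finset.sum_insert (by simp [h01, h02]), Finset.sum_insert (by simp [h12]),
    Finset.sum_singleton, add_assoc]

theorem pencil_LBV (n : ℕ) (hn : 8 ≤ n) (a : Fin 7 → ℕ) (ha : ∀ i, a i < n) (d : ℕ)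
    (hd : ∑ i, a i = d * n) (q : Fin 6) (hq : aq a q < d * n) :
    ∃ N0, ∀ N ≥ N0, NF.LBV (7 * N - d - 1) (Aq n N a q) := by
  obtain ⟨b, hb⟩ := pencil_class n hn a ha d hd q hq
  refine ⟨b + d + 5, fun N hN => ?_⟩
  have hsq : sq n a q ≤ 3 := by
    have h0 := fl_le n a (nT q 0)
    have h1 := fl_le n a (nT q 1)
    have h2 := fl_le n a (nT q 2)
    unfold sq; omega
  have hsn : sq n a q * n ≤ aq a q + sq n a q := by
    have h0 := fl_mul n a (nT q 0)
    have h1 := fl_mul n a (nT q 1)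
    have h2 := fl_mul n a (nT q 2)
    unfold sq aq
    have : (fl n a (nT q 0) + fl n a (nT q 1) + fl n a (nT q 2)) * n =
      fl n a (nT q 0) * n + fl n a (nT q 1) * n + fl n a (nT q 2) * n := by ring
    omega
  have hsd : sq n a q ≤ d := by
    have h1 : sq n a q * n < (d + 1) * n := by
      have : (d + 1) * n = d * n + n := by ring
      omega
    have := Nat.lt_of_mul_lt_mul_right h1
    omega
  have hsc : sq n a q ≤ aq a q / n + 1 := by
    have h1 : aq a q < (aq a q / n + 1) * n := by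
      rw [mul_comm]; exact Nat.lt_mul_div_succ _ (by omega)
    have h2 : sq n a q * n < (aq a q / n + 2) * n := by
      have : (aq a q / n + 2) * n = (aq a q / n + 1) * n + n := by ring
      omega
    have := Nat.lt_of_mul_lt_mul_right h2
    omega
  have hAl : ∀ l, Aq n N a q (Sum.inl l) + (if l ∈ ntri q then fl n a l else 0) = N := by
    intro l
    have := fl_le n a l
    change (if l ∈ ntri q then N - fl n a l else N) + _ = N
    split_ifs <;> omega
  refine hb _ _ (fun i => ?_) ?_ (fun p => ?_)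
  · have h1 := hAl i
    have h2 := fl_le n a i
    split_ifs at h1 <;> omega
  · have h1 : ∑ l, (Aq n N a q (Sum.inl l) + (if l ∈ ntri q then fl n a l else 0)) = 7 * N := by
      rw [Finset.sum_congr rfl fun l _ => hAl l]; simp
    rw [Finset.sum_add_distrib, Finset.sum_ite_mem, Finset.univ_inter, sum_ntri] at h1
    change _ + sq n a q = 7 * N at h1
    have h2 : (∑ i, (Aq n N a q (Sum.inl i) : ℤ)) = 7 * N - sq n a q := by
      have h3 : ((∑ i, Aq n N a q (Sum.inl i) : ℕ) : ℤ) + (sq n a q : ℤ) = 7 * N := by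
        exact_mod_cast h1
      push_cast at h3
      linarith
    rw [h2]
    omega
  · change Aq n N a q (Sum.inr p) + epsq n a q p = ∑ i ∈ ntri p, Aq n N a q (Sum.inl i)
    have h1 : ∑ i ∈ ntri p, (Aq n N a q (Sum.inl i) + (if i ∈ ntri q then fl n a i else 0)) =
        3 * N := by
      rw [Finset.sum_congr rfl fun l _ => hAl l, Finset.sum_const, ntri_card, smul_eq_mul]
    rw [Finset.sum_add_distrib] at h1
    by_cases hp : p = q
    · subst hp
      have h2 : ∑ i ∈ ntri p, (if i ∈ ntri p then fl n a i else 0) = sq n a p := by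
        rw [Finset.sum_congr rfl fun l hl => if_pos hl, sum_ntri]; rfl
      rw [h2] at h1
      simp only [Aq, epsq, if_true] at h1 ⊢
      have := aq_div_lt (by omega) ha p
      omega
    · have h2 : ∑ i ∈ ntri p, (if i ∈ ntri q then fl n a i else 0) = fl n a (nJ q p) := by
        rw [← Finset.sum_filter, J_filter p q hp, Finset.sum_singleton]
      rw [h2] at h1
      have h3 : Aq n N a q (Sum.inr p) = 3 * N - (aq a p + 1) / n := by simp [Aq, hp]
      have h4 : epsq n a q p = (aq a p + 1) / n - fl n a (nJ q p) := by simp [epsq, hp]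
      have h5 : fl n a (nJ q p) ≤ (aq a p + 1) / n := by
        unfold fl
        split_ifs with h
        · rw [Nat.one_le_div_iff (by omega)]
          have h6 := nJ_mem p q hp
          have h7 : aq a p = ∑ i ∈ ntri p, a i := by rw [sum_ntri]; rfl
          have h8 : a (nJ q p) ≤ ∑ i ∈ ntri p, a i :=
            Finset.single_le_sum (f := a) (fun _ _ => Nat.zero_le _) h6
          omega
        · exact Nat.zero_le _
      have h6 := aq_div_lt' (by omega) ha p
      rw [h3, h4]
      omega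

end

end Pool.Agent.H94_hk
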