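import Pool.Agent.H94_hk.Solve2

/-!
# Solving the cocycle equations for one nontrivial character
-/

namespace Pool.Agent.H94_hk

open MvPolynomial

noncomputable section

theorem pencil_sol {n N d : ℕ} {a : Fin 7 → ℕ} {G : Crv 7 6 → Crv 7 6 → Fin 7 → R3}
    (hn : 0 < n) (hN : d + 2 ≤ N) (ha : ∀ i, a i < n) (hG : CharData n N d a G) (q : Fin 6)
    (hL : NF.LBV (7 * N - d - 1) (Aq n N a q)) :
    ∃ g : R3, g.IsHomogeneous (7 * N - d - 1) ∧ ∀ D D', NF.meet D D' → ∀ i ∈ ntri q,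
      ∀ j ∈ ntri q, (E q g i - E q g j) - (G D D' i - G D D' j) ∈
        NF.J D (bnd n N a i j D) := by
  have hex : ∀ D D', ∃ g, ∀ i ∈ ntri q, ∀ j ∈ ntri q,
      G D D' i - G D D' j = E q g i - E q g j := fun D D' => extract q _ (hG.rel D D' q)
  choose γ hγ using hex
  have h01 := (nT_ne q).1
  obtain ⟨m, hmq, hmi, hmj, hall, hm⟩ := exists_third (q := q) (i := nT q 0) (j := nT q 1)
    (by simp [ntri]) (by simp [ntri]) h01
  have hLm := NF.L_hom m
  have hγh : ∀ D D', (γ D D').IsHomogeneous (7 * N - d - 1) := by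
    intro D D'
    by_cases h0 : γ D D' = 0
    · rw [h0]; exact isHomogeneous_zero _ _ _
    have h1 := (hG.hom D D' (nT q 0)).sub (hG.hom D D' (nT q 1))
    rw [hγ D D' (nT q 0) (by simp [ntri]) (nT q 1) (by simp [ntri])] at h1
    rcases hm (γ D D') with h | h
    · rw [h] at h1
      exact (hom_of_mul hLm (NF.L_ne_zero m) h0 h1).2
    · rw [h] at h1
      have h2 := h1.neg
      rw [neg_neg] at h2
      exact (hom_of_mul hLm (NF.L_ne_zero m) h0 h2).2
  obtain ⟨P, hP, hP'⟩ := hL γ (by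
      intro D D' hD
      apply E_inj (q := q) (i := nT q 0) (j := nT q 1) (by simp [ntri]) (by simp [ntri]) h01
      rw [← hγ D D' _ (by simp [ntri]) _ (by simp [ntri]),
        ← hγ D' D _ (by simp [ntri]) _ (by simp [ntri]), hG.sym D D' hD]) hγh (by
      intro D D' D'' h1 h2
      apply ord_of_E hn (by omega) ha
      intro i hi j hj
      have h3 := hG.ord D D' D'' i j h1 h2
      rw [hγ D D' i hi j hj, hγ D D'' i hi j hj] at h3
      rw [← E_sub, ← E_sub]
      convert h3 using 1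
      ring)
  refine ⟨P, hP, fun D D' hD i hi j hj => ?_⟩
  have h1 := E_ord (i := i) (j := j) hn (by omega) ha hi hj (hP' D D' hD)
  rw [hγ D D' i hi j hj]
  rw [← E_sub, ← E_sub] at h1
  convert h1 using 1
  ring

/-- The polynomial `P` is a good candidate for the difference of the potentials of `i`, `j`. -/
def WP (n N d : ℕ) (a : Fin 7 → ℕ) (i0 : Fin 7) (G : Crv 7 6 → Crv 7 6 → Fin 7 → R3)
    (i j : Fin 7) (P : R3) : Prop :=
  P.IsHomogeneous (7 * N - d) ∧ ∀ l D', NF.meet (Sum.inl l) D' →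
    P - (G (Sum.inl l) D' i - G (Sum.inl l) D' j) ∈
      NF.J (Sum.inl l) (N - (if l = i0 then 0 else fl n a l))

theorem exists_meet (l : Fin 7) : ∃ D', NF.meet (Sum.inl l) D' := by
  have h : ∀ l : Fin 7, ∃ q, l ∈ ntri q := by decide +kernel
  obtain ⟨q, hq⟩ := h l
  exact ⟨Sum.inr q, hq⟩

theorem WP_unique {n N d : ℕ} {a : Fin 7 → ℕ} {i0 : Fin 7}
    {G : Crv 7 6 → Crv 7 6 → Fin 7 → R3} {i j : Fin 7} {P P' : R3} (hN : d + 2 ≤ N)
    (hI : ∑ l, (if l = i0 then 0 else fl n a l) < d)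
    (h : WP n N d a i0 G i j P) (h' : WP n N d a i0 G i j P') : P = P' := by
  rw [← sub_eq_zero]
  refine hom_zero (h.1.sub h'.1) (fun l => N - (if l = i0 then 0 else fl n a l))
    (fun l => ?_) ?_
  · obtain ⟨D', hD'⟩ := exists_meet l
    have h1 := sub_mem (h.2 l D' hD') (h'.2 l D' hD')
    rw [sub_sub_sub_cancel_right, TConf.mem_J_inl] at h1
    exact h1
  · have h1 : ∑ l : Fin 7, ((N - (if l = i0 then 0 else fl n a l)) +
        (if l = i0 then 0 else fl n a l)) = 7 * N := by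
      rw [Finset.sum_congr rfl fun l _ => Nat.sub_add_cancel (by
        have := fl_le n a l
        split_ifs <;> omega)]
      simp
    rw [Finset.sum_add_distrib] at h1
    omega

theorem WP_refl {n N d : ℕ} {a : Fin 7 → ℕ} {i0 : Fin 7}
    {G : Crv 7 6 → Crv 7 6 → Fin 7 → R3} (i : Fin 7) : WP n N d a i0 G i i 0 := by
  refine ⟨isHomogeneous_zero _ _ _, fun l D' _ => ?_⟩
  rw [sub_self, sub_zero]; exact zero_mem _

theorem WP_trans {n N d : ℕ} {a : Fin 7 → ℕ} {i0 : Fin 7}
    {G : Crv 7 6 → Crv 7 6 → Fin 7 → R3} {i j m : Fin 7} {P P' : R3}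
    (h : WP n N d a i0 G i j P) (h' : WP n N d a i0 G j m P') :
    WP n N d a i0 G i m (P + P') := by
  refine ⟨h.1.add h'.1, fun l D' hD' => ?_⟩
  convert add_mem (h.2 l D' hD') (h'.2 l D' hD') using 1
  ring

theorem WP_symm {n N d : ℕ} {a : Fin 7 → ℕ} {i0 : Fin 7}
    {G : Crv 7 6 → Crv 7 6 → Fin 7 → R3} {i j : Fin 7} {P : R3}
    (h : WP n N d a i0 G i j P) : WP n N d a i0 G j i (-P) := by
  refine ⟨h.1.neg, fun l D' hD' => ?_⟩
  convert neg_mem (h.2 l D' hD') using 1
  ring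

/-- The linear dependencies between the relations at the triple points. -/
def dvec : Fin 3 → Fin 6 → ℤ :=
  ![![1, -1, 1, -1, 0, 0], ![0, 0, 1, -1, -1, 1], ![1, -1, 0, 0, 1, -1]]

set_option synthInstance.maxSize 10000 in
theorem dvec_spec : ∀ (i0 : Fin 7) (q0 q : Fin 6), i0 ∈ ntri q0 → i0 ∈ ntri q → q ≠ q0 →
    ∃ k : Fin 3, dvec k q ≠ 0 ∧ ∀ q', q' ≠ q → q' ≠ q0 → (dvec k q' = 0 ∨ i0 ∉ ntri q') := by
  decide +kernel

theorem dvec_sum (u : Fin 7 → R3) (k : Fin 3) :
    ∑ q, (dvec k q : R3) * (u (nT q 0) - u (nT q 1) - u (nT q 2)) = 0 := by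
  fin_cases k <;> simp [Fin.sum_univ_succ, dvec, nT] <;> ring

theorem dep {u : Fin 7 → R3} {i0 : Fin 7} {q0 : Fin 6} (hi0 : i0 ∈ ntri q0)
    (h : ∀ q, i0 ∉ ntri q → u (nT q 0) = u (nT q 1) + u (nT q 2))
    (h0 : u (nT q0 0) = u (nT q0 1) + u (nT q0 2)) (q : Fin 6) :
    u (nT q 0) = u (nT q 1) + u (nT q 2) := by
  by_cases hq : i0 ∈ ntri q
  swap
  · exact h q hq
  by_cases hq0 : q = q0
  · subst hq0; exact h0
  obtain ⟨k, hk, hk'⟩ := dvec_spec i0 q0 q hi0 hq hq0
  have h1 := dvec_sum u k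
  rw [Finset.sum_eq_single q] at h1
  · have h2 : (dvec k q : R3) ≠ 0 := by exact_mod_cast hk
    have h3 := (mul_eq_zero.mp h1).resolve_left h2
    linear_combination h3
  · intro q' _ hq'
    by_cases hq'0 : q' = q0
    · subst hq'0; rw [h0]; ring
    · rcases hk' q' hq' hq'0 with h2 | h2
      · rw [h2]; simp
      · rw [h q' h2]; ring
  · intro h2; exact absurd (Finset.mem_univ q) h2

/-- Solution of the cocycle equations for a character with `d ≥ 1`. -/
theorem solve_pos {n N d : ℕ} {a : Fin 7 → ℕ} {G : Crv 7 6 → Crv 7 6 → Fin 7 → R3}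
    (hn : 8 ≤ n) (hd1 : 1 ≤ d) (hN : d + 2 ≤ N) (ha : ∀ i, a i < n) (hd : ∑ i, a i = d * n)
    (hG : CharData n N d a G)
    (hL : ∀ q, aq a q < d * n → NF.LBV (7 * N - d - 1) (Aq n N a q))
    (i0 : Fin 7) (hI : ∑ l, (if l = i0 then 0 else fl n a l) < d)
    (hloc : ∀ q, ¬ aq a q < d * n → i0 ∈ ntri q) (p0 : Fin 6)
    (hp0 : ∀ q, q ≠ p0 → aq a q < d * n) : ∃ P, CharSol n N d a G P := by
  classical
  have hn0 : 0 < n := by omega
  have hgex : ∀ q, ∃ g : R3, g.IsHomogeneous (7 * N - d - 1) ∧ (aq a q < d * n →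
      ∀ D D', NF.meet D D' → ∀ i ∈ ntri q, ∀ j ∈ ntri q,
      (E q g i - E q g j) - (G D D' i - G D D' j) ∈ NF.J D (bnd n N a i j D)) := by
    intro q
    by_cases hq : aq a q < d * n
    · obtain ⟨g, hg, hg'⟩ := pencil_sol hn0 hN ha hG q (hL q hq)
      exact ⟨g, hg, fun _ => hg'⟩
    · exact ⟨0, isHomogeneous_zero _ _ _, fun h => absurd h hq⟩
  choose g hgh hg using hgex
  have hEh : ∀ q i, (E q (g q) i).IsHomogeneous (7 * N - d) := by
    intro q i
    have h1 : 1 + (7 * N - d - 1) = 7 * N - d := by omega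
    have h2 : ∀ m, (NF.L m * g q).IsHomogeneous (7 * N - d) := by
      intro m
      have := (NF.L_hom m).mul (hgh q)
      rwa [h1] at this
    unfold E
    split_ifs
    · exact isHomogeneous_zero _ _ _
    · exact (h2 _).neg
    · exact h2 _
  -- edges
  have hedge : ∀ q, aq a q < d * n → ∀ i ∈ ntri q, ∀ j ∈ ntri q, i ≠ i0 → j ≠ i0 →
      WP n N d a i0 G i j (E q (g q) i - E q (g q) j) := by
    intro q hq i hi j hj hii hji
    refine ⟨(hEh q i).sub (hEh q j), fun l D' hD' => ?_⟩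
    refine NF.J_mono _ ?_ (hg q hq (Sum.inl l) D' hD' i hi j hj)
    change N - (if l = i0 then 0 else fl n a l) ≤ N - (if l = i ∨ l = j then fl n a l else 0)
    by_cases hl : l = i0
    · subst hl
      have h3 : ¬ (l = i ∨ l = j) := by
        rintro (h | h)
        · exact hii h.symm
        · exact hji h.symm
      rw [if_neg h3]
      exact Nat.sub_le _ _
    · rw [if_neg hl]
      split_ifs <;> omega
  have hconn : ∀ i j, i ≠ i0 → j ≠ i0 → ∃ P, WP n N d a i0 G i j P := by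
    intro i j hi hj
    exact conn_line (R := fun i j => ∃ P, WP n N d a i0 G i j P) p0 i0
      (fun i => ⟨0, WP_refl i⟩) (fun i j m ⟨P, hP⟩ ⟨P', hP'⟩ => ⟨P + P', WP_trans hP hP'⟩)
      (fun q hq i hi j hj h1 h2 => ⟨_, hedge q (hp0 q hq) i hi j hj h1 h2⟩) i j hi hj
  -- a base point and a triple point on line `i0`
  obtain ⟨w0, hw0⟩ : ∃ w0 : Fin 7, w0 ≠ i0 := by
    have : ∀ i0 : Fin 7, ∃ w0 : Fin 7, w0 ≠ i0 := by decide +kernel
    exact this i0
  obtain ⟨q0, m0, hq0, hi0q, hm0q, hm0⟩ : ∃ (q0 : Fin 6) (m0 : Fin 7), q0 ≠ p0 ∧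
      i0 ∈ ntri q0 ∧ m0 ∈ ntri q0 ∧ m0 ≠ i0 := by
    have : ∀ (i0 : Fin 7) (p0 : Fin 6), ∃ (q0 : Fin 6) (m0 : Fin 7), q0 ≠ p0 ∧
      i0 ∈ ntri q0 ∧ m0 ∈ ntri q0 ∧ m0 ≠ i0 := by decide +kernel
    exact this i0 p0
  have hPex : ∀ i, i ≠ i0 → ∃ P, WP n N d a i0 G i w0 P := fun i hi => hconn i w0 hi hw0
  choose! P1 hP1 using hPex
  let P : Fin 7 → R3 := fun i => if i = i0 then
    P1 m0 + (E q0 (g q0) i0 - E q0 (g q0) m0) else P1 i
  have hPne : ∀ i, i ≠ i0 → P i = P1 i := fun i hi => if_neg hi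
  have hPi0 : P i0 = P1 m0 + (E q0 (g q0) i0 - E q0 (g q0) m0) := if_pos rfl
  -- differences away from `i0`
  have hdiff : ∀ i j, i ≠ i0 → j ≠ i0 → WP n N d a i0 G i j (P i - P j) := by
    intro i j hi hj
    rw [hPne i hi, hPne j hj, sub_eq_add_neg]
    exact WP_trans (hP1 i hi) (WP_symm (hP1 j hj))
  have hloc1 : ∀ q, aq a q < d * n → ∀ i ∈ ntri q, ∀ j ∈ ntri q, i ≠ i0 → j ≠ i0 →
      P i - P j = E q (g q) i - E q (g q) j := by
    intro q hq i hi j hj h1 h2
    exact WP_unique hN hI (hdiff i j h1 h2) (hedge q hq i hi j hj h1 h2)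
  -- relations
  have hrel_of : ∀ q, (∀ i ∈ ntri q, ∀ j ∈ ntri q, P i - P j = E q (g q) i - E q (g q) j) →
      NF.L (nT q 0) * P (nT q 0) = NF.L (nT q 1) * P (nT q 1) + NF.L (nT q 2) * P (nT q 2) := by
    intro q hq
    have h1 := hq (nT q 0) (by simp [ntri]) (nT q 1) (by simp [ntri])
    have h2 := hq (nT q 0) (by simp [ntri]) (nT q 2) (by simp [ntri])
    rw [E_zero, E_one] at h1
    rw [E_zero, E_two] at h2
    have h3 := L_sum q
    linear_combination P (nT q 0) * h3 + NF.L (nT q 1) * h1 + NF.L (nT q 2) * h2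
  have hrel : ∀ q, NF.L (nT q 0) * P (nT q 0) =
      NF.L (nT q 1) * P (nT q 1) + NF.L (nT q 2) * P (nT q 2) := by
    intro q
    refine dep (u := fun i => NF.L i * P i) (i0 := i0) (q0 := q0) hi0q (fun q hq => ?_) ?_ q
    · apply hrel_of
      intro i hi j hj
      have hq1 : aq a q < d * n := by
        by_contra h
        exact hq (hloc q h)
      refine hloc1 q hq1 i hi j hj ?_ ?_
      · rintro rfl; exact hq hi
      · rintro rfl; exact hq hj
    · apply hrel_of
      have h1 : ∀ i ∈ ntri q0, P i - P m0 = E q0 (g q0) i - E q0 (g q0) m0 := by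
        intro i hi
        by_cases hii : i = i0
        · rw [hii, hPi0, hPne m0 hm0]; ring
        · exact hloc1 q0 (hp0 q0 hq0) i hi m0 hm0q hii hm0
      intro i hi j hj
      have h2 := h1 i hi
      have h3 := h1 j hj
      linear_combination h2 - h3
  -- the local form at every nonlocal triple point
  have hlocal : ∀ q, aq a q < d * n → ∀ i ∈ ntri q, ∀ j ∈ ntri q,
      P i - P j = E q (g q) i - E q (g q) j := by
    intro q hq
    obtain ⟨g', hg'⟩ := extract q P (hrel q)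
    obtain ⟨j, m, hj, hm, hjm, hj0, hm0'⟩ : ∃ j m : Fin 7, j ∈ ntri q ∧ m ∈ ntri q ∧ j ≠ m ∧
        j ≠ i0 ∧ m ≠ i0 := by
      have : ∀ (q : Fin 6) (i0 : Fin 7), ∃ j m : Fin 7, j ∈ ntri q ∧ m ∈ ntri q ∧ j ≠ m ∧
        j ≠ i0 ∧ m ≠ i0 := by decide +kernel
      exact this q i0
    have h1 : g' = g q := by
      apply E_inj hj hm hjm
      rw [← hg' j hj m hm]
      exact hloc1 q hq j hj m hm hj0 hm0'
    rw [← h1]
    exact hg'
  have hreg1 : ∀ q, aq a q < d * n → ∀ D D', NF.meet D D' → ∀ i ∈ ntri q, ∀ j ∈ ntri q,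
      (P i - P j) - (G D D' i - G D D' j) ∈ NF.J D (bnd n N a i j D) := by
    intro q hq D D' hD i hi j hj
    rw [hlocal q hq i hi j hj]
    exact hg q hq D D' hD i hi j hj
  refine ⟨P, ?_, hrel, ?_⟩
  · intro i
    by_cases hi : i = i0
    · rw [hi, hPi0]
      exact (hP1 m0 hm0).1.add ((hEh _ _).sub (hEh _ _))
    · rw [hPne i hi]; exact (hP1 i hi).1
  · intro D D' i j hD
    have hrefl : ∀ m, ∀ i, (P i - P i) - (G D D' i - G D D' i) ∈ NF.J D m := by
      intro m i; rw [sub_self, sub_self, sub_self]; exact zero_mem _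
    have htrans : ∀ m, ∀ i j l, (P i - P j) - (G D D' i - G D D' j) ∈ NF.J D m →
        (P j - P l) - (G D D' j - G D D' l) ∈ NF.J D m →
        (P i - P l) - (G D D' i - G D D' l) ∈ NF.J D m := by
      intro m i j l h1 h2
      convert add_mem h1 h2 using 1
      ring
    rcases D with l | q
    · have hall : ∀ i j, (P i - P j) - (G (Sum.inl l) D' i - G (Sum.inl l) D' j) ∈
          NF.J (Sum.inl l) (N - fl n a l) := by
        refine conn_all p0 (hrefl _) (htrans _) (fun q hq i hi j hj => ?_)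
        refine NF.J_mono _ ?_ (hreg1 q (hp0 q hq) _ _ hD i hi j hj)
        change N - fl n a l ≤ N - (if l = i ∨ l = j then fl n a l else 0)
        split_ifs <;> omega
      have hall2 : ∀ i j, i ≠ l → j ≠ l →
          (P i - P j) - (G (Sum.inl l) D' i - G (Sum.inl l) D' j) ∈ NF.J (Sum.inl l) N := by
        refine conn_line p0 l (hrefl _) (htrans _) (fun q hq i hi j hj h1 h2 => ?_)
        refine NF.J_mono _ ?_ (hreg1 q (hp0 q hq) _ _ hD i hi j hj)
        change N ≤ N - (if l = i ∨ l = j then fl n a l else 0)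
        rw [if_neg (by tauto)]
        omega
      change _ ∈ NF.J (Sum.inl l) (N - (if l = i ∨ l = j then fl n a l else 0))
      by_cases hl : l = i ∨ l = j
      · rw [if_pos hl]; exact hall i j
      · rw [if_neg hl, Nat.sub_zero]
        exact hall2 i j (by tauto) (by tauto)
    · have hall : ∀ i j, (P i - P j) - (G (Sum.inr q) D' i - G (Sum.inr q) D' j) ∈
          NF.J (Sum.inr q) (3 * N - (aq a q + 1) / n) := by
        refine conn_all p0 (hrefl _) (htrans _) (fun q' hq i hi j hj => ?_)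
        refine NF.J_mono _ ?_ (hreg1 q' (hp0 q' hq) _ _ hD i hi j hj)
        change 3 * N - (aq a q + 1) / n ≤
          3 * N - (aq a q + (if (i ∈ ntri q ↔ j ∈ ntri q) then 0 else 1)) / n
        have : (aq a q + (if (i ∈ ntri q ↔ j ∈ ntri q) then 0 else 1)) / n ≤
          (aq a q + 1) / n := Nat.div_le_div_right (by split_ifs <;> omega)
        omega
      change _ ∈ NF.J (Sum.inr q)
        (3 * N - (aq a q + (if (i ∈ ntri q ↔ j ∈ ntri q) then 0 else 1)) / n)
      by_cases hij : (i ∈ ntri q ↔ j ∈ ntri q)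
      swap
      · rw [if_neg hij]; exact hall i j
      rw [if_pos hij, add_zero]
      by_cases hi : i ∈ ntri q
      · have hj := hij.mp hi
        by_cases hq : aq a q < d * n
        · have h1 := hreg1 q hq _ _ hD i hi j hj
          change _ ∈ NF.J (Sum.inr q)
            (3 * N - (aq a q + (if (i ∈ ntri q ↔ j ∈ ntri q) then 0 else 1)) / n) at h1
          rwa [if_pos hij, add_zero] at h1
        · have h1 : aq a q ≤ d * n := by
            rw [← hd]
            have h7 : aq a q = ∑ i ∈ ntri q, a i := by rw [sum_ntri]; rfl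
            rw [h7]
            exact Finset.sum_le_sum_of_subset (Finset.subset_univ _)
          have h2 : aq a q = d * n := by omega
          have h3 : (aq a q + 1) / n = aq a q / n := by
            rw [h2, Nat.mul_div_cancel _ hn0, add_comm, Nat.add_mul_div_right _ _ hn0,
              Nat.div_eq_of_lt (by omega), zero_add]
          rw [← h3]; exact hall i j
      · have hj : j ∉ ntri q := fun h => hi (hij.mpr h)
        refine conn_pt p0 q (R := fun i j =>
          (P i - P j) - (G (Sum.inr q) D' i - G (Sum.inr q) D' j) ∈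
          NF.J (Sum.inr q) (3 * N - aq a q / n)) (hrefl _) (htrans _)
          (fun q' hq' hq'' i hi j hj hiq hjq => ?_) i j hi hj
        have h1 := hreg1 q' (hp0 q' hq') _ _ hD i hi j hj
        change _ ∈ NF.J (Sum.inr q)
            (3 * N - (aq a q + (if (i ∈ ntri q ↔ j ∈ ntri q) then 0 else 1)) / n) at h1
        rwa [if_pos (by tauto), add_zero] at h1

end

end Pool.Agent.H94_hk
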