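import Pool.Agent.H94_hk.Solve3

/-!
# Solving the cocycle equations for all characters
-/

namespace Pool.Agent.H94_hk

open MvPolynomial

noncomputable section

theorem inter_tri : ∀ p q : Fin 6, p ≠ q → ntri p ∩ ntri q = {nJ q p} := by
  decide +kernel

theorem aq_eq_sum (a : Fin 7 → ℕ) (q : Fin 6) : aq a q = ∑ i ∈ ntri q, a i := by
  rw [sum_ntri]; rfl

theorem local_unique {n d : ℕ} {a : Fin 7 → ℕ} (hd1 : 1 ≤ d) (ha : ∀ i, a i < n)
    (hd : ∑ i, a i = d * n) {p q : Fin 6} (hp : ¬ aq a p < d * n) (hq : ¬ aq a q < d * n) :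
    p = q := by
  by_contra hpq
  have h1 := Finset.sum_union_inter (s₁ := ntri p) (s₂ := ntri q) (f := a)
  rw [inter_tri p q hpq, Finset.sum_singleton, ← aq_eq_sum, ← aq_eq_sum] at h1
  have h2 : ∑ i ∈ ntri p ∪ ntri q, a i ≤ ∑ i, a i :=
    Finset.sum_le_sum_of_subset (Finset.subset_univ _)
  have h3 := ha (nJ q p)
  have h4 : 1 * n ≤ d * n := Nat.mul_le_mul_right n hd1
  omega

theorem choose_i0 {n d : ℕ} {a : Fin 7 → ℕ} (hn : 8 ≤ n) (hd1 : 1 ≤ d) (ha : ∀ i, a i < n)
    (hd : ∑ i, a i = d * n) : ∃ i0 : Fin 7, ∑ l, (if l = i0 then 0 else fl n a l) < d ∧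
      (∀ q, ¬ aq a q < d * n → i0 ∈ ntri q) ∧ ∃ p0, ∀ q, q ≠ p0 → aq a q < d * n := by
  have hI : ∑ l, fl n a l ≤ d := by
    have h1 : (∑ l, fl n a l) * n ≤ d * n + ∑ l, fl n a l := by
      rw [Finset.sum_mul, ← hd, ← Finset.sum_add_distrib]
      exact Finset.sum_le_sum fun l _ => fl_mul n a l
    have h2 : ∑ l, fl n a l ≤ 7 := by
      calc ∑ l, fl n a l ≤ ∑ _l : Fin 7, 1 := Finset.sum_le_sum fun l _ => fl_le n a l
        _ = 7 := by simp
    have h3 : (∑ l, fl n a l) * n < (d + 1) * n := by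
      have : (d + 1) * n = d * n + n := by ring
      omega
    have := Nat.lt_of_mul_lt_mul_right h3
    omega
  have hle : ∀ i0 : Fin 7, ∑ l, (if l = i0 then 0 else fl n a l) + fl n a i0 =
      ∑ l, fl n a l := by
    intro i0
    have h1 : ∑ l, fl n a l = ∑ l, ((if l = i0 then 0 else fl n a l) +
        (if l = i0 then fl n a l else 0)) :=
      Finset.sum_congr rfl fun l _ => by split_ifs <;> simp
    rw [h1, Finset.sum_add_distrib, Finset.sum_ite_eq' Finset.univ i0 (fun l => fl n a l),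
      if_pos (Finset.mem_univ i0)]
  have hp0 : ∃ p0, ∀ q, q ≠ p0 → aq a q < d * n := by
    by_cases h : ∃ p, ¬ aq a p < d * n
    · obtain ⟨p, hp⟩ := h
      refine ⟨p, fun q hq => ?_⟩
      by_contra h2
      exact hq (local_unique hd1 ha hd h2 hp)
    · push Not at h
      exact ⟨0, fun q _ => h q⟩
  by_cases hId : ∑ l, fl n a l = d
  · obtain ⟨i0, hi0⟩ : ∃ i0, fl n a i0 = 1 := by
      by_contra hcon
      push Not at hcon
      have h0 : ∑ l, fl n a l = 0 := Finset.sum_eq_zero fun l _ => by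
        have h1 := fl_le n a l
        have h2 := hcon l
        omega
      omega
    refine ⟨i0, ?_, ?_, hp0⟩
    · have := hle i0
      omega
    · intro q hq
      by_contra hiq
      have h1 : a i0 + 1 = n := by
        unfold fl at hi0
        split_ifs at hi0 with h
        exact h
      have h2 : ∑ i ∈ insert i0 (ntri q), a i ≤ ∑ i, a i :=
        Finset.sum_le_sum_of_subset (Finset.subset_univ _)
      rw [Finset.sum_insert hiq, ← aq_eq_sum] at h2
      omega
  · by_cases h : ∃ p, ¬ aq a p < d * n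
    · obtain ⟨p, hp⟩ := h
      refine ⟨nT p 0, ?_, ?_, hp0⟩
      · have := hle (nT p 0)
        omega
      · intro q hq
        rw [local_unique hd1 ha hd hq hp]
        simp [ntri]
    · push Not at h
      refine ⟨0, ?_, ?_, hp0⟩
      · have := hle 0
        omega
      · intro q hq
        exact absurd (h q) hq

/-- Linear forms are the homogeneous polynomials of degree one. -/
theorem exists_lin {f : R3} (hf : f.IsHomogeneous 1) : ∃ v, f = lin v := by
  have h1 : f ∈ homogeneousSubmodule (Fin 3) ℂ 1 := hf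
  rw [homogeneousSubmodule_one_eq_span_X] at h1
  refine Submodule.span_induction (p := fun f _ => ∃ v, f = lin v) ?_ ?_ ?_ ?_ h1
  · rintro _ ⟨j, rfl⟩
    exact ⟨Pi.single j 1, by simp [lin, Pi.single_apply]⟩
  · exact ⟨0, by simp [lin]⟩
  · rintro _ _ _ _ ⟨v, rfl⟩ ⟨w, rfl⟩
    exact ⟨v + w, (lin_add v w).symm⟩
  · rintro c _ _ ⟨v, rfl⟩
    exact ⟨c • v, by rw [lin_smul, smul_eq_C_mul]⟩

theorem lin_inj {v w : Fin 3 → ℂ} (h : lin v = lin w) : v = w := by
  funext j
  have h1 := congrArg (eval (Pi.single j 1)) h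
  rw [eval_lin, eval_lin, dotProduct_single, dotProduct_single] at h1
  simpa using h1

theorem cancel_prod {D : Crv 7 6} (s : Finset (Fin 7)) (B : ℕ) (m : ℕ) (P : R3)
    (h : (∏ l ∈ s, NF.L l ^ B) * P ∈ NF.J D (m + ∑ l ∈ s, B * NF.val D l)) :
    P ∈ NF.J D m := by
  have h1 : ∀ (l : Fin 7) (B m : ℕ) (P : R3), NF.L l ^ B * P ∈ NF.J D (m + B * NF.val D l) →
      P ∈ NF.J D m := by
    intro l B
    induction B with
    | zero => intro m P h; simpa using h
    | succ B ih =>
      intro m P h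
      apply ih
      apply NF.cancel (j := l)
      rw [pow_succ', mul_assoc] at h
      convert h using 2
      ring
  induction s using Finset.induction_on generalizing P m with
  | empty => simpa using h
  | insert l s hl ih =>
    rw [Finset.prod_insert hl, Finset.sum_insert hl, mul_assoc] at h
    apply ih
    apply h1 l B
    convert h using 2
    ring

theorem const_solve (v : Fin 6 → Fin 3 → ℂ) (o : ∀ q, v q ⬝ᵥ zc (npt q) = 0)
    (hdep : ∀ k j, ∑ q, (dvec k q : ℂ) * v q j = 0) : ∃ κ : Fin 7 → ℂ, ∀ q j,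
      v q j = κ (nT q 0) * (nf (nT q 0) j : ℂ) - κ (nT q 1) * (nf (nT q 1) j : ℂ) -
        κ (nT q 2) * (nf (nT q 2) j : ℂ) := by
  refine ⟨![0, -v 0 0 - v 0 1, -v 1 0 - v 1 2, -v 0 0, -v 1 0, -v 0 0 - v 0 1 - v 2 1,
    -v 0 0 - v 4 0], ?_⟩
  have o0 := o 0
  have o1 := o 1
  have o2 := o 2
  have o3 := o 3
  have o4 := o 4
  have o5 := o 5
  have d00 := hdep 0 0
  have d01 := hdep 0 1
  have d02 := hdep 0 2
  have d10 := hdep 1 0
  have d11 := hdep 1 1
  have d12 := hdep 1 2
  simp [dotProduct, Fin.sum_univ_succ, zc, npt] at o0 o1 o2 o3 o4 o5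
  simp [Fin.sum_univ_succ, dvec] at d00 d01 d02 d10 d11 d12
  intro q j
  fin_cases q <;> fin_cases j <;> simp [nT, nf] <;> grind

end

end Pool.Agent.H94_hk
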